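import Pool.Agent.Lib.H29F.FC0

/-!
# FA1 (S/M): the calculus of the generalised index, part 1
-/

namespace Pool.Agent.Lib.H29F

open NumberField IsDedekindDomain

noncomputable section

set_option linter.unusedSectionVars false

section

variable {G : Type} [Group G]

/-- PROOF. Both numbers are positive (`Nat.cast_pos`, `Nat.pos_of_ne_zero`), `div_pos`. -/
theorem gi_pos {A B : Subgroup G} (h1 : A.relIndex B ≠ 0) (h2 : B.relIndex A ≠ 0) : 0 < gi A B := by
  exact div_pos (Nat.cast_pos.mpr (Nat.pos_of_ne_zero h2)) (Nat.cast_pos.mpr (Nat.pos_of_ne_zero h1))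

/-- PROOF. `Subgroup.relIndex_self`. -/
theorem gi_self (A : Subgroup G) : gi A A = 1 := by
  unfold gi
  rw [Subgroup.relIndex_self, Nat.cast_one, div_one]

/-- For `B ≤ A` the generalised index is the index. PROOF. `A.relIndex B = 1` (`Subgroup.relIndex_eq_one`). -/
theorem gi_le {A B : Subgroup G} (h : B ≤ A) : gi A B = B.relIndex A := by
  unfold gi
  rw [Subgroup.relIndex_eq_one.mpr h, Nat.cast_one, div_one]

/-- PROOF. `gi B A = (gi A B)⁻¹` by the definition (`inv_div`). -/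
theorem gi_symm (A B : Subgroup G) : gi B A = (gi A B)⁻¹ := by
  unfold gi
  rw [inv_div]

/-- For `C ≤ A ⊓ B` of finite index in `A` and in `B`: `gi A B = [A : C] / [B : C]`.
PROOF. `Subgroup.relIndex_mul_relIndex C (A ⊓ B) A` (`C ≤ A ⊓ B ≤ A`): `C.relIndex (A ⊓ B) * (A ⊓ B).relIndex A = C.relIndex A`, the same for `B`; `(A ⊓ B).relIndex A = B.relIndex A` (`Subgroup.inf_relIndex_left` or `..right`), `(A ⊓ B).relIndex B = A.relIndex B`;
`C.relIndex (A ⊓ B) ≠ 0` as a factor of `C.relIndex A ≠ 0`; `field_simp`. -/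
theorem gi_of_le {A B C : Subgroup G} (hA : C ≤ A) (hB : C ≤ B) (h1 : C.relIndex A ≠ 0) (h2 : C.relIndex B ≠ 0) : gi A B = (C.relIndex A : ℝ) / (C.relIndex B : ℝ) := by
  have e1 : C.relIndex (A ⊓ B) * B.relIndex A = C.relIndex A := by
    have h := Subgroup.relIndex_mul_relIndex C (A ⊓ B) A (le_inf hA hB) inf_le_left
    rwa [Subgroup.inf_relIndex_left] at h
  have e2 : C.relIndex (A ⊓ B) * A.relIndex B = C.relIndex B := by
    have h := Subgroup.relIndex_mul_relIndex C (A ⊓ B) B (le_inf hA hB) inf_le_right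
    rwa [Subgroup.inf_relIndex_right] at h
  have hn : (C.relIndex (A ⊓ B) : ℝ) ≠ 0 := by
    intro h0
    have h0' : C.relIndex (A ⊓ B) = 0 := Nat.cast_eq_zero.mp h0
    rw [h0', Nat.zero_mul] at e1
    exact h1 e1.symm
  unfold gi
  rw [← e1, ← e2, Nat.cast_mul, Nat.cast_mul, mul_div_mul_left _ _ hn]

/-- **Transitivity.** PROOF. Put `E = A ⊓ B ⊓ C`. It has finite index in `A`, `B`, `C`: `(B ⊓ A).relIndex A ≠ 0`, `C.relIndex B ≠ 0`, so `(A ⊓ B ⊓ C)` has finite index in `A ⊓ B` (`Subgroup.relIndex_inf_ne_zero`, `Subgroup.relIndex_ne_zero_trans`, or Mathlib's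
`Subgroup.Commensurable.trans` which has the same argument) and `A ⊓ B` has finite index in `A` and `B`; `B ⊓ C` has finite index in `C` and `A ⊓ B ⊓ C` in `B ⊓ C`. By `gi_of_le`: `gi A B = [A:E]/[B:E]`, `gi B C = [B:E]/[C:E]`, `gi A C = [A:E]/[C:E]`. -/
theorem gi_trans {A B C : Subgroup G} (h1 : A.relIndex B ≠ 0) (h2 : B.relIndex A ≠ 0) (h3 : B.relIndex C ≠ 0) (h4 : C.relIndex B ≠ 0) : gi A B * gi B C = gi A C := by
  have hCA : C.relIndex A ≠ 0 := Subgroup.relIndex_ne_zero_trans h4 h2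
  have hAC : A.relIndex C ≠ 0 := Subgroup.relIndex_ne_zero_trans h1 h3
  have hself : ∀ D : Subgroup G, D.relIndex D ≠ 0 := fun D => by
    rw [Subgroup.relIndex_self]
    exact Nat.one_ne_zero
  have eA : (A ⊓ B ⊓ C).relIndex A ≠ 0 := Subgroup.relIndex_inf_ne_zero (Subgroup.relIndex_inf_ne_zero (hself A) h2) hCA
  have eB : (A ⊓ B ⊓ C).relIndex B ≠ 0 := Subgroup.relIndex_inf_ne_zero (Subgroup.relIndex_inf_ne_zero h1 (hself B)) h4
  have eC : (A ⊓ B ⊓ C).relIndex C ≠ 0 := Subgroup.relIndex_inf_ne_zero (Subgroup.relIndex_inf_ne_zero hAC h3) (hself C)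
  have lA : A ⊓ B ⊓ C ≤ A := inf_le_left.trans inf_le_left
  have lB : A ⊓ B ⊓ C ≤ B := inf_le_left.trans inf_le_right
  have lC : A ⊓ B ⊓ C ≤ C := inf_le_right
  rw [gi_of_le lA lB eA eB, gi_of_le lB lC eB eC, gi_of_le lA lC eA eC]
  exact div_mul_div_cancel₀ (Nat.cast_ne_zero.mpr eB)

end

section

variable {G : Type} [AddGroup G]

/-- PROOF. Both numbers are positive (`Nat.cast_pos`, `Nat.pos_of_ne_zero`), `div_pos`. -/
theorem agi_pos {A B : AddSubgroup G} (h1 : A.relIndex B ≠ 0) (h2 : B.relIndex A ≠ 0) : 0 < agi A B := by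
  exact div_pos (Nat.cast_pos.mpr (Nat.pos_of_ne_zero h2)) (Nat.cast_pos.mpr (Nat.pos_of_ne_zero h1))

/-- PROOF. `AddSubgroup.relIndex_self`. -/
theorem agi_self (A : AddSubgroup G) : agi A A = 1 := by
  unfold agi
  rw [AddSubgroup.relIndex_self, Nat.cast_one, div_one]

/-- For `B ≤ A` the generalised index is the index. PROOF. `A.relIndex B = 1` (`AddSubgroup.relIndex_eq_one`). -/
theorem agi_le {A B : AddSubgroup G} (h : B ≤ A) : agi A B = B.relIndex A := by
  unfold agi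
  rw [AddSubgroup.relIndex_eq_one.mpr h, Nat.cast_one, div_one]

/-- PROOF. `agi B A = (agi A B)⁻¹` by the definition (`inv_div`). -/
theorem agi_symm (A B : AddSubgroup G) : agi B A = (agi A B)⁻¹ := by
  unfold agi
  rw [inv_div]

/-- For `C ≤ A ⊓ B` of finite index in `A` and in `B`: `agi A B = [A : C] / [B : C]`.
PROOF. `AddSubgroup.relIndex_mul_relIndex C (A ⊓ B) A` (`C ≤ A ⊓ B ≤ A`): `C.relIndex (A ⊓ B) * (A ⊓ B).relIndex A = C.relIndex A`, the same for `B`; `(A ⊓ B).relIndex A = B.relIndex A` (`AddSubgroup.inf_relIndex_left` or `..right`), `(A ⊓ B).relIndex B = A.relIndex B`;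
`C.relIndex (A ⊓ B) ≠ 0` as a factor of `C.relIndex A ≠ 0`; `field_simp`. -/
theorem agi_of_le {A B C : AddSubgroup G} (hA : C ≤ A) (hB : C ≤ B) (h1 : C.relIndex A ≠ 0) (h2 : C.relIndex B ≠ 0) : agi A B = (C.relIndex A : ℝ) / (C.relIndex B : ℝ) := by
  have e1 : C.relIndex (A ⊓ B) * B.relIndex A = C.relIndex A := by
    have h := AddSubgroup.relIndex_mul_relIndex C (A ⊓ B) A (le_inf hA hB) inf_le_left
    rwa [AddSubgroup.inf_relIndex_left] at h
  have e2 : C.relIndex (A ⊓ B) * A.relIndex B = C.relIndex B := by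
    have h := AddSubgroup.relIndex_mul_relIndex C (A ⊓ B) B (le_inf hA hB) inf_le_right
    rwa [AddSubgroup.inf_relIndex_right] at h
  have hn : (C.relIndex (A ⊓ B) : ℝ) ≠ 0 := by
    intro h0
    have h0' : C.relIndex (A ⊓ B) = 0 := Nat.cast_eq_zero.mp h0
    rw [h0', Nat.zero_mul] at e1
    exact h1 e1.symm
  unfold agi
  rw [← e1, ← e2, Nat.cast_mul, Nat.cast_mul, mul_div_mul_left _ _ hn]

/-- **Transitivity.** PROOF. Put `E = A ⊓ B ⊓ C`. It has finite index in `A`, `B`, `C`: `(B ⊓ A).relIndex A ≠ 0`, `C.relIndex B ≠ 0`, so `(A ⊓ B ⊓ C)` has finite index in `A ⊓ B` (`AddSubgroup.relIndex_inf_ne_zero`, `AddSubgroup.relIndex_ne_zero_trans`, or Mathlib's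
`AddSubgroup.Commensurable.trans` which has the same argument) and `A ⊓ B` has finite index in `A` and `B`; `B ⊓ C` has finite index in `C` and `A ⊓ B ⊓ C` in `B ⊓ C`. By `agi_of_le`: `agi A B = [A:E]/[B:E]`, `agi B C = [B:E]/[C:E]`, `agi A C = [A:E]/[C:E]`. -/
theorem agi_trans {A B C : AddSubgroup G} (h1 : A.relIndex B ≠ 0) (h2 : B.relIndex A ≠ 0) (h3 : B.relIndex C ≠ 0) (h4 : C.relIndex B ≠ 0) : agi A B * agi B C = agi A C := by
  have hCA : C.relIndex A ≠ 0 := AddSubgroup.relIndex_ne_zero_trans h4 h2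
  have hAC : A.relIndex C ≠ 0 := AddSubgroup.relIndex_ne_zero_trans h1 h3
  have hself : ∀ D : AddSubgroup G, D.relIndex D ≠ 0 := fun D => by
    rw [AddSubgroup.relIndex_self]
    exact Nat.one_ne_zero
  have eA : (A ⊓ B ⊓ C).relIndex A ≠ 0 := AddSubgroup.relIndex_inf_ne_zero (AddSubgroup.relIndex_inf_ne_zero (hself A) h2) hCA
  have eB : (A ⊓ B ⊓ C).relIndex B ≠ 0 := AddSubgroup.relIndex_inf_ne_zero (AddSubgroup.relIndex_inf_ne_zero h1 (hself B)) h4
  have eC : (A ⊓ B ⊓ C).relIndex C ≠ 0 := AddSubgroup.relIndex_inf_ne_zero (AddSubgroup.relIndex_inf_ne_zero hAC h3) (hself C)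
  have lA : A ⊓ B ⊓ C ≤ A := inf_le_left.trans inf_le_left
  have lB : A ⊓ B ⊓ C ≤ B := inf_le_left.trans inf_le_right
  have lC : A ⊓ B ⊓ C ≤ C := inf_le_right
  rw [agi_of_le lA lB eA eB, agi_of_le lB lC eB eC, agi_of_le lA lC eA eC]
  exact div_mul_div_cancel₀ (Nat.cast_ne_zero.mpr eB)

end

end

end Pool.Agent.Lib.H29F
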