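import Pool.Agent.Lib.H29F.FC1

/-!
# FA7 (M): the height functions in one step
-/

namespace Pool.Agent.Lib.H29F

open NumberField IsDedekindDomain

noncomputable section

set_option linter.unusedSectionVars false

variable {G J K : Type} [Group G] [Fintype J] [DecidableEq J] [Field K] [NumberField K] {D : GDat G J K} {a : J → J → ℤ} {𝔫 : Ideal (𝓞 K)} (H : HDat D a 𝔫)

theorem A_pos (k : J) (g : G) (v : HeightOneSpectrum (𝓞 K)) : 0 < H.A k g v := by
  obtain ⟨y, hy, h⟩ := H.val k g v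
  rw [h]
  exact (av v).pos hy

theorem fa7_fp {f : HeightOneSpectrum (𝓞 K) → ℝ} (h : ∀ v, 0 < f v) : 0 < ∏ᶠ v, f v :=
  finprod_induction (fun x : ℝ => 0 < x) one_pos (fun _ _ hx hy => mul_pos hx hy) h

theorem fe_pos (e : J → ℝ) (g : G) : 0 < fe H e g := by
  exact Finset.prod_pos fun k _ => Real.rpow_pos_of_pos (fa7_fp fun v => A_pos H k g v) _

/-- Invariance under `Γ` from the right. -/
theorem fe_right (e : J → ℝ) (g : G) {γ : G} (hγ : γ ∈ H.Γ) : fe H e (g * γ) = fe H e g := by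
  unfold fe
  refine Finset.prod_congr rfl fun k _ => ?_
  have h : (fun v => H.A k (g * γ) v) = fun v => H.A k g v := funext fun v => H.right k g v γ hγ
  rw [h]

theorem fa7_mx (i : J) (z : G) (c : HeightOneSpectrum (𝓞 K) → K) (r : K) (v : HeightOneSpectrum (𝓞 K)) : 0 < mx (H.A i z) c r v :=
  lt_of_lt_of_le (A_pos H i z v) (le_max_left _ _)

/-- The finiteness of the support of `mx`. PROOF. `A_i(n_i x_i(r) z) v = A_i(z) v * mx ^ (-2)` (`hc`, `a i i = 2`), both heights are `1` for almost all `v` (`H.fin`), so `mx ^ (-2) = 1` and `mx = 1` (`mx > 0`). -/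
theorem mx_fin {i : J} (ha : a i i = 2) {z : G} {c : HeightOneSpectrum (𝓞 K) → K} (hc : ∀ v r k, H.A k (D.n i * D.x i r * z) v = H.A k z v * (mx (H.A i z) c r v) ^ (-a k i)) (r : K) :
    {v | mx (H.A i z) c r v ≠ 1}.Finite := by
  refine ((H.fin i (D.n i * D.x i r * z)).union (H.fin i z)).subset fun v hv => ?_
  by_contra hcon
  rw [Set.mem_union, not_or] at hcon
  have h1 : H.A i (D.n i * D.x i r * z) v = 1 := by
    by_contra h
    exact hcon.1 h
  have h2 : H.A i z v = 1 := by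
    by_contra h
    exact hcon.2 h
  have h3 := hc v r i
  rw [h1, h2, one_mul, ha] at h3
  apply hv
  have h4 := fa7_mx H i z c r v
  have h5 : mx (H.A i z) c r v ^ 2 = 1 := by
    have h6 : mx (H.A i z) c r v ^ (-2 : ℤ) = (mx (H.A i z) c r v ^ 2)⁻¹ := by
      rw [zpow_neg]
      rfl
    rw [h6] at h3
    exact inv_eq_one.1 h3.symm
  exact (pow_eq_one_iff_of_nonneg h4.le (by norm_num)).1 h5

/-- PROOF. `∏ᶠ v, A_k(n_i x_i(r) z) v = (∏ᶠ v, A_k(z) v) * (∏ᶠ v, mx) ^ (-a k i)` (`finprod_mul_distrib` with finite supports, `finprod_zpow`, or `map_finprod`), then real powers: `(x y ^ (-a_ki)) ^ e_k = x ^ e_k * y ^ (-(e_k a_ki))`, product over `k` (`Real.finset_prod_rpow`, `Real.rpow_sum_of_pos`):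
`∑ e_k a_ki = 1 + μ_i`. -/
theorem fe_step {i : J} (ha : a i i = 2) {z : G} {c : HeightOneSpectrum (𝓞 K) → K} (hc : ∀ v r k, H.A k (D.n i * D.x i r * z) v = H.A k z v * (mx (H.A i z) c r v) ^ (-a k i)) (e : J → ℝ) (r : K) :
    fe H e (D.n i * D.x i r * z) = fe H e z * (∏ᶠ v, mx (H.A i z) c r v) ^ (-(1 + mu a i e)) := by
  have hM := mx_fin H ha hc r
  have hM0 : 0 < ∏ᶠ v, mx (H.A i z) c r v := fa7_fp fun v => fa7_mx H i z c r v
  have key : ∀ k, ∏ᶠ v, H.A k (D.n i * D.x i r * z) v = (∏ᶠ v, H.A k z v) * (∏ᶠ v, mx (H.A i z) c r v) ^ (-a k i) := by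
    intro k
    have h1 : (fun v => H.A k (D.n i * D.x i r * z) v) = fun v => H.A k z v * (mx (H.A i z) c r v) ^ (-a k i) :=
      funext fun v => hc v r k
    rw [h1]
    have h2 : (Function.mulSupport fun v => (mx (H.A i z) c r v) ^ (-a k i)).Finite := by
      refine hM.subset fun v hv h => hv ?_
      show mx (H.A i z) c r v ^ (-a k i) = 1
      rw [h, one_zpow]
    rw [finprod_mul_distrib (H.fin k z) h2]
    congr 1
    have h3 := (zpowGroupHom (α := ℝ) (-a k i)).map_finprod (f := fun v => mx (H.A i z) c r v) hM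
    exact h3.symm
  unfold fe
  have h4 : ∀ k, (∏ᶠ v, H.A k (D.n i * D.x i r * z) v) ^ e k =
      (∏ᶠ v, H.A k z v) ^ e k * (∏ᶠ v, mx (H.A i z) c r v) ^ (-(e k * a k i)) := by
    intro k
    rw [key k, Real.mul_rpow (fa7_fp fun v => A_pos H k z v).le (zpow_pos hM0 _).le, ← Real.rpow_intCast, ← Real.rpow_mul hM0.le]
    congr 2
    push_cast
    ring
  rw [Finset.prod_congr rfl fun k _ => h4 k, Finset.prod_mul_distrib, ← Real.rpow_sum_of_pos hM0]
  congr 2
  rw [Finset.sum_neg_distrib]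
  unfold mu
  ring

/-- PROOF. `sE` changes only the exponent of `i`, by `- μ_i`: `Finset.prod_update_of_mem` or `Finset.mul_prod_erase`; `Real.rpow_sub`. -/
theorem fe_sE (i : J) (e : J → ℝ) (z : G) : fe H (sE a i e) z = fe H e z * (∏ᶠ v, H.A i z v) ^ (-mu a i e) := by
  unfold fe
  rw [← Finset.mul_prod_erase Finset.univ _ (Finset.mem_univ i),
    ← Finset.mul_prod_erase Finset.univ (fun k => (∏ᶠ v, H.A k z v) ^ e k) (Finset.mem_univ i)]
  have h1 : sE a i e i = e i - mu a i e := Function.update_self ..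
  have h2 : ∀ k ∈ Finset.univ.erase i, (∏ᶠ v, H.A k z v) ^ sE a i e k = (∏ᶠ v, H.A k z v) ^ e k := by
    intro k hk
    have h3 : sE a i e k = e k := Function.update_of_ne (Finset.ne_of_mem_erase hk) ..
    rw [h3]
  rw [Finset.prod_congr rfl h2, h1, sub_eq_add_neg, Real.rpow_add (fa7_fp fun v => A_pos H i z v)]
  ring

end

end Pool.Agent.Lib.H29F
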