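import Pool.Agent.Lib.H29F.FA5
import Pool.Agent.Lib.H29F.FA7

/-!
# FA8 (M/L): periodicity; the sum over one letter
-/

namespace Pool.Agent.Lib.H29F

open NumberField IsDedekindDomain

noncomputable section

set_option linter.unusedSectionVars false

variable {G J K : Type} [Group G] [Fintype J] [DecidableEq J] [Field K] [NumberField K] {D : GDat G J K} {a : J → J → ℤ} {𝔫 : Ideal (𝓞 K)} (H : HDat D a 𝔫)

/-- **Periodicity.** PROOF. Let `λ ∈ U_(w s_i) ∩ z Γ z⁻¹` with `c_i(λ) = s` (`GDat.mem_im`), `λ z = z γ` with `γ = z⁻¹ λ z ∈ Γ` (`mem_cz`). `λ' = λ x_i(-s)` has `c_i = 0` (`c_mul`, `c_x`, `x_mem`). `n_i x_i(r + s) z = n_i x_i(r) x_i(s) z = n_i x_i(r) λ'⁻¹ λ z = u (n_i x_i(r) z) γ` with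
`u = n_i x_i(r) λ'⁻¹ x_i(-r) n_i⁻¹ ∈ U_w` (`GDat.down`; `c_i (x_i(r) λ'⁻¹ x_i(-r)) = 0` by `c_mul`, `c_inv`, `x_neg`). -/
theorem per_ex {i : J} {l : List J} (hl : D.Rd (i :: l)) {z : G} {s : K} (hs : s ∈ D.im hl (cz H.Γ z)) (r : K) :
    ∃ u ∈ D.UW l, ∃ γ ∈ H.Γ, D.n i * D.x i (r + s) * z = u * (D.n i * D.x i r * z) * γ := by
  obtain ⟨lam, hl1, hl2, hl3⟩ := (D.mem_im hl).1 hs
  rw [mem_cz] at hl2
  refine ⟨D.n i * (D.x i r * D.x i s * lam⁻¹ * (D.x i r)⁻¹) * (D.n i)⁻¹, ?_, z⁻¹ * lam * z, hl2, ?_⟩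
  · have h1 := D.x_mem i l hl r
    have h2 := D.x_mem i l hl s
    have h3 := mul_mem h1 h2
    have h4 := mul_mem h3 (inv_mem hl1)
    refine D.down i l hl _ (mul_mem h4 (inv_mem h1)) ?_
    rw [D.c_mul i l hl _ h4 _ (inv_mem h1), D.c_mul i l hl _ h3 _ (inv_mem hl1), D.c_mul i l hl _ h1 _ h2,
      D.c_inv hl hl1, D.c_inv hl h1, D.c_x, D.c_x, hl3]
    ring
  · rw [D.x_add]
    group

/-- PROOF. `per_ex`, `H.left`, `H.right`. -/
theorem per_A {i : J} {l : List J} (hl : D.Rd (i :: l)) {z : G} {s : K} (hs : s ∈ D.im hl (cz H.Γ z)) (r : K) (k : J) (v : HeightOneSpectrum (𝓞 K)) :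
    H.A k (D.n i * D.x i (r + s) * z) v = H.A k (D.n i * D.x i r * z) v := by
  obtain ⟨u, hu, γ, hγ, h⟩ := per_ex H hl hs r
  rw [h, H.right k _ v γ hγ, H.left k l u hu]

/-- PROOF. `per_ex`, `H.χ_left`, `H.χ_right`. -/
theorem per_χ {i : J} {l : List J} (hl : D.Rd (i :: l)) {z : G} {s : K} (hs : s ∈ D.im hl (cz H.Γ z)) (r : K) (j : J) :
    H.χ j (D.n i * D.x i (r + s) * z) ↔ H.χ j (D.n i * D.x i r * z) := by
  obtain ⟨u, hu, γ, hγ, h⟩ := per_ex H hl hs r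
  rw [h, H.χ_right j _ γ hγ, H.χ_left j l u hu]

theorem fa8_nw {l : List J} {j : J} (hj : j ∉ l) (g : G) : H.χ j (D.nw l * g) ↔ H.χ j g := by
  induction l generalizing g with
  | nil => rw [D.nw_nil, one_mul]
  | cons i l ih =>
    rw [List.mem_cons, not_or] at hj
    have h1 := ih hj.2 (D.n i * g)
    have h2 := H.χ_ne i j hj.1 0 g
    rw [D.x_zero, mul_one] at h2
    rw [D.nw_cons, mul_assoc, h1, h2]

theorem fa8_nv (v : HeightOneSpectrum (𝓞 K)) : nv (⊤ : Ideal (𝓞 K)) v = 1 := by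
  unfold nv
  have h1 : Associates.mk (⊤ : Ideal (𝓞 K)) = 1 := by
    rw [← Ideal.one_eq_top]
    exact Associates.mk_one
  rw [h1, Associates.factors_one, Associates.count_zero (Associates.irreducible_mk.2 v.irreducible), pow_zero]

theorem fa8_sub (v : HeightOneSpectrum (𝓞 K)) (x y : K) : av v (x - y) ≤ max (av v x) (av v y) := by
  have h := NumberField.HeightOneSpectrum.adicAbv_add_le_max K v x (-y)
  rw [AbsoluteValue.map_neg] at h
  rw [sub_eq_add_neg]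
  exact h

theorem fa8_max {a M M' : ℝ} (ha : 0 < a) (h1 : a ≤ M) (h2 : a ≤ M') : max M M' ≤ M * M' / a := by
  rw [le_div_iff₀ ha]
  rcases le_total M M' with h | h
  · rw [max_eq_right h]
    nlinarith
  · rw [max_eq_left h]
    nlinarith

/-- Differences, trivial level. -/
theorem fa8_T2 (a : HeightOneSpectrum (𝓞 K) → ℝ) (c : HeightOneSpectrum (𝓞 K) → K) (v : HeightOneSpectrum (𝓞 K)) (ha : 0 < a v) (r r' : K) :
    av v (r - r') ≤ mx a c r v * mx a c r' v / a v := by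
  have h1 : r - r' = (r + c v) - (r' + c v) := by ring
  have h2 := fa8_sub v (r + c v) (r' + c v)
  rw [← h1] at h2
  refine h2.trans ((max_le_max (le_max_right (a v) _) (le_max_right (a v) _)).trans ?_)
  exact fa8_max ha (le_max_left _ _) (le_max_left _ _)

/-- For `j` which does not occur in `l`: `χ_j(n_w u g) ↔ χ_j(g)`, `u ∈ U_w`. PROOF. Induction on `l`: `n_(w s_i) g' = n_w (n_i g')`, `χ_j(n_i g') ↔ χ_j(g')` is `H.χ_ne` with `r = 0` (`x_zero`); so `χ_j(n_w g') ↔ χ_j(g')` for all `g'`; `g' = u g` and `H.χ_left`. -/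
theorem χ_nw {l : List J} {j : J} (hj : j ∉ l) {u : G} (hu : u ∈ D.UW l) (g : G) : H.χ j (D.nw l * u * g) ↔ H.χ j g := by
  rw [mul_assoc, fa8_nw H hj, H.χ_left j l u hu]

/-- **One letter.** `𝔪 = 1` (no condition) or `𝔪 = 𝔫` and `χ_i` holds at all `n_i x_i(r) z`, `r ∈ R`. PROOF. Choose `c v` by `H.loc i z v`: (1) `H.A k (n_i x_i(r) z) v = H.A k z v * mx (H.A i z) c r v ^ (-a k i)` (`mx` unfolds to `max (A i z v) (av v (r + c v))`), (2) the level inequality. By `fe_step` the left side is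
`fe e z * ∑ (∏ᶠ mx) ^ (-(1 + μ))`, `μ = mu a i e`; `RankOne` for `𝔪`, `H.A i z`, `c`, `𝔞 = im (cz Γ z)`, `T = R`; hypotheses: `H.val`, `H.fin`, `mx_fin`, `im_comm`, `hR`. (T2) `av v (r - r') ≤ nv 𝔪 v * mx r * mx r' / a`: for `𝔪 = 𝔫` this is (2); for `𝔪 = ⊤`: `nv ⊤ v = 1` (the count of a prime in the factors of `1` is
`0`), `r - r' = (r + c) - (r' + c)`, `av v (x - y) ≤ max (av v x) (av v y)` (`NumberField.HeightOneSpectrum.adicAbv_add_le_max`), and `max (mx r) (mx r') ≤ mx r * mx r' / a` since both are `≥ a > 0`. (T3) for `s ∈ 𝔞`: `mx (r + s) = mx r` by `per_A` with `k = i` (`a i i = 2`: equal values of `A_i(z) * mx ^ (-2)`), so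
`av v s ≤ max (mx (r + s)) (mx r) = mx r` (`s = (r + s + c) - (r + c)`), and `av v s = av v ((r + s) - r) ≤ nv 𝔪 v * mx (r + s) * mx r / a`: for `𝔪 = 𝔫` by (2) and `per_χ`, for `𝔪 = ⊤` as in (T2). Finally `fe_sE`. -/
theorem step_sum {ε Z : ℝ} (hRk : RankOne K ε Z) {i : J} (ha : a i i = 2) {l : List J} (hl : D.Rd (i :: l)) {e : J → ℝ} (he : 1 + ε ≤ mu a i e) (z : G) {R : Finset K}
    (hR : ∀ r ∈ R, ∀ r' ∈ R, r ≠ r' → r - r' ∉ D.im hl (cz H.Γ z)) {𝔪 : Ideal (𝓞 K)} (h𝔪 : 𝔪 ≠ ⊥) (hm : 𝔪 = ⊤ ∨ (𝔪 = 𝔫 ∧ ∀ r ∈ R, H.χ i (D.n i * D.x i r * z))) :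
    ∑ r ∈ R, fe H e (D.n i * D.x i r * z) ≤ Z * fe H (sE a i e) z * agi (OK K) (D.im hl (cz H.Γ z)) / (Ideal.absNorm 𝔪 : ℝ) := by
  choose c hc1 hc2 using H.loc i z
  have hc : ∀ v r k, H.A k (D.n i * D.x i r * z) v = H.A k z v * (mx (H.A i z) c r v) ^ (-a k i) := fun v r k => hc1 v r k
  have hap : ∀ v, 0 < H.A i z v := fun v => A_pos H i z v
  have hmp : ∀ r v, 0 < mx (H.A i z) c r v := fun r v => lt_of_lt_of_le (hap v) (le_max_left _ _)
  have hper : ∀ r, ∀ s ∈ D.im hl (cz H.Γ z), ∀ v, mx (H.A i z) c (r + s) v = mx (H.A i z) c r v := by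
    intro r s hs v
    have h1 := per_A H hl hs r i v
    rw [hc v, hc v, ha] at h1
    have h2 := mul_left_cancel₀ (hap v).ne' h1
    have h3 : mx (H.A i z) c (r + s) v ^ 2 = mx (H.A i z) c r v ^ 2 := by
      have h4 : ∀ t : ℝ, t ^ (-2 : ℤ) = (t ^ 2)⁻¹ := by
        intro t
        rw [zpow_neg]
        rfl
      rw [h4, h4] at h2
      exact inv_injective h2
    exact (pow_left_inj₀ (hmp _ v).le (hmp _ v).le two_ne_zero).1 h3
  have hT2 : ∀ r ∈ R, ∀ r' ∈ R, ∀ v, av v (r - r') ≤ nv 𝔪 v * mx (H.A i z) c r v * mx (H.A i z) c r' v / H.A i z v := by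
    intro r hr r' hr' v
    rcases hm with hm | hm
    · rw [hm, fa8_nv, one_mul]
      exact fa8_T2 _ c v (hap v) r r'
    · rw [hm.1]
      exact hc2 v r r' (hm.2 r hr) (hm.2 r' hr')
  have hT3 : ∀ r ∈ R, ∀ s ∈ D.im hl (cz H.Γ z), ∀ v, av v s ≤ mx (H.A i z) c r v ∧ av v s ≤ nv 𝔪 v * mx (H.A i z) c r v ^ 2 / H.A i z v := by
    intro r hr s hs v
    have e1 : s = (r + s + c v) - (r + c v) := by ring
    have e2 : s = (r + s) - r := by ring
    constructor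
    · have h1 := fa8_sub v (r + s + c v) (r + c v)
      rw [← e1] at h1
      have h2 := max_le_max (le_max_right (H.A i z v) (av v (r + s + c v))) (le_max_right (H.A i z v) (av v (r + c v)))
      have h3 : max (mx (H.A i z) c (r + s) v) (mx (H.A i z) c r v) = mx (H.A i z) c r v := by
        rw [hper r s hs v, max_self]
      exact h1.trans (h2.trans h3.le)
    · rcases hm with hm | hm
      · rw [hm, fa8_nv, one_mul]
        have h1 := fa8_T2 (H.A i z) c v (hap v) (r + s) r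
        rw [← e2, hper r s hs v] at h1
        rw [pow_two]
        exact h1
      · rw [hm.1]
        have h1 : av v ((r + s) - r) ≤ nv 𝔫 v * mx (H.A i z) c (r + s) v * mx (H.A i z) c r v / H.A i z v :=
          hc2 v (r + s) r ((per_χ H hl hs r i).2 (hm.2 r hr)) (hm.2 r hr)
        rw [← e2, hper r s hs v] at h1
        rw [pow_two, ← mul_assoc]
        exact h1
  have hcm := im_comm H hl z
  have hmain := hRk 𝔪 h𝔪 (H.A i z) c (D.im hl (cz H.Γ z)) R (mu a i e) he (fun v => H.val i z v) (H.fin i z)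
    (fun r _ => mx_fin H ha hc r) hcm.1 hcm.2 hR hT2 hT3
  have h1 : ∀ r ∈ R, fe H e (D.n i * D.x i r * z) = fe H e z * (∏ᶠ v, mx (H.A i z) c r v) ^ (-(1 + mu a i e)) :=
    fun r _ => fe_step H ha hc e r
  rw [Finset.sum_congr rfl h1, ← Finset.mul_sum, fe_sE]
  refine (mul_le_mul_of_nonneg_left hmain (fe_pos H e z).le).trans (le_of_eq ?_)
  ring

end

end Pool.Agent.Lib.H29F
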