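import Pool.Agent.Lib.H29F.FC1

/-!
# FA9 (M): representatives; reduction from the word `w s_i` to the word `w`
-/

namespace Pool.Agent.Lib.H29F

open NumberField IsDedekindDomain

noncomputable section

set_option linter.unusedSectionVars false

/-- PROOF. Induction on `S` (`Finset.induction_on`), or choose one element in every nonempty fibre of the quotient map `V → V ⧸ A` on `S`. -/
theorem reps {V : Type} [AddCommGroup V] (A : AddSubgroup V) (S : Finset V) : ∃ R : Finset V, R ⊆ S ∧ (∀ r ∈ R, ∀ r' ∈ R, r ≠ r' → r - r' ∉ A) ∧ ∀ s ∈ S, ∃ r ∈ R, s - r ∈ A := by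
  classical
  induction S using Finset.induction_on with
  | empty => exact ⟨∅, subset_rfl, by simp, by simp⟩
  | insert s S _ ih =>
    obtain ⟨R, hR, h1, h2⟩ := ih
    by_cases hs : ∃ r ∈ R, s - r ∈ A
    · refine ⟨R, hR.trans (Finset.subset_insert _ _), h1, fun x hx => ?_⟩
      rcases Finset.mem_insert.1 hx with rfl | hx
      · exact hs
      · exact h2 x hx
    · push Not at hs
      refine ⟨insert s R, Finset.insert_subset_insert _ hR, fun r hr r' hr' hne => ?_, fun x hx => ?_⟩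
      · rcases Finset.mem_insert.1 hr with e1 | q1
        · rcases Finset.mem_insert.1 hr' with e2 | q2
          · exact absurd (e1.trans e2.symm) hne
          · rw [e1]
            exact hs r' q2
        · rcases Finset.mem_insert.1 hr' with e2 | q2
          · intro hc
            refine hs r q1 ?_
            have := A.neg_mem hc
            rwa [neg_sub, e2] at this
          · exact h1 r q1 r' q2 hne
      · rcases Finset.mem_insert.1 hx with rfl | hx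
        · exact ⟨x, Finset.mem_insert_self _ _, by rw [sub_self]; exact A.zero_mem⟩
        · obtain ⟨r, hr, h⟩ := h2 x hx
          exact ⟨r, Finset.mem_insert_of_mem hr, h⟩

variable {G J K : Type} [Group G] [Fintype J] [DecidableEq J] [Field K] [NumberField K] {D : GDat G J K}

/-- **Reduction.** PROOF. `c_i(u) - r ∈ im` gives `λ ∈ U_(w s_i) ∩ z Γ z⁻¹` with `c_i(λ) = c_i(u) - r` (`GDat.mem_im`). `u1 = u λ⁻¹` has `c_i(u1) = r` (`c_mul`, `c_inv`), `u2 = u1 x_i(-r)` has `c_i(u2) = 0`, `τ = n_i u2 n_i⁻¹ ∈ U_w` (`down`). With `γ = z⁻¹ λ z ∈ Γ`: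
`n_(w s_i) u z = n_w n_i u2 x_i(r) λ z = n_w τ n_i x_i(r) z γ`, `n_i⁻¹ τ n_i x_i(r) z = u2 x_i(r) z = u1 z = u λ⁻¹ z = u z γ⁻¹`. -/
theorem reduce {Γ : Subgroup G} {i : J} {l : List J} (hl : D.Rd (i :: l)) {z u : G} (hu : u ∈ D.UW (i :: l)) {r : K} (hr : D.c i u - r ∈ D.im hl (cz Γ z)) :
    ∃ τ ∈ D.UW l, ∃ γ ∈ Γ, D.nw (i :: l) * u * z = D.nw l * τ * (D.n i * D.x i r * z) * γ ∧ (D.n i)⁻¹ * τ * (D.n i * D.x i r * z) = u * z * γ⁻¹ := by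
  obtain ⟨la, hla, hlΓ, hlc⟩ := (D.mem_im hl).1 hr
  have h1 : u * la⁻¹ ∈ D.UW (i :: l) := mul_mem hu (inv_mem hla)
  have hc1 : D.c i (u * la⁻¹) = r := by
    rw [D.c_mul i l hl u hu la⁻¹ (inv_mem hla), D.c_inv hl hla, hlc]
    ring
  have hx : D.x i (-r) ∈ D.UW (i :: l) := D.x_mem i l hl (-r)
  have h2 : u * la⁻¹ * D.x i (-r) ∈ D.UW (i :: l) := mul_mem h1 hx
  have hc2 : D.c i (u * la⁻¹ * D.x i (-r)) = 0 := by
    rw [D.c_mul i l hl _ h1 _ hx, hc1, D.c_x]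
    ring
  refine ⟨D.n i * (u * la⁻¹ * D.x i (-r)) * (D.n i)⁻¹, D.down i l hl _ h2 hc2, z⁻¹ * la * z,
    mem_cz.1 hlΓ, ?_, ?_⟩
  · rw [D.x_neg, D.nw_cons]
    group
  · rw [D.x_neg]
    group

/-- **Inequivalent classes stay inequivalent.** PROOF. `y = n_i x_i(r) z`; `n_i⁻¹ τ y = u z γ⁻¹`, `n_i⁻¹ τ' y = u' z γ'⁻¹`. If `τ⁻¹ τ' ∈ cz Γ y`, i.e. `y⁻¹ τ⁻¹ τ' y ∈ Γ` (`mem_cz`), then `(n_i⁻¹ τ y)⁻¹ (n_i⁻¹ τ' y) = y⁻¹ τ⁻¹ τ' y ∈ Γ`, so `γ z⁻¹ u⁻¹ u' z γ'⁻¹ ∈ Γ`,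
`z⁻¹ (u⁻¹ u') z ∈ Γ`. -/
theorem reduce_ne {Γ : Subgroup G} {i : J} {z u u' τ τ' γ γ' : G} {r : K} (hγ : γ ∈ Γ) (hγ' : γ' ∈ Γ) (h : (D.n i)⁻¹ * τ * (D.n i * D.x i r * z) = u * z * γ⁻¹)
    (h' : (D.n i)⁻¹ * τ' * (D.n i * D.x i r * z) = u' * z * γ'⁻¹) (hne : u⁻¹ * u' ∉ cz Γ z) : τ⁻¹ * τ' ∉ cz Γ (D.n i * D.x i r * z) := by
  intro hc
  apply hne
  rw [mem_cz] at hc ⊢
  have e : (D.n i * D.x i r * z)⁻¹ * (τ⁻¹ * τ') * (D.n i * D.x i r * z) =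
      ((D.n i)⁻¹ * τ * (D.n i * D.x i r * z))⁻¹ * ((D.n i)⁻¹ * τ' * (D.n i * D.x i r * z)) := by
    group
  rw [e, h, h'] at hc
  have h3 := mul_mem (mul_mem (inv_mem hγ) hc) hγ'
  have e2 : γ⁻¹ * ((u * z * γ⁻¹)⁻¹ * (u' * z * γ'⁻¹)) * γ' = z⁻¹ * (u⁻¹ * u') * z := by
    group
  rwa [e2] at h3

end

end Pool.Agent.Lib.H29F
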