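import Pool.Agent.Lib.H29F.FA6
import Pool.Agent.Lib.H29F.FA8
import Pool.Agent.Lib.H29F.FA9

/-!
# FA10 (M/L): the induction on the word
-/

namespace Pool.Agent.Lib.H29F

open NumberField IsDedekindDomain

noncomputable section

set_option linter.unusedSectionVars false

variable {G J K : Type} [Group G] [Fintype J] [DecidableEq J] [Field K] [NumberField K] {D : GDat G J K} {a : J → J → ℤ} {𝔫 : Ideal (𝓞 K)}

/-- **The finite part, abstract form.** PROOF. Induction on `l` (`S`, `z`, `T` arbitrary). `l = []`: `U_w = ⊥` (`D.uw_nil`), `T ⊆ {1}`, both groups in `gi` are `⊥` (`gi_self`), `fe ≥ 0`.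
Step `i :: l`: let `𝔞 = D.im hl (cz Γ z)`, `S₁ = T.image (D.c i)`, `R` from `reps 𝔞 S₁`; for `u ∈ T` choose `ρ u ∈ R` with `c_i(u) - ρ u ∈ 𝔞` and `τ u`, `γ u` from `reduce`. `fe e (n_(w s_i) u z) = fe e (n_w (τ u) (n_i x_i(ρ u) z))` (`fe_right`). Group the sum over `T` by the value `r` of `ρ`
(`Finset.sum_fiberwise_of_maps_to`), `T_r = T.filter (ρ · = r)`. For `r ∈ R`: `τ` is injective on `T_r` (`reduce_ne`: if `τ u = τ u'` and `u ≠ u'` then `1 ∉ cz Γ _`: contradiction), the image `τ(T_r)` is in `U_w`, pairwise inequivalent modulo `cz Γ (n_i x_i(r) z)` (`reduce_ne`), and satisfies `χ_j`, `j ∈ S`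
(`H.χ_right`). Induction hypothesis for `z' = n_i x_i(r) z`: the sum over `T_r` is `≤ Z ^ |l| * fe (ew e l) (n_i x_i(r) z) * g' / N ^ |S ∩ l|` with `g' = gi (U_w ⊓ GO) (U_w ⊓ cz Γ (n_i x_i(r) z))`, and `agi (OK K) 𝔞 * g' = gi (U_(w s_i) ⊓ GO) (U_(w s_i) ⊓ cz Γ z)` for every `r` (`gi_step`), in particular `g'`
does not depend on `r` (`agi (OK K) 𝔞 > 0`: `agi_pos`, `im_comm`). Only the `r ∈ R' = R.filter (T_r nonempty)` count. `step_sum` for `R'`, the exponents `ew a e l` and `𝔪 = 𝔫` if `i ∈ S` and `i ∉ l`, `𝔪 = ⊤` otherwise (`Ideal.absNorm_top`): if `i ∈ S`, `i ∉ l`, `r ∈ R'`, `u ∈ T_r` then `χ_i(n_w (τ u) (n_i x_i(r) z))`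
holds, so `χ_i(n_i x_i(r) z)` (`χ_nw`). Finally `(S ∩ (i :: l).toFinset).card = (S ∩ l.toFinset).card + 1` if `i ∈ S`, `i ∉ l`, and `= (S ∩ l.toFinset).card` otherwise; `ew a e (i :: l) = sE a i (ew a e l)` by definition. -/
theorem c4_main {ε Z : ℝ} (hZ : 1 ≤ Z) (hRk : RankOne K ε Z) (ha : ∀ i, a i i = 2) (h𝔫 : 𝔫 ≠ ⊥) (H : HDat D a 𝔫) (l : List J) (hl : D.Rd l) (e : J → ℝ) (hA : Adm a ε e l) (S : Finset J) (z : G) (T : Finset G)
    (hT : ∀ u ∈ T, u ∈ D.UW l) (hT2 : ∀ u ∈ T, ∀ u' ∈ T, u ≠ u' → u⁻¹ * u' ∉ cz H.Γ z) (hχ : ∀ u ∈ T, ∀ j ∈ S, H.χ j (D.nw l * u * z)) :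
    ∑ u ∈ T, fe H e (D.nw l * u * z) ≤ Z ^ l.length * fe H (ew a e l) z * gi (D.UW l ⊓ D.GO) (D.UW l ⊓ cz H.Γ z) / (Ideal.absNorm 𝔫 : ℝ) ^ (S ∩ l.toFinset).card := by
  classical
  induction l generalizing z T with
  | nil =>
    have h1 : T ⊆ {1} := by
      intro u hu
      have h := hT u hu
      rw [D.uw_nil, Subgroup.mem_bot] at h
      rw [h]
      exact Finset.mem_singleton_self _
    have h2 : ∑ u ∈ T, fe H e (D.nw [] * u * z) ≤ ∑ u ∈ ({1} : Finset G), fe H e (D.nw [] * u * z) :=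
      Finset.sum_le_sum_of_subset_of_nonneg h1 fun u _ _ => (fe_pos H e _).le
    refine h2.trans (le_of_eq ?_)
    rw [Finset.sum_singleton, D.nw_nil, mul_one, one_mul, D.uw_nil, bot_inf_eq, bot_inf_eq, gi_self, List.length_nil, pow_zero,
      List.toFinset_nil, Finset.inter_empty, Finset.card_empty, pow_zero, one_mul, mul_one, div_one]
    rfl
  | cons i l ih =>
    have hl' := D.rd_tail i l hl
    obtain ⟨hA1, hA2⟩ : 1 + ε ≤ mu a i (ew a e l) ∧ Adm a ε e l := hA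
    obtain ⟨R, -, hR, hR2⟩ := reps (D.im hl (cz H.Γ z)) (T.image (D.c i))
    have h1 : ∀ u ∈ T, ∃ (r : K) (τ γ : G), r ∈ R ∧ τ ∈ D.UW l ∧ γ ∈ H.Γ ∧
        D.nw (i :: l) * u * z = D.nw l * τ * (D.n i * D.x i r * z) * γ ∧ (D.n i)⁻¹ * τ * (D.n i * D.x i r * z) = u * z * γ⁻¹ := by
      intro u hu
      obtain ⟨r, hr, h⟩ := hR2 (D.c i u) (Finset.mem_image_of_mem _ hu)
      obtain ⟨τ, hτ, γ, hγ, e1, e2⟩ := reduce hl (hT u hu) h
      exact ⟨r, τ, γ, hr, hτ, hγ, e1, e2⟩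
    choose! ρ τ γ hρ hτ hγ e1 e2 using h1
    have hg0p : 0 < agi (OK K) (D.im hl (cz H.Γ z)) := agi_pos (im_comm H hl z).2 (im_comm H hl z).1
    have hg1p : 0 ≤ gi (D.UW (i :: l) ⊓ D.GO) (D.UW (i :: l) ⊓ cz H.Γ z) := div_nonneg (Nat.cast_nonneg _) (Nat.cast_nonneg _)
    have hg : ∀ r, gi (D.UW l ⊓ D.GO) (D.UW l ⊓ cz H.Γ (D.n i * D.x i r * z)) =
        gi (D.UW (i :: l) ⊓ D.GO) (D.UW (i :: l) ⊓ cz H.Γ z) / agi (OK K) (D.im hl (cz H.Γ z)) := by
      intro r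
      rw [gi_step H hl z r, mul_div_cancel_left₀ _ hg0p.ne']
    generalize gi (D.UW (i :: l) ⊓ D.GO) (D.UW (i :: l) ⊓ cz H.Γ z) = g1 at hg hg1p ⊢
    have hstep := fun (𝔪 : Ideal (𝓞 K)) => step_sum H hRk (ha i) hl hA1 z (R := T.image ρ) (𝔪 := 𝔪)
    generalize agi (OK K) (D.im hl (cz H.Γ z)) = g0 at hg hg0p hstep
    have hN : (0 : ℝ) < (Ideal.absNorm 𝔫 : ℝ) := by
      rw [Nat.cast_pos]
      exact Nat.pos_of_ne_zero fun h => h𝔫 (Ideal.absNorm_eq_zero_iff.1 h)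
    have h2 : ∑ u ∈ T, fe H e (D.nw (i :: l) * u * z) =
        ∑ r ∈ T.image ρ, ∑ u ∈ T with ρ u = r, fe H e (D.nw l * τ u * (D.n i * D.x i r * z)) := by
      rw [← Finset.sum_fiberwise_of_maps_to (fun u hu => Finset.mem_image_of_mem ρ hu)]
      refine Finset.sum_congr rfl fun r _ => Finset.sum_congr rfl fun u hu => ?_
      rw [Finset.mem_filter] at hu
      rw [e1 u hu.1, fe_right H e _ (hγ u hu.1), hu.2]
    have h3 : ∀ r ∈ T.image ρ, ∑ u ∈ T with ρ u = r, fe H e (D.nw l * τ u * (D.n i * D.x i r * z)) ≤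
        (Z ^ l.length * (g1 / g0) / (Ideal.absNorm 𝔫 : ℝ) ^ (S ∩ l.toFinset).card) * fe H (ew a e l) (D.n i * D.x i r * z) := by
      intro r _
      have hne : ∀ u ∈ T.filter (fun u => ρ u = r), ∀ u' ∈ T.filter (fun u => ρ u = r), u ≠ u' →
          (τ u)⁻¹ * τ u' ∉ cz H.Γ (D.n i * D.x i r * z) := by
        intro u hu u' hu' hn
        rw [Finset.mem_filter] at hu hu'
        have a1 := e2 u hu.1
        have a2 := e2 u' hu'.1
        rw [hu.2] at a1
        rw [hu'.2] at a2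
        exact reduce_ne (hγ u hu.1) (hγ u' hu'.1) a1 a2 (hT2 u hu.1 u' hu'.1 hn)
      have hinj : Set.InjOn τ (T.filter (fun u => ρ u = r)) := by
        intro u hu u' hu' h
        by_contra hn
        apply hne u hu u' hu' hn
        rw [h, inv_mul_cancel]
        exact one_mem _
      have b1 : ∀ t ∈ (T.filter (fun u => ρ u = r)).image τ, t ∈ D.UW l := by
        intro t ht
        obtain ⟨u, hu, rfl⟩ := Finset.mem_image.1 ht
        exact hτ u (Finset.mem_filter.1 hu).1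
      have b2 : ∀ t ∈ (T.filter (fun u => ρ u = r)).image τ, ∀ t' ∈ (T.filter (fun u => ρ u = r)).image τ, t ≠ t' →
          t⁻¹ * t' ∉ cz H.Γ (D.n i * D.x i r * z) := by
        intro t ht t' ht' hn
        obtain ⟨u, hu, rfl⟩ := Finset.mem_image.1 ht
        obtain ⟨u', hu', rfl⟩ := Finset.mem_image.1 ht'
        exact hne u hu u' hu' fun h => hn (by rw [h])
      have b3 : ∀ t ∈ (T.filter (fun u => ρ u = r)).image τ, ∀ j ∈ S, H.χ j (D.nw l * t * (D.n i * D.x i r * z)) := by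
        intro t ht j hj
        obtain ⟨u, hu, rfl⟩ := Finset.mem_image.1 ht
        rw [Finset.mem_filter] at hu
        have h := hχ u hu.1 j hj
        rw [e1 u hu.1, H.χ_right _ _ _ (hγ u hu.1), hu.2] at h
        exact h
      have h4 := ih hl' hA2 (D.n i * D.x i r * z) ((T.filter (fun u => ρ u = r)).image τ) b1 b2 b3
      rw [Finset.sum_image hinj] at h4
      refine h4.trans (le_of_eq ?_)
      rw [hg r]
      ring
    have hC : 0 ≤ Z ^ l.length * (g1 / g0) / (Ideal.absNorm 𝔫 : ℝ) ^ (S ∩ l.toFinset).card := by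
      have hZ0 : (0 : ℝ) ≤ Z := zero_le_one.trans hZ
      positivity
    rw [h2]
    refine (Finset.sum_le_sum h3).trans ?_
    rw [← Finset.mul_sum]
    have hR' : ∀ r ∈ T.image ρ, ∀ r' ∈ T.image ρ, r ≠ r' → r - r' ∉ D.im hl (cz H.Γ z) := by
      intro r hr r' hr' hn
      obtain ⟨u, hu, rfl⟩ := Finset.mem_image.1 hr
      obtain ⟨u', hu', rfl⟩ := Finset.mem_image.1 hr'
      exact hR _ (hρ u hu) _ (hρ u' hu') hn
    have hew : ew a e (i :: l) = sE a i (ew a e l) := rfl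
    rw [hew]
    by_cases hc : i ∈ S ∧ i ∉ l
    · have hm : ∀ r ∈ T.image ρ, H.χ i (D.n i * D.x i r * z) := by
        intro r hr
        obtain ⟨u, hu, rfl⟩ := Finset.mem_image.1 hr
        have h := hχ u hu i hc.1
        rw [e1 u hu, H.χ_right _ _ _ (hγ u hu), χ_nw H hc.2 (hτ u hu)] at h
        exact h
      refine (mul_le_mul_of_nonneg_left (hstep 𝔫 hR' h𝔫 (Or.inr ⟨rfl, hm⟩)) hC).trans (le_of_eq ?_)
      have hcard : (S ∩ (i :: l).toFinset).card = (S ∩ l.toFinset).card + 1 := by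
        rw [List.toFinset_cons, Finset.inter_insert_of_mem hc.1, Finset.card_insert_of_notMem]
        intro h
        exact hc.2 (List.mem_toFinset.1 (Finset.mem_inter.1 h).2)
      rw [hcard, List.length_cons]
      field_simp
      ring
    · refine (mul_le_mul_of_nonneg_left (hstep ⊤ hR' top_ne_bot (Or.inl rfl)) hC).trans (le_of_eq ?_)
      have hcard : S ∩ (i :: l).toFinset = S ∩ l.toFinset := by
        ext j
        rw [Finset.mem_inter, Finset.mem_inter, List.mem_toFinset, List.mem_toFinset, List.mem_cons]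
        constructor
        · rintro ⟨h5, h6⟩
          refine ⟨h5, ?_⟩
          rcases h6 with rfl | h6
          · by_contra h7
            exact hc ⟨h5, h7⟩
          · exact h6
        · rintro ⟨h5, h6⟩
          exact ⟨h5, Or.inr h6⟩
      rw [hcard, List.length_cons, Ideal.absNorm_top]
      push_cast
      field_simp
      ring

end

end Pool.Agent.Lib.H29F
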