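import Pool.Agent.Lib.H29F.FC0

/-!
# FA2 (S/M): the generalised index, conjugation and injective images
-/

namespace Pool.Agent.Lib.H29F

open NumberField IsDedekindDomain

noncomputable section

set_option linter.unusedSectionVars false

section

variable {G G' : Type} [Group G] [Group G']

/-- PROOF. `Subgroup.relIndex_map_map_of_injective` (or `Subgroup.relIndex_map_map`, `Subgroup.relIndex_comap` with `Subgroup.comap_map_eq_self_of_injective`). -/
theorem gi_map (f : G →* G') (hf : Function.Injective f) (A B : Subgroup G) : gi (A.map f) (B.map f) = gi A B := by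
  unfold gi
  rw [Subgroup.relIndex_map_map_of_injective _ _ hf, Subgroup.relIndex_map_map_of_injective _ _ hf]

theorem cz_eq_map (A : Subgroup G) (z : G) : cz A z = A.map (MulAut.conj z).toMonoidHom := by
  ext g
  rw [mem_cz, Subgroup.mem_map]
  constructor
  · intro h
    refine ⟨z⁻¹ * g * z, h, ?_⟩
    show z * (z⁻¹ * g * z) * z⁻¹ = g
    group
  · rintro ⟨h, hh, rfl⟩
    show z⁻¹ * (z * h * z⁻¹) * z ∈ A
    have : z⁻¹ * (z * h * z⁻¹) * z = h := by group
    rw [this]
    exact hh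

/-- PROOF. `cz_eq_map`, `Subgroup.relIndex_map_map_of_injective`. -/
theorem cz_relIndex (A B : Subgroup G) (z : G) : (cz A z).relIndex (cz B z) = A.relIndex B := by
  rw [cz_eq_map, cz_eq_map]
  exact Subgroup.relIndex_map_map_of_injective _ _ (MulAut.conj z).injective

theorem gi_cz (A B : Subgroup G) (z : G) : gi (cz A z) (cz B z) = gi A B := by
  unfold gi
  rw [cz_relIndex, cz_relIndex]

theorem cz_cz (A : Subgroup G) (x y : G) : cz (cz A y) x = cz A (x * y) := by
  ext g
  rw [mem_cz, mem_cz, mem_cz]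
  have : y⁻¹ * (x⁻¹ * g * x) * y = (x * y)⁻¹ * g * (x * y) := by group
  rw [this]

theorem cz_one (A : Subgroup G) : cz A 1 = A := by
  ext g
  rw [mem_cz, inv_one, one_mul, mul_one]

theorem cz_self {A : Subgroup G} {z : G} (h : z ∈ A) : cz A z = A := by
  ext g
  rw [mem_cz]
  constructor
  · intro hg
    have : g = z * (z⁻¹ * g * z) * z⁻¹ := by group
    rw [this]
    exact A.mul_mem (A.mul_mem h hg) (A.inv_mem h)
  · intro hg
    exact A.mul_mem (A.mul_mem (A.inv_mem h) hg) h

theorem cz_inf (A B : Subgroup G) (z : G) : cz (A ⊓ B) z = cz A z ⊓ cz B z := by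
  ext g
  rw [mem_cz, Subgroup.mem_inf, Subgroup.mem_inf, mem_cz, mem_cz]

theorem fa2_cm (A B : Subgroup G) (z : G) : Subgroup.Commensurable (cz A z) (cz B z) ↔ Subgroup.Commensurable A B := by
  unfold Subgroup.Commensurable
  rw [cz_relIndex, cz_relIndex]

theorem fa2_one {Γ A : Subgroup G} (h1 : ∀ z, (cz Γ z).relIndex A ≠ 0) (h2 : ∀ z, A.relIndex (cz Γ z) ≠ 0) (x y : G) :
    Subgroup.Commensurable (cz Γ x) (cz A y) := by
  have h3 : Subgroup.Commensurable (cz Γ (y⁻¹ * x)) A := ⟨h1 _, h2 _⟩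
  have h4 := (fa2_cm _ _ y).2 h3
  rw [cz_cz] at h4
  have : y * (y⁻¹ * x) = x := by group
  rwa [this] at h4

/-- If all conjugates of `Γ` are commensurable with `A` then all conjugates of `A` are commensurable with all conjugates of `Γ` and with each other. PROOF. `(cz Γ z)` and `cz A x`: `cz_relIndex` (conjugation by `x⁻¹`) reduces to `cz Γ (x⁻¹ z)` and `A`.
`cz A x` and `cz A y`: both are commensurable with `cz Γ 1`: `Subgroup.Commensurable.trans` (`Subgroup.Commensurable H K` is `H.relIndex K ≠ 0 ∧ K.relIndex H ≠ 0`). -/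
theorem cz_comm {Γ A : Subgroup G} (h1 : ∀ z, (cz Γ z).relIndex A ≠ 0) (h2 : ∀ z, A.relIndex (cz Γ z) ≠ 0) (x y : G) :
    (Subgroup.Commensurable (cz Γ x) (cz A y)) ∧ Subgroup.Commensurable (cz A x) (cz A y) :=
  ⟨fa2_one h1 h2 x y, (fa2_one h1 h2 1 x).symm.trans (fa2_one h1 h2 1 y)⟩

/-- Intersections with a fixed subgroup. PROOF. `Subgroup.relIndex_inf_le` or: `(A ⊓ B).relIndex`: `Subgroup.relIndex_ne_zero` of the smaller group: `(C ⊓ A).relIndex (C ⊓ B) = A.relIndex (C ⊓ B)` (`Subgroup.inf_relIndex_..`, as `C ⊓ B ≤ C`) and `A.relIndex (C ⊓ B) ≠ 0`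
by `Subgroup.relIndex_eq_zero_of_le_right` (contrapositive). -/
theorem inf_comm (C : Subgroup G) {A B : Subgroup G} (h : Subgroup.Commensurable A B) : Subgroup.Commensurable (C ⊓ A) (C ⊓ B) := by
  have key : ∀ {X Y : Subgroup G}, X.relIndex Y ≠ 0 → (C ⊓ X).relIndex (C ⊓ Y) ≠ 0 := by
    intro X Y hX
    refine Subgroup.relIndex_inf_ne_zero ?_ ?_
    · rw [Subgroup.relIndex_eq_one.2 inf_le_left]
      exact one_ne_zero
    · exact fun h0 => hX (Subgroup.relIndex_eq_zero_of_le_right inf_le_right h0)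
  exact ⟨key h.1, key h.2⟩

end

end

end Pool.Agent.Lib.H29F
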