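import Pool.Agent.Lib.H29F.FA1
import Pool.Agent.Lib.H29F.FA2

/-!
# FA3 (S/M): invariance of the generalised index under conjugation by a divisible family
-/

namespace Pool.Agent.Lib.H29F

open NumberField IsDedekindDomain

noncomputable section

set_option linter.unusedSectionVars false

section

variable {G : Type} [Group G]

/-- **Unimodularity.** PROOF. Put `c(r) = gi L (cz L (x r))`. `c(r + s) = c(r) c(s)`: `x (r + s) = x r * x s`, `cz L (x r * x s) = cz (cz L (x s)) (x r)` (`cz_cz`), `gi_trans` with the middle group `cz L (x r)`: `gi (cz L (x r)) (cz (cz L (x s)) (x r)) = gi L (cz L (x s))` (`gi_cz`), the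
commensurability of `cz L (x r)` and `cz (cz L (x s)) (x r)` from `cz_relIndex`. `x 0 = 1` (from `hx 0 0`), so `c(0) = 1` (`cz_one`, `gi_self`) and `c(m r) = c(r) ^ m` for `m : ℕ` by induction. With `m` from `h3`: `c(r) ^ m = c(m r) = gi L L = 1`, `c(r) > 0` (`gi_pos`), `m > 0`: `c(r) = 1`
(`pow_eq_one_iff_of_nonneg` or `pow_left_injective..`). -/
theorem gi_uni {V : Type} [AddCommGroup V] (x : V → G) (hx : ∀ r s, x (r + s) = x r * x s) (L : Subgroup G) (h1 : ∀ r, L.relIndex (cz L (x r)) ≠ 0) (h2 : ∀ r, (cz L (x r)).relIndex L ≠ 0)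
    (h3 : ∀ r, ∃ m : ℕ, 0 < m ∧ cz L (x (m • r)) = L) (r : V) : gi L (cz L (x r)) = 1 := by
  have hx0 : x 0 = 1 := by
    have h := hx 0 0
    rw [add_zero] at h
    exact left_eq_mul.1 h
  have hadd : ∀ r s, gi L (cz L (x (r + s))) = gi L (cz L (x r)) * gi L (cz L (x s)) := by
    intro r s
    have e1 : cz L (x (r + s)) = cz (cz L (x s)) (x r) := by
      rw [hx, cz_cz]
    have e2 : gi (cz L (x r)) (cz (cz L (x s)) (x r)) = gi L (cz L (x s)) := gi_cz _ _ _
    rw [e1, ← e2]
    refine (gi_trans (h1 r) (h2 r) ?_ ?_).symm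
    · rw [cz_relIndex]
      exact h1 s
    · rw [cz_relIndex]
      exact h2 s
  have hmul : ∀ m : ℕ, gi L (cz L (x (m • r))) = gi L (cz L (x r)) ^ m := by
    intro m
    induction m with
    | zero => rw [zero_smul, hx0, cz_one, gi_self, pow_zero]
    | succ m ih => rw [succ_nsmul, hadd, ih, pow_succ]
  obtain ⟨m, hm, hm2⟩ := h3 r
  have hp : 0 < gi L (cz L (x r)) := gi_pos (h1 r) (h2 r)
  have h4 := hmul m
  rw [hm2, gi_self] at h4
  exact (pow_eq_one_iff_of_nonneg hp.le hm.ne').1 h4.symm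

end

end

end Pool.Agent.Lib.H29F
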