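import Pool.Agent.Lib.H29F.FA1

/-!
# FA4 (M): the generalised index in an extension
-/

namespace Pool.Agent.Lib.H29F

open NumberField IsDedekindDomain

noncomputable section

set_option linter.unusedSectionVars false

section

variable {G : Type} [Group G]

/-- `[A N : A] = [N : A ∩ N]` for a normal subgroup `N`. -/
theorem fa4_sup {H : Type} [Group H] (A N : Subgroup H) [N.Normal] : A.relIndex (A ⊔ N) = A.relIndex N := by
  symm
  refine Nat.card_congr (Equiv.ofBijective
    (Subgroup.quotientSubgroupOfEmbeddingOfLE A (le_sup_right : N ≤ A ⊔ N)) ⟨Function.Embedding.injective _, ?_⟩)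
  intro y
  induction y using QuotientGroup.induction_on with
  | H z =>
    obtain ⟨z, hz⟩ := z
    have hz' : z ∈ ((N ⊔ A : Subgroup H) : Set H) := by rw [sup_comm]; exact hz
    rw [Subgroup.normal_mul] at hz'
    obtain ⟨n, hn, a, ha, rfl⟩ := hz'
    refine ⟨((⟨n, hn⟩ : N) : N ⧸ A.subgroupOf N), ?_⟩
    rw [Subgroup.quotientSubgroupOfEmbeddingOfLE_apply_mk, QuotientGroup.eq, Subgroup.mem_subgroupOf]
    show n⁻¹ * (n * a) ∈ A
    rw [inv_mul_cancel_left]
    exact ha

/-- The case of the whole group. -/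
theorem fa4_top {H Q : Type} [Group H] [Group Q] (ψ : H →* Q) (A : Subgroup H) :
    A.index = (A.map ψ).relIndex ψ.range * A.relIndex ψ.ker := by
  have h1 : A.relIndex (A ⊔ ψ.ker) * (A ⊔ ψ.ker).index = A.index := Subgroup.relIndex_mul_index le_sup_left
  have h2 : (A ⊔ ψ.ker).index = (A.map ψ).relIndex ψ.range := by
    rw [← Subgroup.comap_map_eq, Subgroup.index_comap]
  rw [← h1, h2, fa4_sup, mul_comm]

/-- The case `A ≤ B`: `[B : A] = [φ B : φ A] [B ∩ ker : A ∩ ker]`. PROOF. `A ≤ A ⊔ (B ⊓ ker φ) ≤ B` (`Subgroup.relIndex_mul_relIndex`). `(A ⊔ (B ⊓ φ.ker)).relIndex B = (A.map φ).relIndex (B.map φ)`: restrict `φ` to `B` (`φ.comp B.subtype`, or `Subgroup.relIndex` and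
`Subgroup.index_map`, `Subgroup.index_comap_of_surjective` for `φ.subgroupMap B : B → B.map φ`, which is surjective; the preimage of `(A.map φ).subgroupOf (B.map φ)` is `(A ⊔ (B ⊓ ker)).subgroupOf B`).
`A.relIndex (A ⊔ (B ⊓ ker)) = (A ⊓ ker).relIndex (B ⊓ ker)`: `Subgroup.relIndex_sup_left` or `Subgroup.relIndex_sup_right` (`A.relIndex (A ⊔ K) = A.relIndex K` if `K` is normalised by `A`; here `K = B ⊓ ker` is normal in `B ⊇ A`; work in the group `B` if a normality instance is needed) and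
`A.relIndex (B ⊓ ker) = (A ⊓ ker).relIndex (B ⊓ ker)`. ANOTHER WAY: count cosets: the map `B / A → φ B / φ A` has all fibres of the size `[B ∩ ker : A ∩ ker]`. -/
theorem fib_le {Q : Type} [Group Q] (φ : G →* Q) {A B : Subgroup G} (h : A ≤ B) : A.relIndex B = (A.map φ).relIndex (B.map φ) * (A ⊓ φ.ker).relIndex (B ⊓ φ.ker) := by
  have h0 : A.relIndex B = (A.subgroupOf B).index := rfl
  have h1 := fa4_top (φ.comp B.subtype) (A.subgroupOf B)
  have h2 : (A.subgroupOf B).map (φ.comp B.subtype) = A.map φ := by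
    rw [← Subgroup.map_map, Subgroup.subgroupOf_map_subtype, inf_of_le_left h]
  have h3 : (φ.comp B.subtype).range = B.map φ := by
    rw [MonoidHom.range_comp, Subgroup.range_subtype]
  have h4 : (φ.comp B.subtype).ker = (B ⊓ φ.ker).subgroupOf B := by
    ext x
    rw [MonoidHom.mem_ker, Subgroup.mem_subgroupOf, Subgroup.mem_inf, MonoidHom.mem_ker]
    exact ⟨fun hx => ⟨x.2, hx⟩, fun hx => hx.2⟩
  have h5 : A ⊓ (B ⊓ φ.ker) = A ⊓ φ.ker := by
    rw [← inf_assoc, inf_of_le_left h]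
  rw [h0, h1, h2, h3, h4, Subgroup.relIndex_subgroupOf inf_le_left, ← Subgroup.inf_relIndex_right A (B ⊓ φ.ker), h5]

/-- **The fibration of the generalised index.** PROOF. `C = A ⊓ B` has finite index in `A` and in `B`. `gi A B = [A : C] / [B : C]` (`gi_of_le`), both by `fib_le`: `[φ A : φ C] [A ∩ ker : C ∩ ker] / ([φ B : φ C] [B ∩ ker : C ∩ ker])` and again `gi_of_le` for `φ A`, `φ B`, `φ C` and for the kernels
(all indices are nonzero as factors). The additive index of the groups `(A.map φ).toAddSubgroup` is the multiplicative one (`rfl`-like: `Subgroup.relIndex_toAddSubgroup`, or unfold both: `AddSubgroup.relIndex` of `toAddSubgroup`; a lemma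
`agi (S.toAddSubgroup) (T.toAddSubgroup) = gi S T` for subgroups of `Multiplicative V` may be proved first). -/
theorem gi_fib {V : Type} [AddCommGroup V] (φ : G →* Multiplicative V) {A B : Subgroup G} (h1 : A.relIndex B ≠ 0) (h2 : B.relIndex A ≠ 0) :
    gi A B = agi (A.map φ).toAddSubgroup' (B.map φ).toAddSubgroup' * gi (A ⊓ φ.ker) (B ⊓ φ.ker) := by
  have hCA : (A ⊓ B).relIndex A ≠ 0 := by rw [Subgroup.inf_relIndex_left]; exact h2
  have hCB : (A ⊓ B).relIndex B ≠ 0 := by rw [Subgroup.inf_relIndex_right]; exact h1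
  have eA := fib_le φ (inf_le_left : A ⊓ B ≤ A)
  have eB := fib_le φ (inf_le_right : A ⊓ B ≤ B)
  have nA : ((A ⊓ B).map φ).relIndex (A.map φ) * ((A ⊓ B) ⊓ φ.ker).relIndex (A ⊓ φ.ker) ≠ 0 := by rw [← eA]; exact hCA
  have nB : ((A ⊓ B).map φ).relIndex (B.map φ) * ((A ⊓ B) ⊓ φ.ker).relIndex (B ⊓ φ.ker) ≠ 0 := by rw [← eB]; exact hCB
  have e1 : agi (A.map φ).toAddSubgroup' (B.map φ).toAddSubgroup' = gi (A.map φ) (B.map φ) := rfl
  rw [e1, gi_of_le inf_le_left inf_le_right hCA hCB,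
    gi_of_le (Subgroup.map_mono (inf_le_left : A ⊓ B ≤ A)) (Subgroup.map_mono (inf_le_right : A ⊓ B ≤ B))
      (left_ne_zero_of_mul nA) (left_ne_zero_of_mul nB),
    gi_of_le (inf_le_inf_right φ.ker (inf_le_left : A ⊓ B ≤ A)) (inf_le_inf_right φ.ker (inf_le_right : A ⊓ B ≤ B))
      (right_ne_zero_of_mul nA) (right_ne_zero_of_mul nB), eA, eB]
  push_cast
  rw [mul_div_mul_comm]

end

end

end Pool.Agent.Lib.H29F
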