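import Pool.Agent.Lib.H29F.FC1
import Pool.Agent.Lib.H29F.FA1
import Pool.Agent.Lib.H29F.FA2
import Pool.Agent.Lib.H29F.FA4

/-!
# FA5 (M): images, kernels and indices
-/

namespace Pool.Agent.Lib.H29F

open NumberField IsDedekindDomain

noncomputable section

set_option linter.unusedSectionVars false

variable {G J K : Type} [Group G] [Fintype J] [DecidableEq J] [Field K] [NumberField K] {D : GDat G J K}

/-- PROOF. `c_i (U_w ∩ G(𝓞)) = 𝓞`: `c_O` and `x_i(r)`, `r ∈ 𝓞` (`x_mem`, `x_O`, `c_x`); `GDat.mem_im`; an element of `OK K` is `algebraMap (𝓞 K) K r`. -/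
theorem im_O {i : J} {l : List J} (hl : D.Rd (i :: l)) : D.im hl D.GO = OK K := by
  ext r
  rw [D.mem_im]
  constructor
  · rintro ⟨u, hu, hB, rfl⟩
    obtain ⟨s, hs⟩ := D.c_O i l hl u hu hB
    exact ⟨s, hs.symm⟩
  · rintro ⟨s, rfl⟩
    exact ⟨D.x i (algebraMap (𝓞 K) K s), D.x_mem i l hl _, D.x_O i s, D.c_x i _⟩

theorem fa5_sub (U A B : Subgroup G) (h : (U ⊓ A).relIndex (U ⊓ B) ≠ 0) : (A.subgroupOf U).relIndex (B.subgroupOf U) ≠ 0 := by
  rw [← Subgroup.relIndex_map_map_of_injective (f := U.subtype) _ _ U.subtype_injective, Subgroup.subgroupOf_map_subtype,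
    Subgroup.subgroupOf_map_subtype, _root_.inf_comm A U, _root_.inf_comm B U]
  exact h

theorem fa5_im {i : J} {l : List J} (hl : D.Rd (i :: l)) {A B : Subgroup G} (h : A.relIndex B ≠ 0) :
    (D.im hl A).relIndex (D.im hl B) ≠ 0 := by
  have h1 : (D.UW (i :: l) ⊓ A).relIndex (D.UW (i :: l) ⊓ B) ≠ 0 := by
    refine Subgroup.relIndex_inf_ne_zero ?_ ?_
    · rw [Subgroup.relIndex_eq_one.2 inf_le_left]
      exact one_ne_zero
    · exact fun h2 => h (Subgroup.relIndex_eq_zero_of_le_right inf_le_right h2)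
  have h2 := fa5_sub _ _ _ h1
  have h3 : ((A.subgroupOf (D.UW (i :: l))).map (D.ch hl)).relIndex ((B.subgroupOf (D.UW (i :: l))).map (D.ch hl)) ≠ 0 := by
    rw [← Subgroup.relIndex_comap]
    exact fun h4 => h2 (Subgroup.relIndex_eq_zero_of_le_left (Subgroup.le_comap_map _ _) h4)
  exact h3

/-- PROOF. `cz_comm` (for `Γ`, `GO`), `inf_comm` for `C = U_w` and images: for a homomorphism `φ` and commensurable `A`, `B` the images are commensurable (`(A.map φ).relIndex (B.map φ)` divides `A.relIndex B`: `Subgroup.relIndex_dvd..`, or from `fib_le` for `A ⊓ B ≤ B`: `[B : A ∩ B] = [φ B : φ (A ∩ B)] ..` is nonzero and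
`φ (A ∩ B) ≤ φ A`). The groups `B.subgroupOf U_w` of `U_w` have the same indices as `U_w ⊓ B` (`Subgroup.relIndex_subgroupOf` or `Subgroup.relIndex_comap`). With `im_O`. -/
theorem im_comm {a : J → J → ℤ} {𝔫 : Ideal (𝓞 K)} (H : HDat D a 𝔫) {i : J} {l : List J} (hl : D.Rd (i :: l)) (z : G) :
    (D.im hl (cz H.Γ z)).relIndex (OK K) ≠ 0 ∧ (OK K).relIndex (D.im hl (cz H.Γ z)) ≠ 0 := by
  rw [← im_O hl]
  exact ⟨fa5_im hl (H.comm1 z), fa5_im hl (H.comm2 z)⟩

/-- **The fibration.** PROOF. `gi_fib` for the homomorphism `D.ch hl` on the group `U_w = D.UW (i :: l)` and the subgroups `A.subgroupOf U_w`, `B.subgroupOf U_w`: their generalised index is that of `U_w ⊓ A`, `U_w ⊓ B` (`gi_map` for the injective `U_w.subtype`, `Subgroup.subgroupOf_map_subtype`),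
the images are `D.im hl A`, `D.im hl B` by definition, the kernels are mapped to `D.kr hl A`, `D.kr hl B` by `U_w.subtype` (by definition; `gi_map`). -/
theorem gi_im {i : J} {l : List J} (hl : D.Rd (i :: l)) {A B : Subgroup G} (h : Subgroup.Commensurable (D.UW (i :: l) ⊓ A) (D.UW (i :: l) ⊓ B)) :
    gi (D.UW (i :: l) ⊓ A) (D.UW (i :: l) ⊓ B) = agi (D.im hl A) (D.im hl B) * gi (D.kr hl A) (D.kr hl B) := by
  have h1 := gi_fib (D.ch hl) (fa5_sub _ _ _ h.1) (fa5_sub _ _ _ h.2)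
  have h2 := gi_map (D.UW (i :: l)).subtype (D.UW (i :: l)).subtype_injective (A.subgroupOf (D.UW (i :: l))) (B.subgroupOf (D.UW (i :: l)))
  rw [Subgroup.subgroupOf_map_subtype, Subgroup.subgroupOf_map_subtype, _root_.inf_comm A, _root_.inf_comm B] at h2
  have h3 := gi_map (D.UW (i :: l)).subtype (D.UW (i :: l)).subtype_injective ((A.subgroupOf (D.UW (i :: l))) ⊓ (D.ch hl).ker)
    ((B.subgroupOf (D.UW (i :: l))) ⊓ (D.ch hl).ker)
  rw [h2, h1]
  unfold GDat.kr
  rw [h3]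
  rfl

end

end Pool.Agent.Lib.H29F
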