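import Pool.Agent.Lib.H29F.FA3
import Pool.Agent.Lib.H29F.FA5

/-!
# FA6 (M): the kernels; the index along the fibration
-/

namespace Pool.Agent.Lib.H29F

open NumberField IsDedekindDomain

noncomputable section

set_option linter.unusedSectionVars false

variable {G J K : Type} [Group G] [Fintype J] [DecidableEq J] [Field K] [NumberField K] {D : GDat G J K}

theorem fa6_conj {i : J} {l : List J} (hl : D.Rd (i :: l)) (r : K) {v : G} (hv : v ∈ D.UW (i :: l)) (hc : D.c i v = 0) :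
    D.x i r * v * (D.x i r)⁻¹ ∈ D.UW (i :: l) ∧ D.c i (D.x i r * v * (D.x i r)⁻¹) = 0 := by
  have hx := D.x_mem i l hl r
  have h1 : D.x i r * v ∈ D.UW (i :: l) := mul_mem hx hv
  refine ⟨mul_mem h1 (inv_mem hx), ?_⟩
  rw [D.c_mul i l hl _ h1 _ (inv_mem hx), D.c_mul i l hl _ hx _ hv, D.c_inv hl hx, hc, add_zero, add_neg_cancel]

theorem fa6_conj' {i : J} {l : List J} (hl : D.Rd (i :: l)) (r : K) {v : G} (hv : v ∈ D.UW (i :: l)) (hc : D.c i v = 0) :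
    (D.x i r)⁻¹ * v * D.x i r ∈ D.UW (i :: l) ∧ D.c i ((D.x i r)⁻¹ * v * D.x i r) = 0 := by
  have h := fa6_conj hl (-r) hv hc
  rw [D.x_neg, inv_inv] at h
  exact h

theorem fa6_cz_kr {i : J} {l : List J} (hl : D.Rd (i :: l)) (B : Subgroup G) (r : K) : cz (D.kr hl B) (D.x i r) = D.kr hl (cz B (D.x i r)) := by
  ext g
  rw [mem_cz, D.mem_kr, D.mem_kr, mem_cz]
  constructor
  · rintro ⟨h1, h2, h3⟩
    have h := fa6_conj hl r h1 h3
    have e : D.x i r * ((D.x i r)⁻¹ * g * D.x i r) * (D.x i r)⁻¹ = g := by group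
    rw [e] at h
    exact ⟨h.1, h2, h.2⟩
  · rintro ⟨h1, h2, h3⟩
    have h := fa6_conj' hl r h1 h3
    exact ⟨h.1, h2, h.2⟩

theorem fa6_kr_inf {i : J} {l : List J} (hl : D.Rd (i :: l)) (B : Subgroup G) : D.kr hl B = D.kr hl ⊤ ⊓ B := by
  ext g
  rw [Subgroup.mem_inf, D.mem_kr, D.mem_kr]
  constructor
  · rintro ⟨h1, h2, h3⟩
    exact ⟨⟨h1, Subgroup.mem_top _, h3⟩, h2⟩
  · rintro ⟨⟨h1, _, h3⟩, h2⟩
    exact ⟨h1, h2, h3⟩

theorem fa6_comm {i : J} {l : List J} (hl : D.Rd (i :: l)) {A B : Subgroup G} (h : Subgroup.Commensurable A B) : Subgroup.Commensurable (D.kr hl A) (D.kr hl B) := by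
  rw [fa6_kr_inf hl A, fa6_kr_inf hl B]
  exact inf_comm _ h

theorem fa6_int (r : K) : ∃ m : ℕ, 0 < m ∧ ∃ s : 𝓞 K, (s : K) = m • r := by
  have h1 : IsAlgebraic ℤ r := (IsFractionRing.isAlgebraic_iff ℤ ℚ K).mpr (Algebra.IsAlgebraic.isAlgebraic r)
  obtain ⟨y, hy, hi⟩ := h1.exists_integral_multiple
  refine ⟨y.natAbs, Int.natAbs_pos.mpr hy, ?_⟩
  have h2 : IsIntegral ℤ (y.natAbs • r) := by
    rcases Int.natAbs_eq y with h | h
    · have e : y.natAbs • r = y • r := by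
        conv_rhs => rw [h]
        rw [natCast_zsmul]
      rw [e]
      exact hi
    · have e : y.natAbs • r = -(y • r) := by
        conv_rhs => rw [h]
        rw [neg_smul, neg_neg, natCast_zsmul]
      rw [e]
      exact hi.neg
  exact ⟨⟨y.natAbs • r, h2⟩, rfl⟩

/-- PROOF. `u ∈ kr hl B`: `n_i x_i(r) u x_i(-r) n_i⁻¹ ∈ U_w` (`x_i(r) u x_i(-r)` is in `U_(w s_i)` and has `c_i = 0` (`c_mul`, `c_inv`, `x_neg`); `GDat.down`). Conversely `g ∈ U_w` and `g ∈ cz B (n_i x_i(r))`: `u = (n_i x_i(r))⁻¹ g (n_i x_i(r)) = x_i(-r) (n_i⁻¹ g n_i) x_i(r)` by `GDat.up`. So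
`cz (kr hl B) (n_i x_i(r)) = U_w ⊓ cz B (n_i x_i(r))`. -/
theorem kr_cz {i : J} {l : List J} (hl : D.Rd (i :: l)) (B : Subgroup G) (r : K) : cz (D.kr hl B) (D.n i * D.x i r) = D.UW l ⊓ cz B (D.n i * D.x i r) := by
  ext g
  rw [mem_cz, D.mem_kr, Subgroup.mem_inf, mem_cz]
  have e : (D.n i * D.x i r)⁻¹ * g * (D.n i * D.x i r) = (D.x i r)⁻¹ * ((D.n i)⁻¹ * g * D.n i) * D.x i r := by group
  constructor
  · rintro ⟨h1, h2, h3⟩
    refine ⟨?_, h2⟩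
    have h := fa6_conj hl r h1 h3
    have h4 := D.down i l hl _ h.1 h.2
    have e2 : D.n i * (D.x i r * ((D.n i * D.x i r)⁻¹ * g * (D.n i * D.x i r)) * (D.x i r)⁻¹) * (D.n i)⁻¹ = g := by group
    rw [e2] at h4
    exact h4
  · rintro ⟨h1, h2⟩
    have h := D.up i l hl g h1
    have h3 := fa6_conj' hl r h.1 h.2
    rw [← e] at h3
    exact ⟨h3.1, h2, h3.2⟩

/-- PROOF. `gi_uni` for `L = kr hl GO`, `x = x_i`: `cz L (x_i r)` and `L` are commensurable: `cz (kr hl GO) (x_i r) = kr hl (cz GO (x_i r))` (as in `kr_cz`: `x_i(r)` normalises `U_(w s_i) ∩ {c_i = 0}`), both are intersections of `GO`, `cz GO (x_i r)` with the group `kr hl ⊤` (`inf_comm`), which are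
commensurable by `cz_comm H.comm1 H.comm2`. (h3): for `r ∈ K` there is `m > 0` with `m r ∈ 𝓞` (`IsLocalization.exists_integer_multiple` / `exists_int_multiple`, e.g. `IsIntegral` clearing of denominators for `K / ℚ`: `IsFractionRing.div_surjective` and the norm of the denominator, or
`IsLocalization.exist_integer_multiples`), `x_i(m r) ∈ GO` (`x_O`) normalises `L`. -/
theorem kr_uni {a : J → J → ℤ} {𝔫 : Ideal (𝓞 K)} (H : HDat D a 𝔫) {i : J} {l : List J} (hl : D.Rd (i :: l)) (r : K) : gi (D.kr hl D.GO) (cz (D.kr hl D.GO) (D.x i r)) = 1 := by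
  have hc : ∀ s : K, Subgroup.Commensurable (D.kr hl D.GO) (cz (D.kr hl D.GO) (D.x i s)) := by
    intro s
    rw [fa6_cz_kr hl D.GO s]
    have h := (cz_comm H.comm1 H.comm2 1 (D.x i s)).2
    rw [cz_one] at h
    exact fa6_comm hl h
  refine gi_uni (D.x i) (D.x_add i) (D.kr hl D.GO) (fun s => (hc s).1) (fun s => (hc s).2) (fun s => ?_) r
  obtain ⟨m, hm, t, ht⟩ := fa6_int s
  refine ⟨m, hm, ?_⟩
  rw [fa6_cz_kr hl D.GO, cz_self]
  rw [← ht]
  exact D.x_O i t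

/-- **The index along the fibration.** PROOF. `gi_im` for `A = GO`, `B = cz Γ z`, `im_O`; and `gi (kr GO) (kr (cz Γ z)) = gi (cz (kr GO) (x_i r)) (kr (cz Γ z))⁻ ..`: write `y = x_i(r)`, `L = kr hl GO`, `M = kr hl (cz Γ z)`. `gi L M = gi (cz L y) (cz M y)` (`gi_cz`) `= gi (cz L y) L * gi L (cz M y)`
(`gi_trans`) `= gi L (cz M y)` (`kr_uni`, `gi_symm`), and `gi L (cz M y) = gi (cz L n_i) (cz (cz M y) n_i) = gi (U_w ⊓ GO) (U_w ⊓ cz Γ (n_i x_i(r) z))`: `cz L n_i = U_w ⊓ cz GO n_i = U_w ⊓ GO` (`kr_cz` with `r = 0`, `x_zero`, `cz_self (n_O i)`), `cz (cz M y) n_i = cz M (n_i y)` (`cz_cz`)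
`= U_w ⊓ cz (cz Γ z) (n_i y)` (`kr_cz`) `= U_w ⊓ cz Γ (n_i y z)`. Commensurability of all groups: `cz_comm`, `inf_comm`, `cz_relIndex`. -/
theorem gi_step {a : J → J → ℤ} {𝔫 : Ideal (𝓞 K)} (H : HDat D a 𝔫) {i : J} {l : List J} (hl : D.Rd (i :: l)) (z : G) (r : K) :
    gi (D.UW (i :: l) ⊓ D.GO) (D.UW (i :: l) ⊓ cz H.Γ z) = agi (OK K) (D.im hl (cz H.Γ z)) * gi (D.UW l ⊓ D.GO) (D.UW l ⊓ cz H.Γ (D.n i * D.x i r * z)) := by
  have hcG : Subgroup.Commensurable D.GO (cz H.Γ z) := ⟨H.comm2 z, H.comm1 z⟩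
  rw [gi_im hl (inf_comm _ hcG), im_O hl]
  congr 1
  have hLM : Subgroup.Commensurable (D.kr hl D.GO) (D.kr hl (cz H.Γ z)) := fa6_comm hl hcG
  have hL : Subgroup.Commensurable (D.kr hl D.GO) (cz (D.kr hl D.GO) (D.x i r)) := by
    rw [fa6_cz_kr hl D.GO r]
    have h := (cz_comm H.comm1 H.comm2 1 (D.x i r)).2
    rw [cz_one] at h
    exact fa6_comm hl h
  have h1 : gi (D.kr hl D.GO) (D.kr hl (cz H.Γ z)) = gi (D.kr hl D.GO) (cz (D.kr hl (cz H.Γ z)) (D.x i r)) := by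
    have h2 := gi_trans hL.1 hL.2 (C := cz (D.kr hl (cz H.Γ z)) (D.x i r))
      (by rw [cz_relIndex]; exact hLM.1) (by rw [cz_relIndex]; exact hLM.2)
    rw [kr_uni H hl r, one_mul, gi_cz] at h2
    exact h2
  rw [h1, ← gi_cz (D.kr hl D.GO) _ (D.n i), cz_cz, kr_cz hl, cz_cz]
  have h2 : cz (D.kr hl D.GO) (D.n i) = D.UW l ⊓ D.GO := by
    have h3 := kr_cz hl D.GO 0
    rw [D.x_zero, mul_one, cz_self (D.n_O i)] at h3
    exact h3
  rw [h2]

end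

end Pool.Agent.Lib.H29F
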