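import Mathlib

/-!
# (C4), the finite part of the flagship MP_08cfa9: definitions (abstract part, only Mathlib; helper29)

`D : GDat G J K`: a group `G` (`= G(K)`), root homomorphisms `x_i : K → G`, Weyl elements `n_i ∈ G(𝓞)`, the subgroups `U_w` for reduced words, the coordinates `c_i`. Words are lists, read from the right: the list `i :: l` is the
word `w s_i`, `w` the word of `l`; `nw l` is the product `n_w`.
-/

namespace Pool.Agent.Lib.H29F

open NumberField IsDedekindDomain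

noncomputable section

set_option linter.unusedSectionVars false

/-- `z Γ z⁻¹`. -/
def cz {G : Type} [Group G] (Γ : Subgroup G) (z : G) : Subgroup G := Γ.comap (MulAut.conj z⁻¹).toMonoidHom

theorem mem_cz {G : Type} [Group G] {Γ : Subgroup G} {z g : G} : g ∈ cz Γ z ↔ z⁻¹ * g * z ∈ Γ := by
  unfold cz
  rw [Subgroup.mem_comap]
  show z⁻¹ * g * z⁻¹⁻¹ ∈ Γ ↔ _
  rw [inv_inv]

/-- The generalised index `[A : B] = [A : A ∩ B] / [B : A ∩ B]`. -/
def gi {G : Type} [Group G] (A B : Subgroup G) : ℝ := (B.relIndex A : ℝ) / (A.relIndex B : ℝ)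

/-- The generalised index of additive subgroups. -/
def agi {G : Type} [AddGroup G] (A B : AddSubgroup G) : ℝ := (B.relIndex A : ℝ) / (A.relIndex B : ℝ)

/-- The absolute value `|x|_v = N(v) ^ (- ord_v x)`. -/
abbrev av {K : Type} [Field K] [NumberField K] (v : HeightOneSpectrum (𝓞 K)) : AbsoluteValue K ℝ := NumberField.HeightOneSpectrum.adicAbv K v

/-- The ring of integers as a subgroup of `K`. -/
def OK (K : Type) [Field K] : AddSubgroup K := (algebraMap (𝓞 K) K).range.toAddSubgroup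

variable {G J K : Type} [Group G] [Fintype J] [DecidableEq J] [Field K] [NumberField K]

/-- `|𝔫|_v = N(v) ^ (- ord_v 𝔫)`. -/
def nv (𝔫 : Ideal (𝓞 K)) (v : HeightOneSpectrum (𝓞 K)) : ℝ := ((Ideal.absNorm v.asIdeal : ℝ)⁻¹) ^ ((Associates.mk v.asIdeal).count (Associates.mk 𝔫).factors)

/-- `max (a, |r + c|_v)`. -/
def mx (a : HeightOneSpectrum (𝓞 K) → ℝ) (c : HeightOneSpectrum (𝓞 K) → K) (r : K) (v : HeightOneSpectrum (𝓞 K)) : ℝ := max (a v) (av v (r + c v))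

variable (G J K) in
/-- The group data. -/
structure GDat where
  /-- The root homomorphisms. -/
  x : J → K → G
  /-- The Weyl elements. -/
  n : J → G
  /-- The subgroups `U_w`. -/
  UW : List J → Subgroup G
  /-- The coordinates. -/
  c : J → G → K
  /-- Reduced words. -/
  Rd : List J → Prop
  rd_tail : ∀ i l, Rd (i :: l) → Rd l
  uw_nil : UW [] = ⊥
  x_add : ∀ i r s, x i (r + s) = x i r * x i s
  c_mul : ∀ i l, Rd (i :: l) → ∀ g ∈ UW (i :: l), ∀ h ∈ UW (i :: l), c i (g * h) = c i g + c i h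
  x_mem : ∀ i l, Rd (i :: l) → ∀ r, x i r ∈ UW (i :: l)
  c_x : ∀ i r, c i (x i r) = r
  down : ∀ i l, Rd (i :: l) → ∀ g ∈ UW (i :: l), c i g = 0 → n i * g * (n i)⁻¹ ∈ UW l
  up : ∀ i l, Rd (i :: l) → ∀ g ∈ UW l, (n i)⁻¹ * g * n i ∈ UW (i :: l) ∧ c i ((n i)⁻¹ * g * n i) = 0
  /-- The integral elements. -/
  GO : Subgroup G
  n_O : ∀ i, n i ∈ GO
  x_O : ∀ i (r : 𝓞 K), x i (r : K) ∈ GO
  c_O : ∀ i l, Rd (i :: l) → ∀ g ∈ UW (i :: l), g ∈ GO → ∃ r : 𝓞 K, c i g = r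

namespace GDat

variable (D : GDat G J K)

/-- `n_w`. -/
def nw : List J → G
  | [] => 1
  | i :: l => nw l * D.n i

@[simp] theorem nw_nil : D.nw [] = 1 := rfl

@[simp] theorem nw_cons (i : J) (l : List J) : D.nw (i :: l) = D.nw l * D.n i := rfl

end GDat

/-- The heights `A_k(v, g) = |α_k(t)|_v` (`g = u t k`), the level predicates `χ_j(g)` and the group `Γ = Γ(𝔫)`; `a k i = ⟨α_k, α_i^∨⟩`. -/
structure HDat (D : GDat G J K) (a : J → J → ℤ) (𝔫 : Ideal (𝓞 K)) where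
  /-- The group `Γ(𝔫)`. -/
  Γ : Subgroup G
  comm1 : ∀ z : G, (cz Γ z).relIndex D.GO ≠ 0
  comm2 : ∀ z : G, D.GO.relIndex (cz Γ z) ≠ 0
  /-- The heights. -/
  A : J → G → HeightOneSpectrum (𝓞 K) → ℝ
  val : ∀ k g v, ∃ y : K, y ≠ 0 ∧ A k g v = av v y
  fin : ∀ k g, {v | A k g v ≠ 1}.Finite
  right : ∀ k g v, ∀ γ ∈ Γ, A k (g * γ) v = A k g v
  left : ∀ k l u, u ∈ D.UW l → ∀ g v, A k (u * g) v = A k g v
  /-- The level predicates. -/
  χ : J → G → Prop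
  χ_right : ∀ j g, ∀ γ ∈ Γ, χ j (g * γ) ↔ χ j g
  χ_left : ∀ j l u, u ∈ D.UW l → ∀ g, χ j (u * g) ↔ χ j g
  χ_ne : ∀ i j, j ≠ i → ∀ r g, χ j (D.n i * D.x i r * g) ↔ χ j g
  loc : ∀ i z v, ∃ c : K, (∀ r k, A k (D.n i * D.x i r * z) v = A k z v * (max (A i z v) (av v (r + c))) ^ (-a k i)) ∧
    ∀ r r', χ i (D.n i * D.x i r * z) → χ i (D.n i * D.x i r' * z) →
      av v (r - r') ≤ nv 𝔫 v * max (A i z v) (av v (r + c)) * max (A i z v) (av v (r' + c)) / A i z v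

/-- The height function `f_e(g) = ∏_v ∏_k A_k(v, g) ^ e_k`. -/
def fe {D : GDat G J K} {a : J → J → ℤ} {𝔫 : Ideal (𝓞 K)} (H : HDat D a 𝔫) (e : J → ℝ) (g : G) : ℝ := ∏ k, (∏ᶠ v, H.A k g v) ^ e k

/-- `μ_i = ∑_k e_k a_ki - 1`. -/
def mu (a : J → J → ℤ) (i : J) (e : J → ℝ) : ℝ := ∑ k, e k * a k i - 1

/-- `s_i : e_i → e_i - μ_i`. -/
def sE (a : J → J → ℤ) (i : J) (e : J → ℝ) : J → ℝ := Function.update e i (e i - mu a i e)

/-- The exponents `w⁻¹ e`. -/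
def ew (a : J → J → ℤ) (e : J → ℝ) : List J → J → ℝ
  | [] => e
  | i :: l => sE a i (ew a e l)

/-- `μ ≥ 1 + ε` along the word. -/
def Adm (a : J → J → ℤ) (ε : ℝ) (e : J → ℝ) : List J → Prop
  | [] => True
  | i :: l => 1 + ε ≤ mu a i (ew a e l) ∧ Adm a ε e l

end

end Pool.Agent.Lib.H29F
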