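import Pool.Agent.Lib.H29F.FA10
import Pool.Agent.Lib.L8.FR.R2

/-!
# FB1: the induction on the word with the level of `z` (stage 2)

`B` is the set of the letters `j` with `χ_j(z)`. If `i ∈ S`, `i ∉ l` and no letter `i` has occurred before, then `χ_i(z')` and `χ_i(n_i x_i(r) z')` give `mx(r) ≥ A_i(z') / |𝔫|_v`, and the rank one lemma for `A_i(z') / |𝔫|_v` and the level `1` gives the factor
`N(𝔫) ^ (- μ)` instead of `N(𝔫) ^ (-1)`.
-/

namespace Pool.Agent.Lib.H29F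

open NumberField IsDedekindDomain Pool.Agent.Lib.H89N

noncomputable section

set_option linter.unusedSectionVars false

variable {G J K : Type} [Group G] [Fintype J] [DecidableEq J] [Field K] [NumberField K] {D : GDat G J K} {a : J → J → ℤ} {𝔫 : Ideal (𝓞 K)}

/-! ## 1. The numbers `|𝔫|_v` -/

theorem fb1_pi (v : HeightOneSpectrum (𝓞 K)) : ∃ π : K, π ≠ 0 ∧ av v π = (Ideal.absNorm v.asIdeal : ℝ)⁻¹ := by
  obtain ⟨π, hπ⟩ : ∃ π : K, v.valuation K π = WithZero.exp (-1 : ℤ) := v.valuation_exists_uniformizer K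
  have h0 : v.valuation K π ≠ 0 := by
    rw [hπ]
    exact WithZero.coe_ne_zero
  refine ⟨π, (Valuation.ne_zero_iff _).1 h0, ?_⟩
  have h1 : av v π = ((WithZeroMulInt.toNNReal (NumberField.HeightOneSpectrum.absNorm_ne_zero v) (v.valuation K π) : NNReal) : ℝ) := rfl
  have h2 : WithZero.unzero h0 = Multiplicative.ofAdd (-1 : ℤ) := by
    apply WithZero.coe_injective
    rw [WithZero.coe_unzero, hπ]
    rfl
  rw [h1, WithZeroMulInt.toNNReal_neg_apply _ h0, h2]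
  simp

theorem nv_pos (𝔫 : Ideal (𝓞 K)) (v : HeightOneSpectrum (𝓞 K)) : 0 < nv 𝔫 v := by
  rw [nv_eq]
  exact nw_pos v 𝔫

theorem nv_le_one (𝔫 : Ideal (𝓞 K)) (v : HeightOneSpectrum (𝓞 K)) : nv 𝔫 v ≤ 1 := by
  rw [nv_eq]
  exact nw_le_one v 𝔫

theorem nv_val (𝔫 : Ideal (𝓞 K)) (v : HeightOneSpectrum (𝓞 K)) : ∃ y : K, y ≠ 0 ∧ nv 𝔫 v = av v y := by
  obtain ⟨π, h0, h1⟩ := fb1_pi (K := K) v
  refine ⟨π ^ ((Associates.mk v.asIdeal).count (Associates.mk 𝔫).factors), pow_ne_zero _ h0, ?_⟩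
  rw [map_pow, h1]
  rfl

theorem nv_fin (h𝔫 : 𝔫 ≠ ⊥) : {v | nv 𝔫 v ≠ 1}.Finite := by
  refine (L8.FR.od_finite h𝔫).subset fun v hv => ?_
  intro h
  apply hv
  rw [nv_eq, L8.FR.nw_od, h]
  simp

theorem nv_prod (h𝔫 : 𝔫 ≠ ⊥) : ∏ᶠ v, nv 𝔫 v = (Ideal.absNorm 𝔫 : ℝ)⁻¹ := by
  have hs : (Function.mulSupport fun v => nv 𝔫 v) ⊆ ((L8.FR.od_finite h𝔫).toFinset : Set _) := by
    intro v hv
    rw [Set.Finite.coe_toFinset]
    intro h
    apply hv
    show nv 𝔫 v = 1
    rw [nv_eq, L8.FR.nw_od, h]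
    simp
  rw [finprod_eq_prod_of_mulSupport_subset _ hs, L8.FR.norm_od h𝔫 (L8.FR.od_finite h𝔫).toFinset (fun v hv => by
    rw [Set.Finite.mem_toFinset] at hv
    by_contra h
    exact hv h), ← Finset.prod_inv_distrib]
  refine Finset.prod_congr rfl fun v _ => ?_
  rw [nv_eq, L8.FR.nw_od, zpow_neg, zpow_natCast]

/-! ## 2. One letter, `χ_i(z)` known -/

/-- The third clause of the local data: `A_i(z) ≤ |𝔫|_v max (A_i(z), |r + c|_v)` if `χ_i(z)` and `χ_i(n_i x_i(r) z)`, in the form `A_i(z) A_i(n_i x_i(r) z) ≤ |𝔫|_v ^ 2`. -/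
def Loc3 (H : HDat D a 𝔫) : Prop := ∀ i z r v, H.χ i z → H.χ i (D.n i * D.x i r * z) → H.A i z v * H.A i (D.n i * D.x i r * z) v ≤ nv 𝔫 v ^ 2

/-- The third clause from the form with `c`. -/
theorem loc3_of {H : HDat D a 𝔫} (ha : ∀ i, a i i = 2) (h : ∀ i z v, ∃ c : K, (∀ r, H.A i (D.n i * D.x i r * z) v = H.A i z v * (max (H.A i z v) (av v (r + c))) ^ (-a i i)) ∧
    (H.χ i z → ∀ r, H.χ i (D.n i * D.x i r * z) → H.A i z v ≤ nv 𝔫 v * max (H.A i z v) (av v (r + c)))) : Loc3 H := by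
  intro i z r v h1 h2
  obtain ⟨c, hc, h3⟩ := h i z v
  have h4 := h3 h1 r h2
  have hA := A_pos H i z v
  have hm : 0 < max (H.A i z v) (av v (r + c)) := lt_of_lt_of_le hA (le_max_left _ _)
  have e : ∀ t : ℝ, t ^ (-2 : ℤ) = (t ^ 2)⁻¹ := by
    intro t
    rw [zpow_neg]
    rfl
  rw [hc r, ha, e, ← mul_assoc, ← div_eq_mul_inv, div_le_iff₀ (by positivity)]
  calc H.A i z v * H.A i z v ≤ (nv 𝔫 v * max (H.A i z v) (av v (r + c))) * (nv 𝔫 v * max (H.A i z v) (av v (r + c))) := mul_le_mul h4 h4 hA.le (hA.le.trans h4)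
    _ = _ := by ring

/-- **One letter**, `χ_i(z)` known. -/
theorem step_sum2 (H : HDat D a 𝔫) (h3 : Loc3 H) {ε Z : ℝ} (hRk : RankOne K ε Z) (h𝔫 : 𝔫 ≠ ⊥) {i : J} (ha : a i i = 2) {l : List J} (hl : D.Rd (i :: l)) {e : J → ℝ} (he : 1 + ε ≤ mu a i e) (z : G) {R : Finset K}
    (hR : ∀ r ∈ R, ∀ r' ∈ R, r ≠ r' → r - r' ∉ D.im hl (cz H.Γ z)) (hz : H.χ i z) (hm : ∀ r ∈ R, H.χ i (D.n i * D.x i r * z)) :
    ∑ r ∈ R, fe H e (D.n i * D.x i r * z) ≤ Z * fe H (sE a i e) z * agi (OK K) (D.im hl (cz H.Γ z)) / (Ideal.absNorm 𝔫 : ℝ) ^ (mu a i e) := by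
  choose c hc1 hc2 using H.loc i z
  have hc : ∀ v r k, H.A k (D.n i * D.x i r * z) v = H.A k z v * (mx (H.A i z) c r v) ^ (-a k i) := fun v r k => hc1 v r k
  have hap : ∀ v, 0 < H.A i z v := fun v => A_pos H i z v
  have hmp : ∀ r v, 0 < mx (H.A i z) c r v := fun r v => lt_of_lt_of_le (hap v) (le_max_left _ _)
  have h4 : ∀ t : ℝ, t ^ (-2 : ℤ) = (t ^ 2)⁻¹ := by
    intro t
    rw [zpow_neg]
    rfl
  have hper : ∀ r, ∀ s ∈ D.im hl (cz H.Γ z), ∀ v, mx (H.A i z) c (r + s) v = mx (H.A i z) c r v := by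
    intro r s hs v
    have h1 := per_A H hl hs r i v
    rw [hc v, hc v, ha] at h1
    have h2 := mul_left_cancel₀ (hap v).ne' h1
    have h3 : mx (H.A i z) c (r + s) v ^ 2 = mx (H.A i z) c r v ^ 2 := by
      rw [h4, h4] at h2
      exact inv_injective h2
    exact (pow_left_inj₀ (hmp _ v).le (hmp _ v).le two_ne_zero).1 h3
  -- the new numbers
  obtain ⟨a', ha'⟩ : ∃ a' : HeightOneSpectrum (𝓞 K) → ℝ, a' = fun v => H.A i z v / nv 𝔫 v := ⟨_, rfl⟩
  have ha'v : ∀ v, a' v = H.A i z v / nv 𝔫 v := fun v => by rw [ha']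
  have hap' : ∀ v, 0 < a' v := fun v => by
    rw [ha'v]
    exact div_pos (hap v) (nv_pos 𝔫 v)
  have hle : ∀ r, H.χ i (D.n i * D.x i r * z) → ∀ v, a' v ≤ mx (H.A i z) c r v := by
    intro r hr v
    have h1 := h3 i z r v hz hr
    rw [hc v, ha, h4, ← mul_assoc, ← div_eq_mul_inv, div_le_iff₀ (pow_pos (hmp r v) 2), ← pow_two, ← mul_pow] at h1
    have h2 := (pow_le_pow_iff_left₀ (hap v).le (mul_nonneg (nv_pos 𝔫 v).le (hmp r v).le) two_ne_zero).1 h1
    rw [ha'v, div_le_iff₀ (nv_pos 𝔫 v), mul_comm]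
    exact h2
  have hle' : ∀ v, H.A i z v ≤ a' v := fun v => by
    rw [ha'v, le_div_iff₀ (nv_pos 𝔫 v)]
    exact mul_le_of_le_one_right (hap v).le (nv_le_one 𝔫 v)
  have hmx : ∀ r, H.χ i (D.n i * D.x i r * z) → ∀ v, mx a' c r v = mx (H.A i z) c r v := by
    intro r hr v
    refine le_antisymm (max_le (hle r hr v) (le_max_right _ _)) ?_
    exact max_le_max (hle' v) le_rfl
  have hT2 : ∀ r ∈ R, ∀ r' ∈ R, ∀ v, av v (r - r') ≤ nv (⊤ : Ideal (𝓞 K)) v * mx a' c r v * mx a' c r' v / a' v := by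
    intro r _ r' _ v
    rw [fa8_nv, one_mul]
    exact fa8_T2 _ c v (hap' v) r r'
  have hT3 : ∀ r ∈ R, ∀ s ∈ D.im hl (cz H.Γ z), ∀ v, av v s ≤ mx a' c r v ∧ av v s ≤ nv (⊤ : Ideal (𝓞 K)) v * mx a' c r v ^ 2 / a' v := by
    intro r hr s hs v
    have e1 : s = (r + s + c v) - (r + c v) := by ring
    have e2 : s = (r + s) - r := by ring
    have e3 : mx a' c (r + s) v = mx a' c r v := by
      rw [hmx r (hm r hr) v, hmx (r + s) ((per_χ H hl hs r i).2 (hm r hr)) v, hper r s hs v]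
    constructor
    · have h1 := fa8_sub v (r + s + c v) (r + c v)
      rw [← e1] at h1
      have h2 := max_le_max (le_max_right (a' v) (av v (r + s + c v))) (le_max_right (a' v) (av v (r + c v)))
      have h3 : max (mx a' c (r + s) v) (mx a' c r v) = mx a' c r v := by
        rw [e3, max_self]
      exact h1.trans (h2.trans h3.le)
    · rw [fa8_nv, one_mul]
      have h1 := fa8_T2 a' c v (hap' v) (r + s) r
      rw [← e2, e3] at h1
      rw [pow_two]
      exact h1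
  have hval : ∀ v, ∃ y : K, y ≠ 0 ∧ a' v = av v y := by
    intro v
    obtain ⟨y, hy, e⟩ := H.val i z v
    obtain ⟨y', hy', e'⟩ := nv_val 𝔫 v
    refine ⟨y / y', div_ne_zero hy hy', ?_⟩
    rw [ha'v, e, e', map_div₀]
  have hfa := H.fin i z
  have hfn := nv_fin h𝔫
  have hfin : {v | a' v ≠ 1}.Finite := by
    refine (hfa.union hfn).subset fun v hv => ?_
    by_contra hcon
    rw [Set.mem_union, not_or] at hcon
    have h1 : H.A i z v = 1 := by
      by_contra h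
      exact hcon.1 h
    have h2 : nv 𝔫 v = 1 := by
      by_contra h
      exact hcon.2 h
    apply hv
    rw [ha'v, h1, h2, div_one]
  have hcm := im_comm H hl z
  have hmain := hRk ⊤ top_ne_bot a' c (D.im hl (cz H.Γ z)) R (mu a i e) he hval hfin
    (fun r hr => by
      have h1 : (fun v => mx a' c r v) = fun v => mx (H.A i z) c r v := funext fun v => hmx r (hm r hr) v
      have h2 : {v | mx a' c r v ≠ 1} = {v | mx (H.A i z) c r v ≠ 1} := by
        ext v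
        show mx a' c r v ≠ 1 ↔ mx (H.A i z) c r v ≠ 1
        rw [hmx r (hm r hr) v]
      rw [h2]
      exact mx_fin H ha hc r) hcm.1 hcm.2 hR hT2 hT3
  have h1 : ∀ r ∈ R, fe H e (D.n i * D.x i r * z) = fe H e z * (∏ᶠ v, mx a' c r v) ^ (-(1 + mu a i e)) := by
    intro r hr
    have h2 : (fun v => mx a' c r v) = fun v => mx (H.A i z) c r v := funext fun v => hmx r (hm r hr) v
    rw [h2]
    exact fe_step H ha hc e r
  -- the product of the new numbers
  have hN : (0 : ℝ) < (Ideal.absNorm 𝔫 : ℝ) := by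
    rw [Nat.cast_pos]
    exact Nat.pos_of_ne_zero fun h => h𝔫 (Ideal.absNorm_eq_zero_iff.1 h)
  have hprod : ∏ᶠ v, a' v = (∏ᶠ v, H.A i z v) * (Ideal.absNorm 𝔫 : ℝ) := by
    have h2 : (fun v => a' v) = fun v => H.A i z v * (nv 𝔫 v)⁻¹ := funext fun v => by rw [ha'v, div_eq_mul_inv]
    have h5 : (Function.mulSupport fun v => (nv 𝔫 v)⁻¹).Finite := by
      refine hfn.subset fun v hv h => hv ?_
      show (nv 𝔫 v)⁻¹ = 1
      rw [h, inv_one]
    have h6 : ∏ᶠ v, a' v = ∏ᶠ v, H.A i z v * (nv 𝔫 v)⁻¹ := by rw [h2]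
    rw [h6, finprod_mul_distrib hfa h5]
    congr 1
    rw [finprod_inv_distrib, nv_prod h𝔫, inv_inv]
  have hP : 0 < ∏ᶠ v, H.A i z v := fa7_fp hap
  rw [Finset.sum_congr rfl h1, ← Finset.mul_sum, fe_sE]
  refine (mul_le_mul_of_nonneg_left hmain (fe_pos H e z).le).trans (le_of_eq ?_)
  rw [hprod, Real.mul_rpow hP.le hN.le, Ideal.absNorm_top, Real.rpow_neg hN.le]
  have hNm : (0 : ℝ) < (Ideal.absNorm 𝔫 : ℝ) ^ mu a i e := Real.rpow_pos_of_pos hN _
  rw [Nat.cast_one, div_one]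
  field_simp

/-! ## 3. The induction -/

/-- The exponent of `N(𝔫)`. -/
def gain (a : J → J → ℤ) (e : J → ℝ) (S : Finset J) : Finset J → List J → ℝ
  | _, [] => 0
  | B, i :: l => gain a e S (B.erase i) l + if i ∈ S ∧ i ∉ l then (if i ∈ B then mu a i (ew a e l) else 1) else 0

theorem gain_nil (a : J → J → ℤ) (e : J → ℝ) (S B : Finset J) : gain a e S B [] = 0 := rfl

theorem gain_cons (a : J → J → ℤ) (e : J → ℝ) (S B : Finset J) (i : J) (l : List J) : gain a e S B (i :: l) =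
    gain a e S (B.erase i) l + (if i ∈ S ∧ i ∉ l then (if i ∈ B then mu a i (ew a e l) else 1) else 0) := rfl

/-- Without the information on `z` the exponent is `#(S ∩ l)`. -/
theorem gain_empty (a : J → J → ℤ) (e : J → ℝ) (S : Finset J) (l : List J) : gain a e S ∅ l = ((S ∩ l.toFinset).card : ℝ) := by
  induction l with
  | nil => simp [gain_nil]
  | cons i l ih =>
    rw [gain_cons, Finset.erase_empty, ih]
    by_cases hc : i ∈ S ∧ i ∉ l
    · have hcard : (S ∩ (i :: l).toFinset).card = (S ∩ l.toFinset).card + 1 := by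
        rw [List.toFinset_cons, Finset.inter_insert_of_mem hc.1, Finset.card_insert_of_notMem]
        intro h
        exact hc.2 (List.mem_toFinset.1 (Finset.mem_inter.1 h).2)
      rw [if_pos hc, if_neg (Finset.notMem_empty i), hcard]
      push_cast
      ring
    · have hcard : S ∩ (i :: l).toFinset = S ∩ l.toFinset := by
        ext j
        rw [Finset.mem_inter, Finset.mem_inter, List.mem_toFinset, List.mem_toFinset, List.mem_cons]
        constructor
        · rintro ⟨h5, h6⟩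
          refine ⟨h5, ?_⟩
          rcases h6 with rfl | h6
          · by_contra h7
            exact hc ⟨h5, h7⟩
          · exact h6
        · rintro ⟨h5, h6⟩
          exact ⟨h5, Or.inr h6⟩
      rw [if_neg hc, hcard, add_zero]

/-- **The finite part, abstract form, with the level of `z`.** -/
theorem c4_main2 {ε Z : ℝ} (hZ : 1 ≤ Z) (hRk : RankOne K ε Z) (ha : ∀ i, a i i = 2) (h𝔫 : 𝔫 ≠ ⊥) (H : HDat D a 𝔫) (hL : Loc3 H) (l : List J) (hl : D.Rd l) (e : J → ℝ) (hA : Adm a ε e l) (S B : Finset J) (z : G)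
    (hB : ∀ j ∈ B, H.χ j z) (T : Finset G) (hT : ∀ u ∈ T, u ∈ D.UW l) (hT2 : ∀ u ∈ T, ∀ u' ∈ T, u ≠ u' → u⁻¹ * u' ∉ cz H.Γ z) (hχ : ∀ u ∈ T, ∀ j ∈ S, H.χ j (D.nw l * u * z)) :
    ∑ u ∈ T, fe H e (D.nw l * u * z) ≤ Z ^ l.length * fe H (ew a e l) z * gi (D.UW l ⊓ D.GO) (D.UW l ⊓ cz H.Γ z) / (Ideal.absNorm 𝔫 : ℝ) ^ gain a e S B l := by
  classical
  induction l generalizing z T B with
  | nil =>
    have h1 : T ⊆ {1} := by
      intro u hu
      have h := hT u hu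
      rw [D.uw_nil, Subgroup.mem_bot] at h
      rw [h]
      exact Finset.mem_singleton_self _
    have h2 : ∑ u ∈ T, fe H e (D.nw [] * u * z) ≤ ∑ u ∈ ({1} : Finset G), fe H e (D.nw [] * u * z) :=
      Finset.sum_le_sum_of_subset_of_nonneg h1 fun u _ _ => (fe_pos H e _).le
    refine h2.trans (le_of_eq ?_)
    rw [Finset.sum_singleton, D.nw_nil, mul_one, one_mul, D.uw_nil, bot_inf_eq, bot_inf_eq, gi_self, List.length_nil, pow_zero,
      gain_nil, Real.rpow_zero, one_mul, mul_one, div_one]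
    rfl
  | cons i l ih =>
    have hl' := D.rd_tail i l hl
    obtain ⟨hA1, hA2⟩ : 1 + ε ≤ mu a i (ew a e l) ∧ Adm a ε e l := hA
    obtain ⟨R, -, hR, hR2⟩ := reps (D.im hl (cz H.Γ z)) (T.image (D.c i))
    have h1 : ∀ u ∈ T, ∃ (r : K) (τ γ : G), r ∈ R ∧ τ ∈ D.UW l ∧ γ ∈ H.Γ ∧
        D.nw (i :: l) * u * z = D.nw l * τ * (D.n i * D.x i r * z) * γ ∧ (D.n i)⁻¹ * τ * (D.n i * D.x i r * z) = u * z * γ⁻¹ := by
      intro u hu
      obtain ⟨r, hr, h⟩ := hR2 (D.c i u) (Finset.mem_image_of_mem _ hu)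
      obtain ⟨τ, hτ, γ, hγ, e1, e2⟩ := reduce hl (hT u hu) h
      exact ⟨r, τ, γ, hr, hτ, hγ, e1, e2⟩
    choose! ρ τ γ hρ hτ hγ e1 e2 using h1
    have hg0p : 0 < agi (OK K) (D.im hl (cz H.Γ z)) := agi_pos (im_comm H hl z).2 (im_comm H hl z).1
    have hg1p : 0 ≤ gi (D.UW (i :: l) ⊓ D.GO) (D.UW (i :: l) ⊓ cz H.Γ z) := div_nonneg (Nat.cast_nonneg _) (Nat.cast_nonneg _)
    have hg : ∀ r, gi (D.UW l ⊓ D.GO) (D.UW l ⊓ cz H.Γ (D.n i * D.x i r * z)) =
        gi (D.UW (i :: l) ⊓ D.GO) (D.UW (i :: l) ⊓ cz H.Γ z) / agi (OK K) (D.im hl (cz H.Γ z)) := by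
      intro r
      rw [gi_step H hl z r, mul_div_cancel_left₀ _ hg0p.ne']
    generalize gi (D.UW (i :: l) ⊓ D.GO) (D.UW (i :: l) ⊓ cz H.Γ z) = g1 at hg hg1p ⊢
    have hstep := fun (𝔪 : Ideal (𝓞 K)) => step_sum H hRk (ha i) hl hA1 z (R := T.image ρ) (𝔪 := 𝔪)
    have hstep2 := step_sum2 H hL hRk h𝔫 (ha i) hl hA1 z (R := T.image ρ)
    generalize agi (OK K) (D.im hl (cz H.Γ z)) = g0 at hg hg0p hstep hstep2
    have hN : (0 : ℝ) < (Ideal.absNorm 𝔫 : ℝ) := by
      rw [Nat.cast_pos]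
      exact Nat.pos_of_ne_zero fun h => h𝔫 (Ideal.absNorm_eq_zero_iff.1 h)
    have h2 : ∑ u ∈ T, fe H e (D.nw (i :: l) * u * z) =
        ∑ r ∈ T.image ρ, ∑ u ∈ T with ρ u = r, fe H e (D.nw l * τ u * (D.n i * D.x i r * z)) := by
      rw [← Finset.sum_fiberwise_of_maps_to (fun u hu => Finset.mem_image_of_mem ρ hu)]
      refine Finset.sum_congr rfl fun r _ => Finset.sum_congr rfl fun u hu => ?_
      rw [Finset.mem_filter] at hu
      rw [e1 u hu.1, fe_right H e _ (hγ u hu.1), hu.2]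
    have h3 : ∀ r ∈ T.image ρ, ∑ u ∈ T with ρ u = r, fe H e (D.nw l * τ u * (D.n i * D.x i r * z)) ≤
        (Z ^ l.length * (g1 / g0) / (Ideal.absNorm 𝔫 : ℝ) ^ gain a e S (B.erase i) l) * fe H (ew a e l) (D.n i * D.x i r * z) := by
      intro r _
      have hne : ∀ u ∈ T.filter (fun u => ρ u = r), ∀ u' ∈ T.filter (fun u => ρ u = r), u ≠ u' →
          (τ u)⁻¹ * τ u' ∉ cz H.Γ (D.n i * D.x i r * z) := by
        intro u hu u' hu' hn
        rw [Finset.mem_filter] at hu hu'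
        have a1 := e2 u hu.1
        have a2 := e2 u' hu'.1
        rw [hu.2] at a1
        rw [hu'.2] at a2
        exact reduce_ne (hγ u hu.1) (hγ u' hu'.1) a1 a2 (hT2 u hu.1 u' hu'.1 hn)
      have hinj : Set.InjOn τ (T.filter (fun u => ρ u = r)) := by
        intro u hu u' hu' h
        by_contra hn
        apply hne u hu u' hu' hn
        rw [h, inv_mul_cancel]
        exact one_mem _
      have b0 : ∀ j ∈ B.erase i, H.χ j (D.n i * D.x i r * z) := by
        intro j hj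
        rw [H.χ_ne i j (Finset.ne_of_mem_erase hj)]
        exact hB j (Finset.mem_of_mem_erase hj)
      have b1 : ∀ t ∈ (T.filter (fun u => ρ u = r)).image τ, t ∈ D.UW l := by
        intro t ht
        obtain ⟨u, hu, rfl⟩ := Finset.mem_image.1 ht
        exact hτ u (Finset.mem_filter.1 hu).1
      have b2 : ∀ t ∈ (T.filter (fun u => ρ u = r)).image τ, ∀ t' ∈ (T.filter (fun u => ρ u = r)).image τ, t ≠ t' →
          t⁻¹ * t' ∉ cz H.Γ (D.n i * D.x i r * z) := by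
        intro t ht t' ht' hn
        obtain ⟨u, hu, rfl⟩ := Finset.mem_image.1 ht
        obtain ⟨u', hu', rfl⟩ := Finset.mem_image.1 ht'
        exact hne u hu u' hu' fun h => hn (by rw [h])
      have b3 : ∀ t ∈ (T.filter (fun u => ρ u = r)).image τ, ∀ j ∈ S, H.χ j (D.nw l * t * (D.n i * D.x i r * z)) := by
        intro t ht j hj
        obtain ⟨u, hu, rfl⟩ := Finset.mem_image.1 ht
        rw [Finset.mem_filter] at hu
        have h := hχ u hu.1 j hj
        rw [e1 u hu.1, H.χ_right _ _ _ (hγ u hu.1), hu.2] at h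
        exact h
      have h4 := ih hl' hA2 (B.erase i) (D.n i * D.x i r * z) b0 ((T.filter (fun u => ρ u = r)).image τ) b1 b2 b3
      rw [Finset.sum_image hinj] at h4
      refine h4.trans (le_of_eq ?_)
      rw [hg r]
      ring
    have hG : 0 < (Ideal.absNorm 𝔫 : ℝ) ^ gain a e S (B.erase i) l := Real.rpow_pos_of_pos hN _
    have hC : 0 ≤ Z ^ l.length * (g1 / g0) / (Ideal.absNorm 𝔫 : ℝ) ^ gain a e S (B.erase i) l := by
      have hZ0 : (0 : ℝ) ≤ Z := zero_le_one.trans hZ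
      positivity
    rw [h2]
    refine (Finset.sum_le_sum h3).trans ?_
    rw [← Finset.mul_sum]
    have hR' : ∀ r ∈ T.image ρ, ∀ r' ∈ T.image ρ, r ≠ r' → r - r' ∉ D.im hl (cz H.Γ z) := by
      intro r hr r' hr' hn
      obtain ⟨u, hu, rfl⟩ := Finset.mem_image.1 hr
      obtain ⟨u', hu', rfl⟩ := Finset.mem_image.1 hr'
      exact hR _ (hρ u hu) _ (hρ u' hu') hn
    have hew : ew a e (i :: l) = sE a i (ew a e l) := rfl
    rw [hew, gain_cons]
    by_cases hc : i ∈ S ∧ i ∉ l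
    · have hm : ∀ r ∈ T.image ρ, H.χ i (D.n i * D.x i r * z) := by
        intro r hr
        obtain ⟨u, hu, rfl⟩ := Finset.mem_image.1 hr
        have h := hχ u hu i hc.1
        rw [e1 u hu, H.χ_right _ _ _ (hγ u hu), χ_nw H hc.2 (hτ u hu)] at h
        exact h
      rw [if_pos hc]
      by_cases hiB : i ∈ B
      · refine (mul_le_mul_of_nonneg_left (hstep2 hR' (hB i hiB) hm) hC).trans (le_of_eq ?_)
        rw [if_pos hiB, Real.rpow_add hN, List.length_cons]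
        have hM : 0 < (Ideal.absNorm 𝔫 : ℝ) ^ mu a i (ew a e l) := Real.rpow_pos_of_pos hN _
        field_simp
        ring
      · refine (mul_le_mul_of_nonneg_left (hstep 𝔫 hR' h𝔫 (Or.inr ⟨rfl, hm⟩)) hC).trans (le_of_eq ?_)
        rw [if_neg hiB, Real.rpow_add hN, Real.rpow_one, List.length_cons]
        field_simp
        ring
    · refine (mul_le_mul_of_nonneg_left (hstep ⊤ hR' top_ne_bot (Or.inl rfl)) hC).trans (le_of_eq ?_)
      rw [if_neg hc, add_zero, List.length_cons, Ideal.absNorm_top]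
      push_cast
      field_simp
      ring

end

end Pool.Agent.Lib.H29F
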