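import Pool.Agent.Lib.H29F.FC0

/-!
# FC1: definitions, part 2 (no sorry): the coordinate homomorphism, its images and kernels; the rank one lemma as a hypothesis
-/

namespace Pool.Agent.Lib.H29F

open NumberField IsDedekindDomain

noncomputable section

set_option linter.unusedSectionVars false

variable {G J K : Type} [Group G] [Fintype J] [DecidableEq J] [Field K] [NumberField K] (D : GDat G J K)

namespace GDat

/-- The coordinate `c_i` as a homomorphism on `U_w`. -/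
def ch {i : J} {l : List J} (hl : D.Rd (i :: l)) : D.UW (i :: l) →* Multiplicative K where
  toFun g := Multiplicative.ofAdd (D.c i g.1)
  map_one' := by
    have h := D.c_mul i l hl 1 (one_mem _) 1 (one_mem _)
    rw [mul_one, left_eq_add] at h
    show Multiplicative.ofAdd (D.c i 1) = 1
    rw [h]
    rfl
  map_mul' g h := by
    show Multiplicative.ofAdd (D.c i (g.1 * h.1)) = _
    rw [D.c_mul i l hl g.1 g.2 h.1 h.2]
    rfl

/-- The image of `B ∩ U_w` under `c_i`. -/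
def im {i : J} {l : List J} (hl : D.Rd (i :: l)) (B : Subgroup G) : AddSubgroup K := Subgroup.toAddSubgroup' ((B.subgroupOf (D.UW (i :: l))).map (D.ch hl))

/-- The elements of `B ∩ U_w` with `c_i = 0`. -/
def kr {i : J} {l : List J} (hl : D.Rd (i :: l)) (B : Subgroup G) : Subgroup G := ((B.subgroupOf (D.UW (i :: l))) ⊓ (D.ch hl).ker).map (D.UW (i :: l)).subtype

theorem mem_im {i : J} {l : List J} (hl : D.Rd (i :: l)) {B : Subgroup G} {r : K} : r ∈ D.im hl B ↔ ∃ u ∈ D.UW (i :: l), u ∈ B ∧ D.c i u = r := by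
  unfold im
  rw [Subgroup.mem_toAddSubgroup', Subgroup.mem_map]
  constructor
  · rintro ⟨u, hu, h⟩
    exact ⟨u.1, u.2, hu, Multiplicative.ofAdd.injective h⟩
  · rintro ⟨u, hu, hB, h⟩
    exact ⟨⟨u, hu⟩, hB, by rw [← h]; rfl⟩

theorem mem_kr {i : J} {l : List J} (hl : D.Rd (i :: l)) {B : Subgroup G} {u : G} : u ∈ D.kr hl B ↔ u ∈ D.UW (i :: l) ∧ u ∈ B ∧ D.c i u = 0 := by
  unfold kr
  rw [Subgroup.mem_map]
  constructor
  · rintro ⟨u, ⟨h1, h2⟩, rfl⟩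
    exact ⟨u.2, h1, Multiplicative.ofAdd.injective (MonoidHom.mem_ker.1 h2)⟩
  · rintro ⟨hu, h1, h2⟩
    refine ⟨⟨u, hu⟩, ⟨h1, MonoidHom.mem_ker.2 ?_⟩, rfl⟩
    show Multiplicative.ofAdd (D.c i u) = 1
    rw [h2]
    rfl

theorem c_one {i : J} {l : List J} (hl : D.Rd (i :: l)) : D.c i 1 = 0 := by
  have h := D.c_mul i l hl 1 (one_mem _) 1 (one_mem _)
  rw [mul_one, left_eq_add] at h
  exact h

theorem c_inv {i : J} {l : List J} (hl : D.Rd (i :: l)) {g : G} (hg : g ∈ D.UW (i :: l)) : D.c i g⁻¹ = -D.c i g := by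
  have h := D.c_mul i l hl g hg g⁻¹ (inv_mem hg)
  rw [mul_inv_cancel, D.c_one hl] at h
  exact eq_neg_of_add_eq_zero_right h.symm

theorem x_zero (i : J) : D.x i 0 = 1 := by
  have h := D.x_add i 0 0
  rw [add_zero] at h
  exact left_eq_mul.1 h

theorem x_neg (i : J) (r : K) : D.x i (-r) = (D.x i r)⁻¹ := by
  have h := D.x_add i r (-r)
  rw [add_neg_cancel, D.x_zero] at h
  exact (inv_eq_of_mul_eq_one_right h.symm).symm

end GDat

variable (K) in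
/-- **The rank one lemma** (helper80) as a hypothesis, with the constant `Z`. -/
def RankOne (ε Z : ℝ) : Prop := ∀ (𝔫 : Ideal (𝓞 K)), 𝔫 ≠ ⊥ → ∀ (a : HeightOneSpectrum (𝓞 K) → ℝ) (c : HeightOneSpectrum (𝓞 K) → K) (𝔞 : AddSubgroup K) (T : Finset K) (μ : ℝ), 1 + ε ≤ μ →
    (∀ v, ∃ y : K, y ≠ 0 ∧ a v = av v y) → {v | a v ≠ 1}.Finite → (∀ r ∈ T, {v | mx a c r v ≠ 1}.Finite) → 𝔞.relIndex (OK K) ≠ 0 → (OK K).relIndex 𝔞 ≠ 0 →
    (∀ r ∈ T, ∀ r' ∈ T, r ≠ r' → r - r' ∉ 𝔞) → (∀ r ∈ T, ∀ r' ∈ T, ∀ v, av v (r - r') ≤ nv 𝔫 v * mx a c r v * mx a c r' v / a v) →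
    (∀ r ∈ T, ∀ s ∈ 𝔞, ∀ v, av v s ≤ mx a c r v ∧ av v s ≤ nv 𝔫 v * mx a c r v ^ 2 / a v) →
    ∑ r ∈ T, (∏ᶠ v, mx a c r v) ^ (-(1 + μ)) ≤ Z * (∏ᶠ v, a v) ^ (-μ) * agi (OK K) 𝔞 / (Ideal.absNorm 𝔫 : ℝ)

end

end Pool.Agent.Lib.H29F
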