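import Pool.Agent.Lib.H29F.FG5
import Pool.Agent.Lib.L8.FI.F5
import Pool.Agent.Lib.L8.FR.R3

/-!
# FH0: the height data of `G(K)` (instance of `HDat`; the local part is helper43's `L8/FI`)
-/

namespace Pool.Agent.Lib.H29F.Gk

set_option linter.unusedSectionVars false

open MeasureTheory Matrix NumberField IsDedekindDomain Pool.Agent.Lib.H89N Pool.Agent.Lib.H33W Pool.Agent.Lib.L1S
open scoped ENNReal

noncomputable section

variable {ι M N : Type} [Fintype ι] [DecidableEq ι] [AddCommGroup M] [Module ℚ M] [AddCommGroup N] [Module ℚ N]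
  {P : RootPairing ι ℚ M N} [P.IsCrystallographic] [P.IsReduced] [P.IsIrreducible] [P.IsRootSystem]

variable {b : P.Base} {K : Type} [Field K] [NumberField K]

theorem av_na (v : HeightOneSpectrum (𝓞 K)) : IsNonarchimedean (av v : K → ℝ) := NumberField.HeightOneSpectrum.isNonarchimedean_adicAbv K v

theorem nv_nonneg (𝔫 : Ideal (𝓞 K)) (v : HeightOneSpectrum (𝓞 K)) : 0 ≤ nv 𝔫 v := by
  unfold nv
  positivity

theorem nv_le (𝔫 : Ideal (𝓞 K)) (v : HeightOneSpectrum (𝓞 K)) : nv 𝔫 v ≤ 1 := by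
  unfold nv
  have h1 : (1 : ℝ) ≤ (Ideal.absNorm v.asIdeal : ℝ) := by
    exact_mod_cast Nat.one_le_iff_ne_zero.2 (fun e => v.ne_bot (Ideal.absNorm_eq_zero_iff.1 e))
  exact pow_le_one₀ (by positivity) (inv_le_one_of_one_le₀ h1)

/-- The entries of the elements of an ideal. -/
theorem av_InI {𝔫 : Ideal (𝓞 K)} (h𝔫 : 𝔫 ≠ ⊥) {x : K} (hx : L1S.InI 𝔫 x) (v : HeightOneSpectrum (𝓞 K)) : av v x ≤ nv 𝔫 v := by
  obtain ⟨y, hy, rfl⟩ := hx
  rw [nv_eq, av_eq]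
  exact (nu2_A h𝔫 ((y : 𝓞 K) : K)).1 ⟨y, hy, rfl⟩ v

/-- Elements of `Γ(𝔫)` are congruent to `1` modulo `𝔫` at `v`. -/
theorem G1_Cg {𝔫 : Ideal (𝓞 K)} (h𝔫 : 𝔫 ≠ ⊥) {γ : GK b K} (hγ : γ ∈ G1 b 𝔫) (v : HeightOneSpectrum (𝓞 K)) : L8.FI.Cg (av v) (nv 𝔫 v) γ :=
  ⟨fun r c => av_InI h𝔫 (hγ r c).1 v, fun r c => av_InI h𝔫 (hγ r c).2 v⟩

theorem Cg_mono {v : AbsoluteValue K ℝ} {ν ν' : ℝ} (h : ν ≤ ν') {k : GK b K} (hk : L8.FI.Cg v ν k) : L8.FI.Cg v ν' k := ⟨fun r c => (hk.1 r c).trans h, fun r c => (hk.2 r c).trans h⟩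

theorem G1_Iv {𝔫 : Ideal (𝓞 K)} (h𝔫 : 𝔫 ≠ ⊥) {γ : GK b K} (hγ : γ ∈ G1 b 𝔫) (v : HeightOneSpectrum (𝓞 K)) : L8.FI.Iv (av v) γ :=
  (L8.FI.Cg_one_iff (av_na v)).1 (Cg_mono (nv_le 𝔫 v) (G1_Cg h𝔫 hγ v))

theorem HU_Uu {u : GK b K} (hu : u ∈ HU b K) : L8.FI.Uu u := (mem_HU_iff b u).1 hu

/-- Almost all absolute values of an element are at most one. -/
theorem av_fin (x : K) : {v : HeightOneSpectrum (𝓞 K) | ¬av v x ≤ 1}.Finite := by
  obtain ⟨a, d, hd, rfl⟩ := IsFractionRing.div_surjective (A := 𝓞 K) x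
  have hd0 : d ≠ 0 := nonZeroDivisors.ne_zero hd
  have hI : (Ideal.span {d} : Ideal (𝓞 K)) ≠ ⊥ := by simpa using hd0
  refine (L8.FR.od_finite hI).subset fun v hv => ?_
  by_contra hdv
  apply hv
  have hdv' : L8.FR.od (Ideal.span {d}) v = 0 := not_not.1 hdv
  have h1 : av v (algebraMap (𝓞 K) K d) = 1 := by
    have h2 := L8.FR.nw_span hd0 v
    rw [L8.FR.nw_od, hdv', Nat.cast_zero, neg_zero, _root_.zpow_zero] at h2
    exact h2.symm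
  show av v (algebraMap (𝓞 K) K a / algebraMap (𝓞 K) K d) ≤ 1
  rw [map_div₀, h1, div_one]
  exact nu2_le_one v a

/-- Almost all heights are equal to one. -/
theorem Av_fin (k : b.support) (g : GK b K) : {v : HeightOneSpectrum (𝓞 K) | L8.FI.Av (av v) k g ≠ 1}.Finite := by
  have h1 : (⋃ p : I b × I b, {v : HeightOneSpectrum (𝓞 K) | ¬av v (g.1.1 p.1 p.2) ≤ 1} ∪ {v : HeightOneSpectrum (𝓞 K) | ¬av v (g⁻¹.1.1 p.1 p.2) ≤ 1}).Finite :=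
    Set.finite_iUnion fun p => (av_fin _).union (av_fin _)
  refine h1.subset fun v hv => ?_
  by_contra h
  apply hv
  rw [Set.mem_iUnion] at h
  push Not at h
  have h2 : L8.FI.Iv (av v) g := by
    refine ⟨fun r c => ?_, fun r c => ?_⟩
    · by_contra h3
      exact h (r, c) (Or.inl (not_le.1 h3))
    · by_contra h3
      exact h (r, c) (Or.inr (not_le.1 h3))
  exact L8.FI.Av_Iv (av_na v) h2 k

/-- **The height data.** -/
def hD {𝔫 : Ideal (𝓞 K)} (h𝔫 : 𝔫 ≠ ⊥) : HDat (gD b K) (fun k i => P.pairingIn ℤ (k : ι) (i : ι)) 𝔫 where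
  Γ := G1 b 𝔫
  comm1 z := (G1_comm b K h𝔫 z).1
  comm2 z := (G1_comm b K h𝔫 z).2
  A k g v := L8.FI.Av (av v) k g
  val k g v := L8.FI.Av_val (av_na v) k g
  fin k g := Av_fin k g
  right k g v γ hγ := L8.FI.Av_K (av_na v) (G1_Iv h𝔫 hγ v) g k
  left k l u hu g v := L8.FI.Av_U (av_na v) (HU_Uu hu.1) g k
  χ j g := ∀ v, L8.FI.Chi (av v) j (nv 𝔫 v) g
  χ_right j g γ hγ := forall_congr' fun v => L8.FI.Chi_K (av_na v) (nv_le 𝔫 v) (nv_nonneg 𝔫 v) (G1_Cg h𝔫 hγ v) g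
  χ_left j l u hu g := forall_congr' fun v => L8.FI.Chi_P ((HU_Uu hu.1).toPj j) g
  χ_ne i j hij r g := forall_congr' fun v => L8.FI.Chi_n (Ne.symm hij) r g
  loc i z v := by
    obtain ⟨c, _, h1, h2⟩ := L8.FI.loc (av_na v) i z
    exact ⟨c, h1, fun r r' h h' => (h2 (nv 𝔫 v) (nv_nonneg 𝔫 v) (nv_le 𝔫 v)).1 r r' (h v) (h' v)⟩

end

end Pool.Agent.Lib.H29F.Gk
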