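import Pool.Agent.Lib.H29F.FB1
import Pool.Agent.Lib.H29F.FH0

/-!
# FB2: the third clause for the height data of `G(K)`
-/

namespace Pool.Agent.Lib.H29F

set_option linter.unusedSectionVars false

open MeasureTheory Matrix NumberField IsDedekindDomain Pool.Agent.Lib.H89N Pool.Agent.Lib.H33W Pool.Agent.Lib.L1S

noncomputable section

variable {ι M N : Type} [Fintype ι] [DecidableEq ι] [AddCommGroup M] [Module ℚ M] [AddCommGroup N] [Module ℚ N]
  {P : RootPairing ι ℚ M N} [P.IsCrystallographic] [P.IsReduced] [P.IsIrreducible] [P.IsRootSystem]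

variable {b : P.Base} {K : Type} [Field K] [NumberField K]

/-- **The third clause** for the heights of `G(K)`. -/
theorem hD_loc3 {𝔫 : Ideal (𝓞 K)} (h𝔫 : 𝔫 ≠ ⊥) : Loc3 (Gk.hD (b := b) (K := K) h𝔫) := by
  refine loc3_of (fun i => P.pairingIn_same ℤ _) fun i z v => ?_
  obtain ⟨c, _, h1, h2⟩ := L8.FI.loc (Gk.av_na v) i z
  exact ⟨c, fun r => h1 r i, fun hz r hr => (h2 (nv 𝔫 v) (Gk.nv_nonneg 𝔫 v) (Gk.nv_le 𝔫 v)).2 r (hz v) (hr v)⟩

end

end Pool.Agent.Lib.H29F
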