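import Pool.Agent.Lib.H29F.GD0

/-!
# FG1 (M): representatives of words, root elements, opposite unipotent groups

Library (L1S/B0, B1): `IsN b K w n` (`n` over `w`: `n V_γ = V_(w γ)`, ..), `b1x b K β t` (`x_β(t)`), `b1m b K i s` (`m_i(s)`), `b1_m` (`m_i(s)` over `s_i`), `b1_mul`, `b1_inv`, `b1_conj` (`n x_β(t) = x_(w β)(c t) n`), `b1_pos`, `b1_ut`, `b1_neg`, `mem_HU_iff`.
-/

namespace Pool.Agent.Lib.H29F.Gk

set_option linter.unusedSectionVars false

open MeasureTheory Matrix NumberField IsDedekindDomain Pool.Agent.Lib.H89N Pool.Agent.Lib.H33W Pool.Agent.Lib.L1S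
open scoped ENNReal

noncomputable section

variable {ι M N : Type} [Fintype ι] [DecidableEq ι] [AddCommGroup M] [Module ℚ M] [AddCommGroup N] [Module ℚ N]
  {P : RootPairing ι ℚ M N} [P.IsCrystallographic] [P.IsReduced] [P.IsIrreducible] [P.IsRootSystem]

variable (b : P.Base) (K : Type) [Field K] [NumberField K]


/-- PROOF. Induction on `L`: `b1_one`, `b1_mul`, `b1_m`. -/
theorem isn_nW (L : List b.support) : IsN b K (wW b L) (nW b K L) := by
  induction L with
  | nil => exact b1_one b K
  | cons i L ih => exact b1_mul b K ih (b1_m b K i 1)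

/-- The inverse of a matrix `g` for which `g - 1` raises the degree `h`. -/
theorem fg1_inv (h : I b → ℤ) {g g' : Matrix (I b) (I b) K} (h1 : g * g' = 1)
    (hg : ∀ r c, h r ≤ h c → g r c = (1 : Matrix (I b) (I b) K) r c) :
    ∀ r c, h r ≤ h c → g' r c = (1 : Matrix (I b) (I b) K) r c := by
  obtain ⟨B, hB⟩ : ∃ B : ℤ, ∀ r : I b, B ≤ h r := by
    refine ⟨-∑ r : I b, |h r|, fun r => ?_⟩
    have h2 := Finset.single_le_sum (f := fun r : I b => |h r|) (fun r _ => abs_nonneg _)
      (Finset.mem_univ r)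
    have h3 := neg_abs_le (h r)
    have h4 : |h r| ≤ ∑ r : I b, |h r| := h2
    omega
  have key : ∀ n : ℕ, ∀ r c : I b, (h r - B).toNat < n → h r ≤ h c →
      g' r c = (1 : Matrix (I b) (I b) K) r c := by
    intro n
    induction n with
    | zero => intro r c h; exact absurd h (Nat.not_lt_zero _)
    | succ n ih =>
      intro r c hn hrc
      have h2 : (g * g') r c = (1 : Matrix (I b) (I b) K) r c := by rw [h1]
      rw [Matrix.mul_apply, Finset.sum_eq_single r] at h2
      · rw [hg r r le_rfl, Matrix.one_apply_eq, one_mul] at h2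
        exact h2
      · intro l _ hl
        by_cases h3 : h r ≤ h l
        · rw [hg r l h3, Matrix.one_apply_ne hl.symm, zero_mul]
        · have h4 : l ≠ c := by
            rintro rfl
            omega
          have h5 := hB l
          have h6 := hB r
          rw [ih l c (by omega) (by omega), Matrix.one_apply_ne h4, mul_zero]
      · intro h
        exact absurd (Finset.mem_univ r) h
  intro r c hrc
  exact key _ r c (Nat.lt_succ_self _) hrc

/-- `x_β(t) - 1` lowers the height for a negative root `β`. -/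
theorem fg1_ut (β : ι) (hβ : b.height β < 0) (t : K) (r c : I b) (hrc : ht b c ≤ ht b r) :
    xx b β t r c = (1 : Matrix (I b) (I b) K) r c := by
  have h1 : ∀ k : ℕ, k ≠ 0 → (toA K (dvp (E b β) k)) r c = 0 := by
    intro k hk
    by_contra hne
    have h2 : dvp (E b β) k r c ≠ 0 := by
      intro h
      apply hne
      change ((dvp (E b β) k r c : ℤ) : K) = 0
      rw [h, Int.cast_zero]
    have h3 := b1_ht_add b (dvp_wt b β k r c h2)
    have h4 : (k : ℤ) * b.height β < 0 := mul_neg_of_pos_of_neg (by exact_mod_cast Nat.pos_of_ne_zero hk) hβ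
    omega
  rw [xx, ex, Matrix.sum_apply, Finset.sum_eq_single 0]
  · rw [pow_zero, one_smul, dvp_zero]
    by_cases h : r = c
    · subst h
      change (((1 : Matrix (I b) (I b) ℤ) r r : ℤ) : K) = _
      rw [Matrix.one_apply_eq, Matrix.one_apply_eq, Int.cast_one]
    · change (((1 : Matrix (I b) (I b) ℤ) r c : ℤ) : K) = _
      rw [Matrix.one_apply_ne h, Matrix.one_apply_ne h, Int.cast_zero]
  · intro k _ hk
    rw [Matrix.smul_apply, h1 k hk, smul_zero]
  · intro h
    exact absurd (Finset.mem_range.2 (by norm_num)) h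

/-- Membership in `V(K)`: only the entries of the element itself matter. PROOF. As `mem_HU_iff` / `UTk_inv` (the inverse of a lower unitriangular matrix is lower unitriangular): if `g - 1` lowers the height then so does `g⁻¹ - 1`: `g⁻¹ - 1 = - g⁻¹ (g - 1)`, induction on the height difference: for `ht r ≥ ht c`:
`(g⁻¹ g) r c = 1 r c` and `g⁻¹ r c + ∑_(k ≠ c) g⁻¹ r k (g - 1) k c`, `(g - 1) k c ≠ 0` only for `ht k < ht c`; strong induction on `ht c` from below. ANOTHER WAY: apply the upper statement to the transposed order `OrderDual`, or copy `UTk_inv` (Lib/L1S/L2*.lean) with the signs reversed. -/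
theorem mem_HV {g : GK b K} (h : ∀ r c, ht b c ≤ ht b r → g.1.1 r c = (1 : Matrix (I b) (I b) K) r c) : g ∈ HV b K := by
  have h1 : ∀ r c, -ht b r ≤ -ht b c → g.1.1 r c = (1 : Matrix (I b) (I b) K) r c :=
    fun r c hrc => h r c (by omega)
  have h2 : g.1.1 * g⁻¹.1.1 = 1 := g.1.mul_inv
  intro r c hrc
  exact ⟨h1 r c hrc, fg1_inv b K (fun r => -ht b r) h2 h1 r c hrc⟩

/-- `x_β(t) ∈ V(K)` for a negative root `β`. PROOF. `mem_HV`; the entries as in `b1_ut` (an entry `(r, c)` of `x_β(t)` is nonzero only if `wt r = wt c + k β`, `b1_ht_add`). -/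
theorem x_HV {β : ι} (hβ : b.height β < 0) (t : K) : b1x b K β t ∈ HV b K :=
  mem_HV b K fun r c hrc => fg1_ut b K β hβ t r c hrc

/-- `U(K) ∩ V(K) = 1`. PROOF. All entries are those of the identity (`le_total (ht r) (ht c)`). -/
theorem HU_HV : HU b K ⊓ HV b K = ⊥ := by
  rw [eq_bot_iff]
  rintro g ⟨h1, h2⟩
  rw [Subgroup.mem_bot]
  have h3 := (mem_HU b K g).1 h1
  apply Subtype.ext
  apply Units.ext
  ext r c
  rcases le_total (ht b r) (ht b c) with h | h
  · exact (h3 r c h).1
  · exact (h2 r c (neg_le_neg h)).1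

/-- `m_i(s)⁻¹ = m_i(-s)`. PROOF. `mG b i s = x_i(s) x_(-i)(-1/s) x_i(s)` (the definition of `mG`, Lib/L1S/L122), `xG_inv`. -/
theorem m_inv (i : b.support) (s : Kˣ) : (b1m b K i s)⁻¹ = b1m b K i (-s) := by
  apply Subtype.ext
  change (mG b i s)⁻¹ = mG b i (-s)
  rw [mG, mG, _root_.mul_inv_rev, _root_.mul_inv_rev, xG_inv, xG_inv, ← mul_assoc, neg_neg, inv_neg,
    Units.val_neg, Units.val_neg, neg_neg]

/-- `w (s_i α_i) = - w α_i` is negative if `w α_i` is positive. PROOF. `P.reflectionPerm i i` is the negative of `i` (`ng P i`), `b1_neg`, heights of negatives: `b.height_reflectionPerm_self`. `b.IsPos β` is `0 < b.height β`. `wW b L ∈ WP P` from `isn_nW`. -/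
theorem wW_neg {i : b.support} {L : List b.support} (h : b.IsPos (wW b L i)) : b.height (wW b (i :: L) i) < 0 := by
  have h1 : wW b (i :: L) i = wW b L (ng P i) := rfl
  have h2 := b1_neg (P := P) (isn_nW b ℚ L).mem (i : ι)
  rw [h1, h2]
  have h3 : b.height (ng P (wW b L i)) = -b.height (wW b L i) := b.height_reflectionPerm_self _
  have h4 : 0 < b.height (wW b L i) := h
  omega

end

end Pool.Agent.Lib.H29F.Gk
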