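import Pool.Agent.Lib.H29F.FG1

/-!
# FG2 (M): the groups `U_w`

`c_i(u) = u (inl i) (inr (-i))`: `c_add`, `c_xx` (L1S/L28), `m_conj_K` (L1S/ApiL2), `b1_split` (L1S/B1).
-/

namespace Pool.Agent.Lib.H29F.Gk

set_option linter.unusedSectionVars false

open MeasureTheory Matrix NumberField IsDedekindDomain Pool.Agent.Lib.H89N Pool.Agent.Lib.H33W Pool.Agent.Lib.L1S
open scoped ENNReal

noncomputable section

variable {ι M N : Type} [Fintype ι] [DecidableEq ι] [AddCommGroup M] [Module ℚ M] [AddCommGroup N] [Module ℚ N]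
  {P : RootPairing ι ℚ M N} [P.IsCrystallographic] [P.IsReduced] [P.IsIrreducible] [P.IsRootSystem]

variable (b : P.Base) (K : Type) [Field K] [NumberField K]


/-- PROOF. `mem_HU_iff`, `c_add`. -/
theorem cc_mul (i : b.support) {g h : GK b K} (hg : g ∈ HU b K) (hh : h ∈ HU b K) :
    (g * h).1.1 (Sum.inl i) (Sum.inr (ng P i)) = g.1.1 (Sum.inl i) (Sum.inr (ng P i)) + h.1.1 (Sum.inl i) (Sum.inr (ng P i)) := by
  exact c_add b g.1.1 h.1.1 ((mem_HU_iff b g).1 hg) ((mem_HU_iff b h).1 hh) i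

/-- PROOF. `c_xx`. -/
theorem cc_x (i : b.support) (r : K) : (b1x b K i r).1.1 (Sum.inl i) (Sum.inr (ng P i)) = r := by
  exact (c_xx b (i : ι) (b.isPos_of_mem_support i.2) r i).trans (if_pos rfl)

/-- `x_i(r) ∈ U_(w s_i)` for `w s_i` reduced. PROOF. `b1_pos`; `n = n_(w s_i)` is over `w s_i` (`isn_nW`), `n x_i(r) n⁻¹ = x_(w s_i α_i)(c r)` (`b1_conj`), a negative root (`wW_neg`), `x_HV`. -/
theorem x_Uw {i : b.support} {L : List b.support} (h : b.IsPos (wW b L i)) (r : K) : b1x b K i r ∈ Uw b K (i :: L) := by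
  refine ⟨b1_pos b K _ (b.isPos_of_mem_support i.2) r, ?_⟩
  show nW b K (i :: L) * b1x b K i r * (nW b K (i :: L))⁻¹ ∈ HV b K
  obtain ⟨c, -, hc⟩ := b1_conj b K (isn_nW b K (i :: L)) (i : ι)
  rw [hc r, mul_inv_cancel_right]
  exact x_HV b K (wW_neg b h) _

/-- PROOF. `m_conj_K` (the element `⟨mG b i 1, _⟩` is `b1m b K i 1`) and `n_(w s_i) = n_w n_i`. -/
theorem Uw_down {i : b.support} {L : List b.support} {g : GK b K} (hg : g ∈ Uw b K (i :: L)) (h0 : g.1.1 (Sum.inl i) (Sum.inr (ng P i)) = 0) :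
    b1m b K i 1 * g * (b1m b K i 1)⁻¹ ∈ Uw b K L := by
  have h1 : b1m b K i 1 * g * (b1m b K i 1)⁻¹ ∈ HU b K := m_conj_K b i 1 hg.1 h0
  refine ⟨h1, ?_⟩
  have h2 : nW b K L * b1m b K i 1 * g * (nW b K L * b1m b K i 1)⁻¹ ∈ HV b K := hg.2
  show nW b K L * (b1m b K i 1 * g * (b1m b K i 1)⁻¹) * (nW b K L)⁻¹ ∈ HV b K
  have e : nW b K L * (b1m b K i 1 * g * (b1m b K i 1)⁻¹) * (nW b K L)⁻¹ =
      nW b K L * b1m b K i 1 * g * (nW b K L * b1m b K i 1)⁻¹ := by group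
  rw [e]
  exact h2

/-- For `w α_i > 0` the elements `g` of `U_w` have `c_i(g) = 0`. PROOF. `n = n_w`, `v = n g n⁻¹ ∈ V(K)`, `v n = n g`. At the place `(inl j, inr (-i))`: `(v n) = ∑_k v (inl j) k * n k (inr (-i))`; `n k (inr (-i)) ≠ 0` only for `k = inr (w (-i)) = inr (-(w i))` (`IsN.vr`, `b1_neg`), a negative root, so `v (inl j) k = 0` (`v ∈ V`,
`ht k ≤ 0 = ht (inl j)`, `inl j ≠ k`). And `(n g) = ∑_k n (inl j) k * g k (inr (-i))`, `n (inl j) k ≠ 0` only for `k = inl _` (`IsN.vr`: `n (inl j) (inr β) ≠ 0` would give `inl j = inr (w β)`). So `∑_k n (inl j) (inl k) g (inl k) (inr (-i)) = 0` for all `j`. Multiply by `n⁻¹ (inl j') (inl j)` and sum over `j`: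
`n⁻¹` is over `w⁻¹` (`b1_inv`), its rows `inl j'` also have only columns `inl j`, so `∑_j n⁻¹ (inl j') (inl j) n (inl j) (inl k) = (n⁻¹ n) (inl j') (inl k) = 1` or `0`: `g (inl j') (inr (-i)) = 0`. -/
theorem Uw_cc {i : b.support} {L : List b.support} (h : b.IsPos (wW b L i)) {g : GK b K} (hg : g ∈ Uw b K L) : g.1.1 (Sum.inl i) (Sum.inr (ng P i)) = 0 := by
  have hn := isn_nW b K L
  have hv : nW b K L * g * (nW b K L)⁻¹ ∈ HV b K := hg.2
  generalize nW b K L = n at hn hv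
  have hv' : ∀ r c, -ht b r ≤ -ht b c → (n * g * n⁻¹).1.1 r c = (1 : Matrix (I b) (I b) K) r c ∧
      (n * g * n⁻¹)⁻¹.1.1 r c = (1 : Matrix (I b) (I b) K) r c := hv
  have hzero : ∀ j : b.support, (n * g * n⁻¹ * n).1.1 (Sum.inl j) (Sum.inr (ng P i)) = 0 := by
    intro j
    have e1 : (n * g * n⁻¹ * n).1.1 (Sum.inl j) (Sum.inr (ng P i)) =
        ∑ k, (n * g * n⁻¹).1.1 (Sum.inl j) k * n.1.1 k (Sum.inr (ng P i)) := Matrix.mul_apply
    rw [e1]
    refine Finset.sum_eq_zero fun k _ => ?_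
    by_cases hk : n.1.1 k (Sum.inr (ng P i)) = 0
    · rw [hk, mul_zero]
    · have h1 := hn.vr k _ hk
      rw [b1_neg hn.mem] at h1
      have h2 : ht b k = -b.height (wW b L i) := by
        rw [h1]
        exact b.height_reflectionPerm_self _
      have h3 : 0 < b.height (wW b L i) := h
      have h4 : ht b (Sum.inl j) = 0 := rfl
      have h5 := (hv' (Sum.inl j) k (by rw [h2, h4]; omega)).1
      rw [h5, h1, Matrix.one_apply_ne Sum.inl_ne_inr, zero_mul]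
  have e : g = n⁻¹ * (n * g * n⁻¹ * n) := by group
  have e2 : (n⁻¹ * (n * g * n⁻¹ * n)).1.1 (Sum.inl i) (Sum.inr (ng P i)) =
      ∑ k, n⁻¹.1.1 (Sum.inl i) k * (n * g * n⁻¹ * n).1.1 k (Sum.inr (ng P i)) := Matrix.mul_apply
  rw [← e] at e2
  rw [e2]
  refine Finset.sum_eq_zero fun k _ => ?_
  rcases k with j | β
  · rw [hzero j, mul_zero]
  · have h6 : n⁻¹.1.1 (Sum.inl i) (Sum.inr β) = 0 := by
      by_contra hne
      exact Sum.inl_ne_inr ((b1_inv b K hn).vr _ _ hne)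
    rw [h6, zero_mul]

end

end Pool.Agent.Lib.H29F.Gk
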