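import Pool.Agent.Lib.H29F.GD0

/-!
# FG3 (M): integral elements; commensurability
-/

namespace Pool.Agent.Lib.H29F.Gk

set_option linter.unusedSectionVars false

open MeasureTheory Matrix NumberField IsDedekindDomain Pool.Agent.Lib.H89N Pool.Agent.Lib.H33W Pool.Agent.Lib.L1S
open scoped ENNReal

noncomputable section

variable {ι M N : Type} [Fintype ι] [DecidableEq ι] [AddCommGroup M] [Module ℚ M] [AddCommGroup N] [Module ℚ N]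
  {P : RootPairing ι ℚ M N} [P.IsCrystallographic] [P.IsReduced] [P.IsIrreducible] [P.IsRootSystem]

variable (b : P.Base) (K : Type) [Field K] [NumberField K]


/-- PROOF. `1 r c` is `0` or `1`. Membership in `G1 ⊤`: all entries of `g` and of `g⁻¹` are integral (`InI ⊤`). -/
theorem mem_G1_top {g : GK b K} (h : ∀ r c, L1S.InI ⊤ (g.1.1 r c) ∧ L1S.InI ⊤ (g⁻¹.1.1 r c)) : g ∈ G1 b (⊤ : Ideal (𝓞 K)) := by
  intro r c
  have h1 : ∀ x : K, L1S.InI ⊤ x → L1S.InI ⊤ (x - (1 : Matrix (I b) (I b) K) r c) := by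
    intro x hx
    obtain ⟨y, _, rfl⟩ := hx
    by_cases e : r = c
    · rw [e, Matrix.one_apply_eq]
      exact ⟨y - 1, Submodule.mem_top, by simp⟩
    · rw [Matrix.one_apply_ne e]
      exact ⟨y, Submodule.mem_top, by simp⟩
  exact ⟨h1 _ (h r c).1, h1 _ (h r c).2⟩

theorem G1_top_int {g : GK b K} (hg : g ∈ G1 b (⊤ : Ideal (𝓞 K))) (r c : I b) : L1S.InI ⊤ (g.1.1 r c) := by
  exact r8a_int (fun i j => (hg i j).1) r c

/-- PROOF. `xx_InI` (Lib/L1S/L127: the entries of `x_β(t) - 1` are in the ideal of `t`), `b1x_inv`. -/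
theorem x_G1 (β : ι) (r : 𝓞 K) : b1x b K β (r : K) ∈ G1 b (⊤ : Ideal (𝓞 K)) := by
  have h1 : L1S.InI (⊤ : Ideal (𝓞 K)) (r : K) := ⟨r, Submodule.mem_top, rfl⟩
  have h2 : L1S.InI (⊤ : Ideal (𝓞 K)) (-(r : K)) := ⟨-r, Submodule.mem_top, by simp⟩
  intro i j
  refine ⟨xx_InI b ⊤ β h1 i j, ?_⟩
  rw [b1x_inv]
  exact xx_InI b ⊤ β h2 i j

/-- PROOF. `m_i(1) = x_i(1) x_(-i)(-1) x_i(1)` (definition of `mG`, Lib/L1S/L122), `x_G1`, `mul_mem`. -/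
theorem m_G1 (i : b.support) : b1m b K i 1 ∈ G1 b (⊤ : Ideal (𝓞 K)) := by
  have e : b1m b K i 1 = b1x b K (i : ι) ((1 : 𝓞 K) : K) * b1x b K (ng P i) ((-1 : 𝓞 K) : K) * b1x b K (i : ι) ((1 : 𝓞 K) : K) := by
    apply Subtype.ext
    show mG b i (1 : Kˣ) = xG b (i : ι) ((1 : 𝓞 K) : K) * xG b (ng P i) ((-1 : 𝓞 K) : K) * xG b (i : ι) ((1 : 𝓞 K) : K)
    have e1 : ((1 : 𝓞 K) : K) = 1 := by simp
    have e2 : ((-1 : 𝓞 K) : K) = -1 := by simp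
    rw [e1, e2]
    unfold mG
    rw [inv_one, Units.val_one]
  rw [e]
  exact mul_mem (mul_mem (x_G1 b K _ _) (x_G1 b K _ _)) (x_G1 b K _ _)

/-- `K` has a finite prime. PROOF. `𝓞 K` is not a field (`RingOfIntegers.not_isField`), `Ideal.exists_maximal`, `Ring.ne_bot_of_isMaximal_of_not_isField`. -/
theorem ex_prime : Nonempty (HeightOneSpectrum (𝓞 K)) := by
  obtain ⟨M, hM⟩ := Ideal.exists_maximal (𝓞 K)
  exact ⟨⟨M, hM.isPrime, Ring.ne_bot_of_isMaximal_of_not_isField hM (RingOfIntegers.not_isField K)⟩⟩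

/-- PROOF. `v ^ 0 = ⊤`; the entries of `g` are integral. -/
theorem G1_eq (𝔫 : Ideal (𝓞 K)) (v : HeightOneSpectrum (𝓞 K)) : G1 b 𝔫 = GamK b 𝔫 v 0 0 := by
  have e0 : v.asIdeal ^ (0 + 0) = ⊤ := by rw [add_zero, pow_zero, Ideal.one_eq_top]
  have e1 : v.asIdeal ^ 0 = ⊤ := by rw [pow_zero, Ideal.one_eq_top]
  ext g
  constructor
  · intro hg i j
    have key : ∀ x : Matrix (I b) (I b) K, (∀ i j, L1S.InI 𝔫 ((x - 1) i j)) → ∀ i j,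
        L1S.InI 𝔫 ((x - 1) i j) ∧ (ht b i < ht b j → L1S.InI (v.asIdeal ^ (0 + 0)) (x i j)) ∧
          (ht b i = ht b j → L1S.InI (v.asIdeal ^ 0) ((x - 1) i j)) := by
      intro x hx i j
      rw [e0]
      exact ⟨hx i j, fun _ => r8a_int hx i j, fun _ => (hx i j).top⟩
    exact ⟨key _ (fun i j => (hg i j).1) i j, key _ (fun i j => (hg i j).2) i j⟩
  · intro hg i j
    exact ⟨(hg i j).1.1, (hg i j).2.1⟩

/-- **Commensurability.** PROOF. `cz (G1 𝔫) z = Gh b 𝔫 v 0 0 z⁻¹` (`Gh b 𝔫 v r s h` is `h⁻¹ Γ h`: `Gh = (GamK ..).comap (conj h)`), `G1 ⊤ = Gh b ⊤ v 0 0 1`, `r9_comm` (Lib/L1S/R9B) twice, `ex_prime`, `G1_eq`. -/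
theorem G1_comm {𝔫 : Ideal (𝓞 K)} (h𝔫 : 𝔫 ≠ ⊥) (z : GK b K) : (cz (G1 b 𝔫) z).relIndex (G1 b (⊤ : Ideal (𝓞 K))) ≠ 0 ∧ (G1 b (⊤ : Ideal (𝓞 K))).relIndex (cz (G1 b 𝔫) z) ≠ 0 := by
  obtain ⟨v⟩ := ex_prime K
  have e1 : cz (G1 b 𝔫) z = Gh b 𝔫 v 0 0 z⁻¹ := by
    rw [G1_eq b K 𝔫 v]
    rfl
  have e2 : G1 b (⊤ : Ideal (𝓞 K)) = Gh b ⊤ v 0 0 1 := by
    rw [G1_eq b K ⊤ v]
    ext x
    rw [mem_Gh, one_mul, inv_one, mul_one]
  rw [e1, e2]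
  exact ⟨r9_comm h𝔫 v v 0 0 0 0 z⁻¹ 1, r9_comm top_ne_bot v v 0 0 0 0 1 z⁻¹⟩

end

end Pool.Agent.Lib.H29F.Gk
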