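import Pool.Agent.Lib.H29F.FG2

/-!
# FG4 (M): the groups `U_w`, part 2
-/

namespace Pool.Agent.Lib.H29F.Gk

set_option linter.unusedSectionVars false

open MeasureTheory Matrix NumberField IsDedekindDomain Pool.Agent.Lib.H89N Pool.Agent.Lib.H33W Pool.Agent.Lib.L1S
open scoped ENNReal

noncomputable section

variable {ι M N : Type} [Fintype ι] [DecidableEq ι] [AddCommGroup M] [Module ℚ M] [AddCommGroup N] [Module ℚ N]
  {P : RootPairing ι ℚ M N} [P.IsCrystallographic] [P.IsReduced] [P.IsIrreducible] [P.IsRootSystem]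

variable (b : P.Base) (K : Type) [Field K] [NumberField K]


/-- PROOF. `h = n_i⁻¹ g n_i`, `n_i⁻¹ = m_i(-1)` (`m_inv`), `Uw_cc` and `m_conj_K` (for `s = -1`, `m_i(-1)⁻¹ = m_i(1)`): `h ∈ U(K)`, and `n_(w s_i) h n_(w s_i)⁻¹ = n_w g n_w⁻¹ ∈ V(K)`. `c_i(h) = 0`: `h = h1 x_i(r)` with `r = c_i(h)` and `n_i h1 n_i⁻¹ ∈ U(K)` (`b1_split`, its `r` is `c_i(h)` by `cc_mul`, `cc_x` and
`c_i(h1) = 0`; or put `h1 = h x_i(-r)` and use `m_conj_K`), `n_i h n_i⁻¹ = g ∈ U(K)`, so `n_i x_i(r) n_i⁻¹ ∈ U(K)`; it is `x_(-i)(c r)`, `c ≠ 0` (`b1_conj`, `s_i α_i = - α_i`), in `V(K)` (`x_HV`), so it is `1` (`HU_HV`), so `x_i(r) = 1` and `r = 0` (`cc_x`). -/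
theorem Uw_up {i : b.support} {L : List b.support} (h : b.IsPos (wW b L i)) {g : GK b K} (hg : g ∈ Uw b K L) :
    (b1m b K i 1)⁻¹ * g * b1m b K i 1 ∈ Uw b K (i :: L) ∧ ((b1m b K i 1)⁻¹ * g * b1m b K i 1).1.1 (Sum.inl i) (Sum.inr (ng P i)) = 0 := by
  have hi : b.IsPos (i : ι) := b.isPos_of_mem_support i.2
  have hgU : g ∈ HU b K := hg.1
  have hgV : nW b K L * g * (nW b K L)⁻¹ ∈ HV b K := hg.2
  obtain ⟨m, hm⟩ : ∃ m : GK b K, m = b1m b K i 1 := ⟨_, rfl⟩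
  have hminv : m⁻¹ = b1m b K i (-1) := by
    rw [hm]
    exact m_inv b K i 1
  have hU : m⁻¹ * g * m ∈ HU b K := by
    have h1 : b1m b K i (-1) * g * (b1m b K i (-1))⁻¹ ∈ HU b K := m_conj_K b i (-1) hgU (Uw_cc b K h hg)
    rw [← hminv, inv_inv] at h1
    exact h1
  rw [← hm]
  refine ⟨⟨hU, ?_⟩, ?_⟩
  · show nW b K (i :: L) * (m⁻¹ * g * m) * (nW b K (i :: L))⁻¹ ∈ HV b K
    have h2 : nW b K (i :: L) * (m⁻¹ * g * m) * (nW b K (i :: L))⁻¹ = nW b K L * g * (nW b K L)⁻¹ := by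
      show nW b K L * b1m b K i 1 * (m⁻¹ * g * m) * (nW b K L * b1m b K i 1)⁻¹ = _
      rw [← hm]
      group
    rw [h2]
    exact hgV
  · obtain ⟨r, hr⟩ : ∃ r : K, r = (m⁻¹ * g * m).1.1 (Sum.inl i) (Sum.inr (ng P i)) := ⟨_, rfl⟩
    have hx : b1x b K i (-r) ∈ HU b K := b1_pos b K _ hi _
    have h1 : (m⁻¹ * g * m * b1x b K i (-r)).1.1 (Sum.inl i) (Sum.inr (ng P i)) = 0 := by
      rw [cc_mul b K i hU hx, cc_x, ← hr, add_neg_cancel]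
    have h2 : b1m b K i 1 * (m⁻¹ * g * m * b1x b K i (-r)) * (b1m b K i 1)⁻¹ ∈ HU b K :=
      m_conj_K b i 1 (mul_mem hU hx) h1
    rw [← hm] at h2
    have h3 : m * b1x b K i (-r) * m⁻¹ ∈ HU b K := by
      have h4 : m * b1x b K i (-r) * m⁻¹ = g⁻¹ * (m * (m⁻¹ * g * m * b1x b K i (-r)) * m⁻¹) := by group
      rw [h4]
      exact mul_mem (inv_mem hgU) h2
    obtain ⟨c, hc, hconj⟩ := b1_conj b K (b1_m b K i 1) (i : ι)
    have h5 : m * b1x b K i (-r) * m⁻¹ = b1x b K (P.reflectionPerm i i) (c * (-r)) := by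
      rw [hm, hconj, mul_inv_cancel_right]
    have h6 : m * b1x b K i (-r) * m⁻¹ ∈ HV b K := by
      rw [h5]
      exact x_HV b K (wW_neg b (L := []) hi) _
    have h7 : m * b1x b K i (-r) * m⁻¹ = 1 := by
      have h8 : m * b1x b K i (-r) * m⁻¹ ∈ HU b K ⊓ HV b K := ⟨h3, h6⟩
      rw [HU_HV b K] at h8
      exact Subgroup.mem_bot.1 h8
    have h9 : b1x b K i (-r) = 1 := by
      have h10 : b1x b K i (-r) = m⁻¹ * (m * b1x b K i (-r) * m⁻¹) * m := by group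
      rw [h10, h7]
      group
    have h11 := cc_x b K i (-r)
    rw [h9] at h11
    have h12 : (1 : GK b K).1.1 (Sum.inl i) (Sum.inr (ng P i)) = 0 := Matrix.one_apply_ne Sum.inl_ne_inr
    rw [h12] at h11
    rw [← hr]
    exact neg_eq_zero.1 h11.symm

/-- **Bruhat, refined.** For reduced `L` and `u ∈ U(K)`: `n_w u = u' n_w u₁` with `u' ∈ U(K)`, `u₁ ∈ U_w`. PROOF. Induction on `L`. `i :: L`: `u = h x_i(r)`, `c_i(h) = 0` (as above), `g = n_i h n_i⁻¹ ∈ U(K)` (`m_conj_K`), `n_w g = u' n_w u₂` with `u₂ ∈ U_w`, so `n_w n_i u = n_w g n_i x_i(r) = u' n_w u₂ n_i x_i(r) =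
u' (n_w n_i) (n_i⁻¹ u₂ n_i x_i(r))`, and `n_i⁻¹ u₂ n_i ∈ U_(w s_i)` (`Uw_up`), `x_i(r) ∈ U_(w s_i)` (`x_Uw`). -/
theorem Uw_bruhat {L : List b.support} (hL : RedW b L) {u : GK b K} (hu : u ∈ HU b K) : ∃ u' ∈ HU b K, ∃ u₁ ∈ Uw b K L, nW b K L * u = u' * nW b K L * u₁ := by
  induction L generalizing u with
  | nil => exact ⟨u, hu, 1, one_mem _, by
      rw [mul_one]
      show 1 * u = u * 1
      rw [one_mul, mul_one]⟩
  | cons i L ih =>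
    have hi : b.IsPos (i : ι) := b.isPos_of_mem_support i.2
    obtain ⟨r, hr⟩ : ∃ r : K, r = u.1.1 (Sum.inl i) (Sum.inr (ng P i)) := ⟨_, rfl⟩
    have hx : b1x b K i (-r) ∈ HU b K := b1_pos b K _ hi _
    have hc : (u * b1x b K i (-r)).1.1 (Sum.inl i) (Sum.inr (ng P i)) = 0 := by
      rw [cc_mul b K i hu hx, cc_x, ← hr, add_neg_cancel]
    have hg : b1m b K i 1 * (u * b1x b K i (-r)) * (b1m b K i 1)⁻¹ ∈ HU b K := m_conj_K b i 1 (mul_mem hu hx) hc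
    obtain ⟨u', hu', u₂, hu₂, he⟩ := ih hL.2 hg
    refine ⟨u', hu', (b1m b K i 1)⁻¹ * u₂ * b1m b K i 1 * b1x b K i r, mul_mem (Uw_up b K hL.1 hu₂).1 (x_Uw b K hL.1 r), ?_⟩
    have h1 : u = u * b1x b K i (-r) * b1x b K i r := by
      rw [← b1x_inv, inv_mul_cancel_right]
    show nW b K L * b1m b K i 1 * u = u' * (nW b K L * b1m b K i 1) * ((b1m b K i 1)⁻¹ * u₂ * b1m b K i 1 * b1x b K i r)
    have h2 : nW b K L * b1m b K i 1 * u = (nW b K L * (b1m b K i 1 * (u * b1x b K i (-r)) * (b1m b K i 1)⁻¹)) * b1m b K i 1 * b1x b K i r := by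
      conv_lhs => rw [h1]
      group
    rw [h2, he]
    group

end

end Pool.Agent.Lib.H29F.Gk
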