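import Pool.Agent.Lib.H29F.FG4
import Pool.Agent.Lib.H29F.FG3

/-!
# FG5: the group data of `G(K)`
-/

namespace Pool.Agent.Lib.H29F.Gk

set_option linter.unusedSectionVars false

open MeasureTheory Matrix NumberField IsDedekindDomain Pool.Agent.Lib.H89N Pool.Agent.Lib.H33W Pool.Agent.Lib.L1S
open scoped ENNReal

noncomputable section

variable {ι M N : Type} [Fintype ι] [DecidableEq ι] [AddCommGroup M] [Module ℚ M] [AddCommGroup N] [Module ℚ N]
  {P : RootPairing ι ℚ M N} [P.IsCrystallographic] [P.IsReduced] [P.IsIrreducible] [P.IsRootSystem]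

variable (b : P.Base) (K : Type) [Field K] [NumberField K]


/-- The group data. -/
def gD : GDat (GK b K) b.support K where
  x i r := b1x b K i r
  n i := b1m b K i 1
  UW L := Uw b K L
  c i g := g.1.1 (Sum.inl i) (Sum.inr (ng P i))
  Rd L := RedW b L
  rd_tail _ _ h := h.2
  uw_nil := by
    rw [← HU_HV b K]
    unfold Uw
    congr 1
    ext g
    rw [Subgroup.mem_comap]
    show nW b K [] * g * (nW b K [])⁻¹ ∈ _ ↔ _
    rw [show nW b K [] = 1 from rfl, one_mul, inv_one, mul_one]
  x_add i r s := b1x_add b K i r s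
  c_mul i L _ g hg h hh := cc_mul b K i hg.1 hh.1
  x_mem i L h r := x_Uw b K h.1 r
  c_x i r := cc_x b K i r
  down i L _ g hg h0 := Uw_down b K hg h0
  up i L h g hg := Uw_up b K h.1 hg
  GO := G1 b ⊤
  n_O i := m_G1 b K i
  x_O i r := x_G1 b K i r
  c_O i L _ g _ hg := by
    obtain ⟨y, _, hy⟩ := G1_top_int b K hg (Sum.inl i) (Sum.inr (ng P i))
    exact ⟨y, hy.symm⟩

theorem gD_nw (L : List b.support) : (gD b K).nw L = nW b K L := by
  induction L with
  | nil => rfl
  | cons i L ih => rw [GDat.nw_cons, ih]; rfl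

end

end Pool.Agent.Lib.H29F.Gk
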