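import Pool.Agent.Lib.H29F.FH0
import Pool.Agent.Lib.H29F.FA10
import Pool.Agent.Lib.L8.FL.Defs

/-!
# FH1: the finite part in terms of `L8/FL/Defs` (helper29)
-/

namespace Pool.Agent.Lib.H29F

set_option linter.unusedSectionVars false

open MeasureTheory Matrix NumberField IsDedekindDomain Pool.Agent.Lib.H89N Pool.Agent.Lib.H33W Pool.Agent.Lib.H67G Pool.Agent.Lib.L1S
open scoped ENNReal

noncomputable section

/-! ## 1. Sums over cosets and inequivalent finite sets -/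

section general

variable {G : Type} [Group G]

/-- A sum over the cosets of `Λ` is bounded by the index `[Δ : Λ]` and a bound for sums over sets which are inequivalent modulo `Δ`. -/
theorem rs_le {U Δ Λ : Subgroup G} (hΔ : Δ ≤ U) (hm : Λ.relIndex Δ ≠ 0) (f : G → ℝ≥0∞) (hf : ∀ u, ∀ δ ∈ Δ, f (u * δ) = f u) (B : ℝ≥0∞)
    (hB : ∀ T : Finset G, (∀ u ∈ T, u ∈ U) → (∀ u ∈ T, ∀ u' ∈ T, u ≠ u' → u⁻¹ * u' ∉ Δ) → ∑ u ∈ T, f u ≤ B) : L8.FL.rs U Λ f ≤ (Λ.relIndex Δ : ℝ≥0∞) * B := by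
  classical
  unfold L8.FL.rs ce
  rw [ENNReal.tsum_eq_iSup_sum]
  refine iSup_le fun s => ?_
  rw [← Finset.sum_filter]
  set s' : Finset (G ⧸ Λ) := s.filter fun c => (Quotient.out c)⁻¹ ∈ (U : Set G) with hs'
  let π : G ⧸ Λ → G := fun c => Quotient.out (QuotientGroup.mk (Quotient.out c) : G ⧸ Δ)
  have hmk : ∀ c, (QuotientGroup.mk (π c) : G ⧸ Δ) = QuotientGroup.mk (Quotient.out c) := fun c => QuotientGroup.out_eq' _
  have hπ : ∀ c, (π c)⁻¹ * Quotient.out c ∈ Δ := fun c => QuotientGroup.eq.1 (hmk c)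
  have hfπ : ∀ c, f ((Quotient.out c)⁻¹)⁻¹ = f (π c) := by
    intro c
    have h := hf (π c) _ (hπ c)
    rw [mul_inv_cancel_left] at h
    rw [inv_inv]
    exact h
  have hU : ∀ c ∈ s', π c ∈ U := by
    intro c hc
    have h1 : Quotient.out c ∈ U := (inv_mem_iff).1 (Finset.mem_filter.1 hc).2
    have h2 := U.mul_mem h1 (inv_mem (hΔ (hπ c)))
    rwa [_root_.mul_inv_rev, inv_inv, mul_inv_cancel_left] at h2
  have hcard : ∀ t ∈ s'.image π, (s'.filter fun c => π c = t).card ≤ Λ.relIndex Δ := by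
    intro t _
    have : (Λ.subgroupOf Δ).FiniteIndex := ⟨hm⟩
    have : Finite (Δ ⧸ Λ.subgroupOf Δ) := inferInstance
    have hmem : ∀ c : {c // c ∈ s'.filter fun c => π c = t}, t⁻¹ * Quotient.out c.1 ∈ Δ := by
      intro c
      have h := hπ c.1
      rw [(Finset.mem_filter.1 c.2).2] at h
      exact h
    let F : {c // c ∈ s'.filter fun c => π c = t} → Δ ⧸ Λ.subgroupOf Δ := fun c => QuotientGroup.mk ⟨t⁻¹ * Quotient.out c.1, hmem c⟩
    have hF : Function.Injective F := by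
      intro c c' h
      have h1 := QuotientGroup.eq.1 h
      rw [Subgroup.mem_subgroupOf] at h1
      have h2 : (Quotient.out c.1)⁻¹ * Quotient.out c'.1 ∈ Λ := by
        have e : (t⁻¹ * Quotient.out c.1)⁻¹ * (t⁻¹ * Quotient.out c'.1) = (Quotient.out c.1)⁻¹ * Quotient.out c'.1 := by group
        rw [← e]
        exact h1
      apply Subtype.ext
      rw [← QuotientGroup.out_eq' c.1, ← QuotientGroup.out_eq' c'.1]
      exact QuotientGroup.eq.2 h2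
    have h3 := Nat.card_le_card_of_injective F hF
    rw [Nat.card_eq_fintype_card, Fintype.card_coe] at h3
    exact h3
  have hT := hB (s'.image π) (fun u hu => by
    obtain ⟨c, hc, rfl⟩ := Finset.mem_image.1 hu
    exact hU c hc) (fun u hu u' hu' hne h => by
    obtain ⟨c, hc, rfl⟩ := Finset.mem_image.1 hu
    obtain ⟨c', hc', rfl⟩ := Finset.mem_image.1 hu'
    apply hne
    have h1 := QuotientGroup.eq.2 h
    rw [hmk, hmk] at h1
    show Quotient.out (QuotientGroup.mk (Quotient.out c) : G ⧸ Δ) = Quotient.out (QuotientGroup.mk (Quotient.out c') : G ⧸ Δ)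
    rw [h1])
  calc ∑ c ∈ s', f ((Quotient.out c)⁻¹)⁻¹ = ∑ c ∈ s', f (π c) := Finset.sum_congr rfl fun c _ => hfπ c
    _ = ∑ t ∈ s'.image π, ∑ c ∈ s' with π c = t, f (π c) := (Finset.sum_fiberwise_of_maps_to (fun c hc => Finset.mem_image_of_mem π hc) _).symm
    _ ≤ ∑ t ∈ s'.image π, (Λ.relIndex Δ : ℝ≥0∞) * f t := by
      refine Finset.sum_le_sum fun t ht => ?_
      rw [Finset.sum_congr rfl (g := fun _ => f t) fun c hc => by rw [(Finset.mem_filter.1 hc).2], Finset.sum_const, nsmul_eq_mul]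
      gcongr
      exact hcard t ht
    _ = (Λ.relIndex Δ : ℝ≥0∞) * ∑ t ∈ s'.image π, f t := by rw [Finset.mul_sum]
    _ ≤ _ := by gcongr

theorem gi_enn {A Δ Λ : Subgroup G} (hΛ : Λ ≤ Δ) (h1 : A.relIndex Δ ≠ 0) (h2 : Δ.relIndex A ≠ 0) (h3 : Δ.relIndex Λ ≠ 0) (h4 : Λ.relIndex Δ ≠ 0) (h5 : A.relIndex Λ ≠ 0) :
    (Λ.relIndex Δ : ℝ≥0∞) * ENNReal.ofReal (gi A Δ) = L8.FL.gi A Λ := by
  have e := gi_trans h1 h2 h3 h4
  rw [gi_le hΛ] at e
  have e2 : ENNReal.ofReal (gi A Λ) = L8.FL.gi A Λ := by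
    unfold gi L8.FL.gi
    rw [ENNReal.ofReal_div_of_pos (by exact_mod_cast Nat.pos_of_ne_zero h5), ENNReal.ofReal_natCast, ENNReal.ofReal_natCast]
  rw [← e2, ← e, mul_comm, ENNReal.ofReal_mul (by unfold gi; positivity), ENNReal.ofReal_natCast]

end general

/-! ## 2. The definitions agree -/

variable {ι M N : Type} [Fintype ι] [DecidableEq ι] [AddCommGroup M] [Module ℚ M] [AddCommGroup N] [Module ℚ N]
  {P : RootPairing ι ℚ M N} [P.IsCrystallographic] [P.IsReduced] [P.IsIrreducible] [P.IsRootSystem]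

variable {b : P.Base} {K : Type} [Field K] [NumberField K]

theorem nW_eq (L : List b.support) : Gk.nW b K L = L8.FL.nW b K L := by
  induction L with
  | nil => rfl
  | cons i L ih =>
    show Gk.nW b K L * b1m b K i 1 = L8.FL.nW b K L * b1m b K i 1
    rw [ih]

theorem wW_eq (L : List b.support) : Gk.wW b L = L8.FL.wW b L := by
  induction L with
  | nil => rfl
  | cons i L ih =>
    show Gk.wW b L * P.reflectionPerm i = L8.FL.wW b L * P.reflectionPerm i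
    rw [ih]

theorem RedW_iff (L : List b.support) : Gk.RedW b L ↔ L8.FL.RedW b L := by
  induction L with
  | nil => rfl
  | cons i L ih =>
    show (b.IsPos (Gk.wW b L i) ∧ Gk.RedW b L) ↔ (b.IsPos (L8.FL.wW b L i) ∧ L8.FL.RedW b L)
    rw [wW_eq, ih]

theorem Uw_eq (L : List b.support) : Gk.Uw b K L = L8.FL.Uw b K L := by
  show HU b K ⊓ (Gk.HV b K).comap (MulAut.conj (Gk.nW b K L)).toMonoidHom = HU b K ⊓ (L8.FL.HV b K).comap (MulAut.conj (L8.FL.nW b K L)).toMonoidHom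
  rw [nW_eq]
  rfl

theorem G1_eq (𝔫 : Ideal (𝓞 K)) : Gk.G1 b 𝔫 = L8.FL.G1 b 𝔫 := rfl

theorem aI_eq (v : HeightOneSpectrum (𝓞 K)) (𝔫 : Ideal (𝓞 K)) : L8.FL.aI v 𝔫 = nv 𝔫 v := by
  unfold L8.FL.aI nv
  rw [inv_pow, ← _root_.zpow_natCast, ← _root_.zpow_neg]

theorem Gv_iff (v : HeightOneSpectrum (𝓞 K)) (k : GK b K) : k ∈ L8.FL.Gv b v ↔ L8.FI.Iv (av v) k :=
  ⟨fun h => ⟨fun r c => (h r c).1, fun r c => (h r c).2⟩, fun h r c => ⟨h.1 r c, h.2 r c⟩⟩

theorem Kv_iff (𝔫 : Ideal (𝓞 K)) (v : HeightOneSpectrum (𝓞 K)) (k : GK b K) : k ∈ L8.FL.Kv b 𝔫 v ↔ L8.FI.Cg (av v) (nv 𝔫 v) k := by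
  rw [← aI_eq]
  exact ⟨fun h => ⟨fun r c => (h r c).1, fun r c => (h r c).2⟩, fun h r c => ⟨h.1 r c, h.2 r c⟩⟩

theorem PJ_iff (j : b.support) (p : GK b K) : p ∈ L8.FL.PJ b K j ↔ L8.FI.Pj j p := by
  have h : ∀ r c : I b, mc b j r < mc b j c ↔ wq b r j < wq b c j := by
    intro r c
    rw [← iw_mc, ← iw_mc]
    exact (Int.cast_lt).symm
  exact ⟨fun hp r c hrc => hp r c ((h r c).2 hrc), fun hp r c hrc => hp r c ((h r c).1 hrc)⟩

/-- The level condition. -/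
theorem Chi_iff (𝔫 : Ideal (𝓞 K)) (j : b.support) (g : GK b K) : L8.FL.Chi b 𝔫 j g ↔ ∀ v, L8.FI.Chi (av v) j (nv 𝔫 v) g := by
  refine forall_congr' fun v => ?_
  constructor
  · rintro ⟨p, hp, k, hk, e⟩
    exact ⟨p, (PJ_iff j p).1 hp, k, (Kv_iff 𝔫 v k).1 hk, e⟩
  · rintro ⟨p, hp, k, hk, e⟩
    exact ⟨p, (PJ_iff j p).2 hp, k, (Kv_iff 𝔫 v k).2 hk, e⟩

theorem TK_iff (t : GK b K) : t ∈ L8.FL.TK b K ↔ L8.FI.Tor t :=
  ⟨fun h r c hrc => (h r c hrc).1, fun h r c hrc => ⟨h r c hrc, h.inv r c hrc⟩⟩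

/-- The Iwasawa decomposition at `v`. -/
theorem IwA_exists (v : HeightOneSpectrum (𝓞 K)) (g : GK b K) : ∃ a, L8.FL.IwA b v g a := by
  obtain ⟨u, s, t, k, hu, ht, hk, e⟩ := L8.FI.iwasawa (Gk.av_na v) g
  exact ⟨_, u, (mem_HU_iff b u).2 hu, t, (TK_iff t).2 ht.tor, k, (Gv_iff v k).2 hk, e, fun _ => rfl⟩

theorem IwA_val {v : HeightOneSpectrum (𝓞 K)} {g : GK b K} {a : b.support → ℝ} (h : L8.FL.IwA b v g a) (i : b.support) : a i = L8.FI.Av (av v) i g := by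
  obtain ⟨u, hu, t, ht, k, hk, rfl, h⟩ := h
  rw [h i, L8.FI.Av_eq (Gk.av_na v) (Gk.HU_Uu hu) ((TK_iff t).1 ht) ((Gv_iff v k).1 hk)]
  rfl

/-- The heights agree. -/
theorem Ah_eq (v : HeightOneSpectrum (𝓞 K)) (g : GK b K) (k : b.support) : L8.FL.Ah b v g k = L8.FI.Av (av v) k g := by
  have h : L8.FL.IwA b v g (L8.FL.Ah b v g) := by
    unfold L8.FL.Ah
    rw [dif_pos (IwA_exists v g)]
    exact (IwA_exists v g).choose_spec
  exact IwA_val h k

theorem Ah_IwA (v : HeightOneSpectrum (𝓞 K)) (g : GK b K) : L8.FL.IwA b v g (L8.FL.Ah b v g) := by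
  unfold L8.FL.Ah
  rw [dif_pos (IwA_exists v g)]
  exact (IwA_exists v g).choose_spec

theorem Ah_pos (v : HeightOneSpectrum (𝓞 K)) (g : GK b K) (k : b.support) : 0 < L8.FL.Ah b v g k := by
  rw [Ah_eq]
  exact L8.FI.Av_pos (Gk.av_na v) k g

/-- The set of the finite places at which some height of `g` is not one. -/
theorem Ah_fin (g : GK b K) : {v : HeightOneSpectrum (𝓞 K) | ∃ k, L8.FL.Ah b v g k ≠ 1}.Finite := by
  have h : {v : HeightOneSpectrum (𝓞 K) | ∃ k, L8.FL.Ah b v g k ≠ 1} = ⋃ k, {v | L8.FI.Av (av v) k g ≠ 1} := by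
    ext v
    rw [Set.mem_iUnion]
    exact exists_congr fun k => by rw [Ah_eq]; rfl
  rw [h]
  exact Set.finite_iUnion fun k => Gk.Av_fin k g

/-- The product over the places and the simple roots. -/
theorem fe_swap {J X : Type} [Fintype J] (A : J → X → ℝ) (hA : ∀ k v, 0 < A k v) (hf : ∀ k, {v | A k v ≠ 1}.Finite) (e : J → ℝ) :
    ∏ᶠ v, ∏ k, A k v ^ e k = ∏ k, (∏ᶠ v, A k v) ^ e k := by
  classical
  have hfin : (⋃ k, {v | A k v ≠ 1}).Finite := Set.finite_iUnion hf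
  have h1 : ∀ k, ∏ᶠ v, A k v = ∏ v ∈ hfin.toFinset, A k v := fun k => finprod_eq_prod_of_mulSupport_subset _ fun v hv => by
    rw [Set.Finite.coe_toFinset]
    exact Set.mem_iUnion.2 ⟨k, hv⟩
  have h2 : ∏ᶠ v, ∏ k, A k v ^ e k = ∏ v ∈ hfin.toFinset, ∏ k, A k v ^ e k := finprod_eq_prod_of_mulSupport_subset _ fun v hv => by
    rw [Set.Finite.coe_toFinset]
    by_contra h
    apply hv
    show ∏ k, A k v ^ e k = 1
    refine Finset.prod_eq_one fun k _ => ?_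
    have h3 : A k v = 1 := by
      by_contra h4
      exact h (Set.mem_iUnion.2 ⟨k, h4⟩)
    rw [h3, Real.one_rpow]
  rw [h2, Finset.prod_comm]
  refine Finset.prod_congr rfl fun k _ => ?_
  rw [h1, Real.finsetProd_rpow _ _ fun v _ => (hA k v).le]

/-- The height functions agree. -/
theorem fe_eq {𝔫 : Ideal (𝓞 K)} (h𝔫 : 𝔫 ≠ ⊥) (e : b.support → ℝ) (g : GK b K) : L8.FL.fe b e g = fe (Gk.hD (b := b) h𝔫) e g := by
  unfold L8.FL.fe
  simp_rw [Ah_eq]
  exact fe_swap (fun k v => L8.FI.Av (av v) k g) (fun k v => L8.FI.Av_pos (Gk.av_na v) k g) (fun k => Gk.Av_fin k g) e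

theorem fl_fe_pos (e : b.support → ℝ) (g : GK b K) : 0 < L8.FL.fe b e g := by
  rw [fe_eq top_ne_bot]
  exact fe_pos _ _ _

/-- `f_e(g k) = f_e(g)` for `k` integral. -/
theorem fe_mul (e : b.support → ℝ) (g : GK b K) {k : GK b K} (hk : k ∈ L8.FL.G1 b (⊤ : Ideal (𝓞 K))) : L8.FL.fe b e (g * k) = L8.FL.fe b e g := by
  rw [fe_eq top_ne_bot, fe_eq top_ne_bot]
  exact fe_right _ _ _ hk

/-- `f_e(u g) = f_e(g)` for `u` unipotent. -/
theorem fe_U (e : b.support → ℝ) {u : GK b K} (hu : u ∈ HU b K) (g : GK b K) : L8.FL.fe b e (u * g) = L8.FL.fe b e g := by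
  unfold L8.FL.fe
  refine finprod_congr fun v => Finset.prod_congr rfl fun k _ => ?_
  rw [Ah_eq, Ah_eq, L8.FI.Av_U (Gk.av_na v) (Gk.HU_Uu hu)]

theorem av_fin_ne {x : K} (hx : x ≠ 0) : {v : HeightOneSpectrum (𝓞 K) | av v x ≠ 1}.Finite := by
  refine ((Gk.av_fin x).union (Gk.av_fin x⁻¹)).subset fun v hv => ?_
  by_contra h
  rw [Set.mem_union, not_or] at h
  have h1 : av v x ≤ 1 := not_not.1 h.1
  have h2 : av v x⁻¹ ≤ 1 := not_not.1 h.2
  rw [map_inv₀] at h2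
  have h3 : 0 < av v x := (av v).pos hx
  exact hv (le_antisymm h1 ((inv_le_one₀ h3).1 h2))

/-- `f_e(t u g) = ∏_v ∏_k |α_k(t)|_v ^ e_k f_e(g)`. -/
theorem fe_T (e : b.support → ℝ) {t : GK b K} (ht : t ∈ L8.FL.TK b K) (g : GK b K) :
    L8.FL.fe b e (t * g) = (∏ᶠ v : HeightOneSpectrum (𝓞 K), ∏ k, L8.FL.av v (L8.FL.tv b K t k) ^ e k) * L8.FL.fe b e g := by
  have hT := (TK_iff t).1 ht
  have h0 : ∀ k : b.support, L8.FL.tv b K t k ≠ 0 := fun k => hT.ne _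
  unfold L8.FL.fe
  rw [← finprod_mul_distrib]
  · refine finprod_congr fun v => ?_
    rw [← Finset.prod_mul_distrib]
    refine Finset.prod_congr rfl fun k _ => ?_
    rw [Ah_eq, Ah_eq, L8.FI.Av_T (Gk.av_na v) hT, Real.mul_rpow (AbsoluteValue.nonneg _ _) (L8.FI.Av_pos (Gk.av_na v) k g).le]
    rfl
  · refine (Set.finite_iUnion fun k : b.support => av_fin_ne (h0 k)).subset fun v hv => ?_
    by_contra h
    apply hv
    refine Finset.prod_eq_one fun k _ => ?_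
    have h3 : L8.FL.av v (L8.FL.tv b K t k) = 1 := by
      by_contra h4
      exact h (Set.mem_iUnion.2 ⟨k, h4⟩)
    rw [h3, Real.one_rpow]
  · refine (Ah_fin g).subset fun v hv => ?_
    by_contra h
    apply hv
    refine Finset.prod_eq_one fun k _ => ?_
    have h3 : L8.FL.Ah b v g k = 1 := by
      by_contra h4
      exact h ⟨k, h4⟩
    rw [h3, Real.one_rpow]

/-- The level condition is invariant under `Γ(𝔫)`. -/
theorem Chi_mul {𝔫 : Ideal (𝓞 K)} (h𝔫 : 𝔫 ≠ ⊥) (j : b.support) (g : GK b K) {k : GK b K} (hk : k ∈ L8.FL.G1 b 𝔫) : L8.FL.Chi b 𝔫 j (g * k) ↔ L8.FL.Chi b 𝔫 j g := by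
  rw [Chi_iff, Chi_iff]
  exact forall_congr' fun v => L8.FI.Chi_K (Gk.av_na v) (Gk.nv_le 𝔫 v) (Gk.nv_nonneg 𝔫 v) (Gk.G1_Cg h𝔫 hk v) g

/-- At the places prime to `𝔫` the level condition is empty. -/
theorem Chi_prime {𝔫 : Ideal (𝓞 K)} {v : HeightOneSpectrum (𝓞 K)} (hv : L8.FL.aI v 𝔫 = 1) (j : b.support) (g : GK b K) :
    ∃ p ∈ L8.FL.PJ b K j, ∃ k ∈ L8.FL.Kv b 𝔫 v, g = p * k := by
  rw [aI_eq] at hv
  obtain ⟨p, hp, k, hk, e⟩ := L8.FI.Chi_triv (Gk.av_na v) j g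
  rw [← hv] at hk
  exact ⟨p, (PJ_iff j p).2 hp, k, (Kv_iff 𝔫 v k).2 hk, e⟩

/-! ## 3. The parameters -/

theorem mu_eq (e : b.support → ℝ) (i : b.support) : mu (fun k i : b.support => P.pairingIn ℤ (k : ι) (i : ι)) i e = L8.FL.mu b e i := rfl

theorem se_eq (e : b.support → ℝ) (i : b.support) : sE (fun k i : b.support => P.pairingIn ℤ (k : ι) (i : ι)) i e = L8.FL.se b i e := by
  funext k
  unfold sE L8.FL.se
  rw [mu_eq, Function.update_apply]
  split_ifs with h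
  · rw [h]
  · rfl

theorem ew_eq (e : b.support → ℝ) (L : List b.support) : ew (fun k i : b.support => P.pairingIn ℤ (k : ι) (i : ι)) e L = L8.FL.eW b e L := by
  induction L with
  | nil => rfl
  | cons i L ih =>
    show sE _ i (ew _ e L) = L8.FL.se b i (L8.FL.eW b e L)
    rw [ih, se_eq]

theorem Adm_iff (κ : ℝ) (e : b.support → ℝ) (L : List b.support) : Adm (fun k i : b.support => P.pairingIn ℤ (k : ι) (i : ι)) (κ - 1) e L ↔ L8.FL.PosW b κ e L := by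
  induction L with
  | nil => rfl
  | cons i L ih =>
    show (1 + (κ - 1) ≤ mu _ i (ew _ e L) ∧ Adm _ (κ - 1) e L) ↔ (κ ≤ L8.FL.mu b (L8.FL.eW b e L) i ∧ L8.FL.PosW b κ e L)
    rw [ih, ew_eq, mu_eq, add_sub_cancel]

end

end Pool.Agent.Lib.H29F
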