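import Pool.Agent.Lib.H29F.FH1

/-!
# FH2: the finite part (C4) of the flagship, final form (helper29)
-/

namespace Pool.Agent.Lib.H29F

set_option linter.unusedSectionVars false

open MeasureTheory Matrix NumberField IsDedekindDomain Pool.Agent.Lib.H89N Pool.Agent.Lib.H33W Pool.Agent.Lib.H67G Pool.Agent.Lib.L1S
open scoped ENNReal

noncomputable section

variable {ι M N : Type} [Fintype ι] [DecidableEq ι] [AddCommGroup M] [Module ℚ M] [AddCommGroup N] [Module ℚ N]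
  {P : RootPairing ι ℚ M N} [P.IsCrystallographic] [P.IsReduced] [P.IsIrreducible] [P.IsRootSystem]

variable {b : P.Base} {K : Type} [Field K] [NumberField K]

theorem a_diag (i : b.support) : (fun k i : b.support => P.pairingIn ℤ (k : ι) (i : ι)) i i = 2 := by
  show P.pairingIn ℤ (i : ι) (i : ι) = 2
  exact P.pairingIn_same ℤ _

/-- The group data and the commensurability of the intersections with `U_w`. -/
theorem U_comm {𝔫 : Ideal (𝓞 K)} (h𝔫 : 𝔫 ≠ ⊥) (L : List b.support) (z : GK b K) :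
    Subgroup.Commensurable (L8.FL.Uw b K L ⊓ L8.FL.G1 b ⊤) (L8.FL.Uw b K L ⊓ cz (L8.FL.G1 b 𝔫) z) :=
  inf_comm _ ⟨(Gk.hD (b := b) h𝔫).comm2 z, (Gk.hD (b := b) h𝔫).comm1 z⟩

/-- **The finite part, general form**: a bound for the sums over inequivalent sets gives the bound for the sum over the cosets of `Λ`. -/
theorem rs_fin {𝔫 : Ideal (𝓞 K)} (h𝔫 : 𝔫 ≠ ⊥) (L : List b.support) (z : GK b K) {Λ : Subgroup (GK b K)} (hΛ : Λ ≤ L8.FL.Uw b K L) (hz : ∀ l ∈ Λ, z⁻¹ * l * z ∈ L8.FL.G1 b 𝔫)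
    (h1 : Λ.relIndex (L8.FL.Uw b K L ⊓ L8.FL.G1 b ⊤) ≠ 0) (h2 : (L8.FL.Uw b K L ⊓ L8.FL.G1 b ⊤).relIndex Λ ≠ 0) (p : GK b K → Prop) [DecidablePred p] (f : GK b K → ℝ)
    (hp : ∀ u, ∀ δ ∈ cz (L8.FL.G1 b 𝔫) z, p (u * δ) ↔ p u) (hf0 : ∀ u, 0 ≤ f u) (hf : ∀ u, ∀ δ ∈ cz (L8.FL.G1 b 𝔫) z, f (u * δ) = f u) {B : ℝ} (hB0 : 0 ≤ B)
    (hB : ∀ T : Finset (GK b K), (∀ u ∈ T, u ∈ L8.FL.Uw b K L) → (∀ u ∈ T, ∀ u' ∈ T, u ≠ u' → u⁻¹ * u' ∉ cz (L8.FL.G1 b 𝔫) z) → (∀ u ∈ T, p u) →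
      ∑ u ∈ T, f u ≤ B * gi (L8.FL.Uw b K L ⊓ L8.FL.G1 b ⊤) (L8.FL.Uw b K L ⊓ cz (L8.FL.G1 b 𝔫) z)) :
    L8.FL.rs (L8.FL.Uw b K L) Λ (fun u => if p u then ENNReal.ofReal (f u) else 0) ≤ ENNReal.ofReal B * L8.FL.gi (L8.FL.Uw b K L ⊓ L8.FL.G1 b ⊤) Λ := by
  classical
  set U := L8.FL.Uw b K L
  set Δ := U ⊓ cz (L8.FL.G1 b 𝔫) z with hΔ
  have hΛΔ : Λ ≤ Δ := fun l hl => ⟨hΛ hl, mem_cz.2 (hz l hl)⟩
  have hc : Subgroup.Commensurable (U ⊓ L8.FL.G1 b ⊤) Δ := U_comm h𝔫 L z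
  have hc2 : Subgroup.Commensurable Λ Δ := Subgroup.Commensurable.trans ⟨h1, h2⟩ hc
  have key := rs_le (inf_le_left : Δ ≤ U) hc2.1 (fun u => if p u then ENNReal.ofReal (f u) else 0) (fun u δ hδ => by
    show (if p (u * δ) then ENNReal.ofReal (f (u * δ)) else 0) = if p u then ENNReal.ofReal (f u) else 0
    rw [hf u δ hδ.2]
    exact if_congr (hp u δ hδ.2) rfl rfl) (ENNReal.ofReal (B * gi (U ⊓ L8.FL.G1 b ⊤) Δ)) (fun T hT hT2 => by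
    rw [← Finset.sum_filter, ← ENNReal.ofReal_sum_of_nonneg fun u _ => hf0 u]
    refine ENNReal.ofReal_le_ofReal (hB (T.filter p) (fun u hu => hT u (Finset.mem_filter.1 hu).1) (fun u hu u' hu' hne h => ?_) fun u hu => (Finset.mem_filter.1 hu).2)
    exact hT2 u (Finset.mem_filter.1 hu).1 u' (Finset.mem_filter.1 hu').1 hne ⟨U.mul_mem (inv_mem (hT u (Finset.mem_filter.1 hu).1)) (hT u' (Finset.mem_filter.1 hu').1), h⟩)
  refine key.trans (le_of_eq ?_)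
  rw [ENNReal.ofReal_mul hB0, ← gi_enn hΛΔ hc.1 hc.2 hc2.2 hc2.1 h2]
  ring

/-- **The finite part (C4).** -/
theorem fin_sum (b : P.Base) (K : Type) [Field K] [NumberField K] {κ : ℝ} (hκ : 1 < κ) : ∃ Z : ℝ, 1 ≤ Z ∧ ∀ (L : List b.support), L8.FL.RedW b L → ∀ e : b.support → ℝ, L8.FL.PosW b κ e L →
    ∀ 𝔫 : Ideal (𝓞 K), 𝔫 ≠ ⊥ → ∀ (A : Finset b.support) (z : GK b K) (Λ : Subgroup (GK b K)), Λ ≤ L8.FL.Uw b K L → (∀ l ∈ Λ, z⁻¹ * l * z ∈ L8.FL.G1 b 𝔫) →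
    Λ.relIndex (L8.FL.Uw b K L ⊓ L8.FL.G1 b ⊤) ≠ 0 → (L8.FL.Uw b K L ⊓ L8.FL.G1 b ⊤).relIndex Λ ≠ 0 →
    L8.FL.rs (L8.FL.Uw b K L) Λ (fun u => open scoped Classical in if ∀ j ∈ A, L8.FL.Chi b 𝔫 j (L8.FL.nW b K L * u * z) then ENNReal.ofReal (L8.FL.fe b e (L8.FL.nW b K L * u * z)) else 0) ≤
      ENNReal.ofReal (Z ^ L.length * L8.FL.fe b (L8.FL.eW b e L) z / (Ideal.absNorm 𝔫 : ℝ) ^ (A.filter (· ∈ L)).card) * L8.FL.gi (L8.FL.Uw b K L ⊓ L8.FL.G1 b ⊤) Λ := by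
  classical
  obtain ⟨Z, hZ, hR⟩ := exists_rankOne K (show (0 : ℝ) < κ - 1 by linarith)
  refine ⟨Z, hZ, fun L hL e hP 𝔫 h𝔫 A z Λ hΛ hz h1 h2 => ?_⟩
  have hm : ∀ u δ : GK b K, L8.FL.nW b K L * (u * δ) * z = L8.FL.nW b K L * u * z * (z⁻¹ * δ * z) := fun u δ => by group
  refine (le_of_eq ?_).trans (rs_fin h𝔫 L z hΛ hz h1 h2 (fun u => ∀ j ∈ A, L8.FL.Chi b 𝔫 j (L8.FL.nW b K L * u * z)) (fun u => L8.FL.fe b e (L8.FL.nW b K L * u * z)) (fun u δ hδ => ?_)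
    (fun u => (fl_fe_pos e _).le) (fun u δ hδ => ?_) (B := Z ^ L.length * L8.FL.fe b (L8.FL.eW b e L) z / (Ideal.absNorm 𝔫 : ℝ) ^ (A.filter (· ∈ L)).card) ?_ (fun T hT hT2 hT3 => ?_))
  · congr 1
  · refine forall_congr' fun j => forall_congr' fun _ => ?_
    rw [hm, Chi_mul h𝔫 j _ (mem_cz.1 hδ)]
  · show L8.FL.fe b e (L8.FL.nW b K L * (u * δ) * z) = _
    rw [hm, fe_eq h𝔫, fe_eq h𝔫]
    exact fe_right _ _ _ (mem_cz.1 hδ)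
  · have h3 : (0 : ℝ) ≤ Z ^ L.length := by positivity
    have h4 := (fl_fe_pos (b := b) (L8.FL.eW b e L) z).le
    positivity
  · have key := c4_main hZ hR a_diag h𝔫 (Gk.hD (b := b) h𝔫) L ((RedW_iff L).2 hL) e ((Adm_iff κ e L).2 hP) A z T (fun u hu => by
      show u ∈ Gk.Uw b K L
      rw [Uw_eq]
      exact hT u hu) hT2 (fun u hu j hj => by
      rw [Gk.gD_nw, nW_eq]
      exact (Chi_iff 𝔫 j _).1 (hT3 u hu j hj))
    rw [ew_eq, ← fe_eq, Gk.gD_nw, nW_eq] at key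
    have e1 : (Gk.gD b K).UW L = L8.FL.Uw b K L := Uw_eq L
    have e2 : A ∩ L.toFinset = A.filter (· ∈ L) := by
      ext j
      rw [Finset.mem_inter, List.mem_toFinset, Finset.mem_filter]
    rw [e1, e2] at key
    refine (le_of_eq ?_).trans (key.trans (le_of_eq ?_))
    · exact Finset.sum_congr rfl fun u _ => fe_eq h𝔫 e _
    · rw [div_mul_eq_mul_div]
      rfl

end

end Pool.Agent.Lib.H29F
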