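import Pool.Agent.Lib.H29F.FH2
import Pool.Agent.Lib.H29F.FB2

/-!
# FH3: the finite part with the information on `z` (stage 2 of the flagship; helper29, helper80)
-/

namespace Pool.Agent.Lib.H29F

set_option linter.unusedSectionVars false

open MeasureTheory Matrix NumberField IsDedekindDomain Pool.Agent.Lib.H89N Pool.Agent.Lib.H33W Pool.Agent.Lib.H67G Pool.Agent.Lib.L1S
open scoped ENNReal

noncomputable section

variable {ι M N : Type} [Fintype ι] [DecidableEq ι] [AddCommGroup M] [Module ℚ M] [AddCommGroup N] [Module ℚ N]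
  {P : RootPairing ι ℚ M N} [P.IsCrystallographic] [P.IsReduced] [P.IsIrreducible] [P.IsRootSystem]

/-- **The gain** of a word: `∑` over the letters `i ∈ A` at the last time they are summed (`i` not in the rest of the word) of `μ_i` if `i ∈ B` has not occurred before, else `1`. -/
def ga (b : P.Base) (e : b.support → ℝ) (A : Finset b.support) : Finset b.support → List b.support → ℝ
  | _, [] => 0
  | B, i :: L => ga b e A (B.erase i) L + if i ∈ A ∧ i ∉ L then (if i ∈ B then L8.FL.mu b (L8.FL.eW b e L) i else 1) else 0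

variable {b : P.Base} {K : Type} [Field K] [NumberField K]

theorem ga_nil (e : b.support → ℝ) (A B : Finset b.support) : ga b e A B [] = 0 := rfl

theorem ga_cons (e : b.support → ℝ) (A B : Finset b.support) (i : b.support) (L : List b.support) :
    ga b e A B (i :: L) = ga b e A (B.erase i) L + if i ∈ A ∧ i ∉ L then (if i ∈ B then L8.FL.mu b (L8.FL.eW b e L) i else 1) else 0 := rfl

theorem gain_ga (e : b.support → ℝ) (A B : Finset b.support) (L : List b.support) : gain (fun k i : b.support => P.pairingIn ℤ (k : ι) (i : ι)) e A B L = ga b e A B L := by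
  induction L generalizing B with
  | nil => rfl
  | cons i L ih =>
    rw [gain_cons, ga_cons, ih, ew_eq, mu_eq]
    congr

/-- **The finite part (C4) with the information `χ_j(z)`, `j ∈ B`.** -/
theorem fin_sum2 (b : P.Base) (K : Type) [Field K] [NumberField K] {κ : ℝ} (hκ : 1 < κ) : ∃ Z : ℝ, 1 ≤ Z ∧ ∀ (L : List b.support), L8.FL.RedW b L → ∀ e : b.support → ℝ, L8.FL.PosW b κ e L →
    ∀ 𝔫 : Ideal (𝓞 K), 𝔫 ≠ ⊥ → ∀ (A B : Finset b.support) (z : GK b K), (∀ j ∈ B, L8.FL.Chi b 𝔫 j z) → ∀ (Λ : Subgroup (GK b K)), Λ ≤ L8.FL.Uw b K L → (∀ l ∈ Λ, z⁻¹ * l * z ∈ L8.FL.G1 b 𝔫) →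
    Λ.relIndex (L8.FL.Uw b K L ⊓ L8.FL.G1 b ⊤) ≠ 0 → (L8.FL.Uw b K L ⊓ L8.FL.G1 b ⊤).relIndex Λ ≠ 0 →
    L8.FL.rs (L8.FL.Uw b K L) Λ (fun u => open scoped Classical in if ∀ j ∈ A, L8.FL.Chi b 𝔫 j (L8.FL.nW b K L * u * z) then ENNReal.ofReal (L8.FL.fe b e (L8.FL.nW b K L * u * z)) else 0) ≤
      ENNReal.ofReal (Z ^ L.length * L8.FL.fe b (L8.FL.eW b e L) z / (Ideal.absNorm 𝔫 : ℝ) ^ ga b e A B L) * L8.FL.gi (L8.FL.Uw b K L ⊓ L8.FL.G1 b ⊤) Λ := by
  classical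
  obtain ⟨Z, hZ, hR⟩ := exists_rankOne K (show (0 : ℝ) < κ - 1 by linarith)
  refine ⟨Z, hZ, fun L hL e hP 𝔫 h𝔫 A B z hBz Λ hΛ hz h1 h2 => ?_⟩
  have hm : ∀ u δ : GK b K, L8.FL.nW b K L * (u * δ) * z = L8.FL.nW b K L * u * z * (z⁻¹ * δ * z) := fun u δ => by group
  refine (le_of_eq ?_).trans (rs_fin h𝔫 L z hΛ hz h1 h2 (fun u => ∀ j ∈ A, L8.FL.Chi b 𝔫 j (L8.FL.nW b K L * u * z)) (fun u => L8.FL.fe b e (L8.FL.nW b K L * u * z)) (fun u δ hδ => ?_)
    (fun u => (fl_fe_pos e _).le) (fun u δ hδ => ?_) (B := Z ^ L.length * L8.FL.fe b (L8.FL.eW b e L) z / (Ideal.absNorm 𝔫 : ℝ) ^ ga b e A B L) ?_ (fun T hT hT2 hT3 => ?_))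
  · congr 1
  · refine forall_congr' fun j => forall_congr' fun _ => ?_
    rw [hm, Chi_mul h𝔫 j _ (mem_cz.1 hδ)]
  · show L8.FL.fe b e (L8.FL.nW b K L * (u * δ) * z) = _
    rw [hm, fe_eq h𝔫, fe_eq h𝔫]
    exact fe_right _ _ _ (mem_cz.1 hδ)
  · have h3 : (0 : ℝ) ≤ Z ^ L.length := by positivity
    have h4 := (fl_fe_pos (b := b) (L8.FL.eW b e L) z).le
    have h5 : (0 : ℝ) ≤ (Ideal.absNorm 𝔫 : ℝ) ^ ga b e A B L := Real.rpow_nonneg (Nat.cast_nonneg _) _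
    positivity
  · have key := c4_main2 hZ hR a_diag h𝔫 (Gk.hD (b := b) h𝔫) (hD_loc3 h𝔫) L ((RedW_iff L).2 hL) e ((Adm_iff κ e L).2 hP) A B z (fun j hj => (Chi_iff 𝔫 j z).1 (hBz j hj)) T (fun u hu => by
      show u ∈ Gk.Uw b K L
      rw [Uw_eq]
      exact hT u hu) hT2 (fun u hu j hj => by
      rw [Gk.gD_nw, nW_eq]
      exact (Chi_iff 𝔫 j _).1 (hT3 u hu j hj))
    rw [ew_eq, ← fe_eq, Gk.gD_nw, nW_eq, gain_ga] at key
    have e1 : (Gk.gD b K).UW L = L8.FL.Uw b K L := Uw_eq L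
    rw [e1] at key
    refine (le_of_eq ?_).trans (key.trans (le_of_eq ?_))
    · exact Finset.sum_congr rfl fun u _ => fe_eq h𝔫 e _
    · rw [div_mul_eq_mul_div]
      rfl

end

end Pool.Agent.Lib.H29F
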