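import Pool.Agent.Lib.H29F.Units
import Pool.Agent.Lib.L8.FU.P1

/-!
# FT1 (C6, applied): the number of torus elements with given finite absolute values and archimedean heights in a box (helper29)
-/

namespace Pool.Agent.Lib.H29F

set_option linter.unusedSectionVars false

open MeasureTheory Matrix NumberField IsDedekindDomain Pool.Agent.Lib.H89N Pool.Agent.Lib.H33W Pool.Agent.Lib.H67G Pool.Agent.Lib.L1S Pool.Agent.Lib.L8 Pool.Agent.Lib.L8.FL Pool.Agent.Lib.L8.FU
open scoped ENNReal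

noncomputable section

variable {ι M N : Type} [Fintype ι] [DecidableEq ι] [AddCommGroup M] [Module ℚ M] [AddCommGroup N] [Module ℚ N]
  {P : RootPairing ι ℚ M N} [P.IsCrystallographic] [P.IsReduced] [P.IsIrreducible] [P.IsRootSystem]

variable {b : P.Base} {K : Type} [Field K] [NumberField K]

/-- An element with all finite absolute values one is a unit. -/
theorem unit_of_av {x : K} (hx : ∀ v : HeightOneSpectrum (𝓞 K), L8.FL.av v x = 1) (hx0 : x ≠ 0) : ∃ u : (𝓞 K)ˣ, ((u : 𝓞 K) : K) = x := by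
  obtain ⟨y, hy⟩ := nu2_int x (fun v => (hx v).le)
  obtain ⟨z, hz⟩ := nu2_int x⁻¹ (fun v => by
    have h := hx v
    show L8.FL.av v x⁻¹ ≤ 1
    rw [map_inv₀, h, inv_one])
  have h1 : y * z = 1 := by
    apply RingOfIntegers.ext
    show (y : K) * (z : K) = ((1 : 𝓞 K) : K)
    rw [hy, hz, mul_inv_cancel₀ hx0]
    rfl
  exact ⟨Units.mkOfMulEqOne y z h1, hy⟩

/-- The entries of torus elements with units as root values. -/
theorem tk_unit {t : GK b K} (ht : t ∈ TK b K) (h : ∀ v k, L8.FL.av v (tv b K t k) = 1) (r : I b) : ∃ u : (𝓞 K)ˣ, ((u : 𝓞 K) : K) = t.1.1 r r := by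
  refine unit_of_av (fun v => ?_) (tk_ne ht r)
  obtain ⟨h1, h2⟩ := tk_abs ht (L8.FL.av v)
  match r with
  | Sum.inl j => exact h1 j
  | Sum.inr β =>
    rw [h2 β]
    exact Finset.prod_eq_one fun k _ => by rw [h v k, _root_.one_zpow]

/-- The archimedean absolute values of the entries. -/
theorem tk_log {t : GK b K} (ht : t ∈ TK b K) {R : ℝ} (w : InfinitePlace K) (h : ∀ k, |Real.log (w (tv b K t k))| ≤ R) (r : I b) :
    |Real.log (w (t.1.1 r r))| ≤ (∑ r : I b, ∑ k, |(mc b k r : ℝ)|) * R := by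
  obtain ⟨h1, h2⟩ := tk_abs ht w.1
  have hR : 0 ≤ (∑ r : I b, ∑ k, |(mc b k r : ℝ)|) * R := by
    rcases isEmpty_or_nonempty b.support with he | ⟨⟨k⟩⟩
    · have : (∑ r : I b, ∑ k, |(mc b k r : ℝ)|) = 0 := Finset.sum_eq_zero fun r _ => by rw [Finset.univ_eq_empty, Finset.sum_empty]
      rw [this, zero_mul]
    · exact mul_nonneg (Finset.sum_nonneg fun _ _ => Finset.sum_nonneg fun _ _ => abs_nonneg _) ((abs_nonneg _).trans (h k))
  match r with
  | Sum.inl j =>
    have e : w (t.1.1 (Sum.inl j) (Sum.inl j)) = 1 := h1 j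
    rw [e, Real.log_one, abs_zero]
    exact hR
  | Sum.inr β =>
    have e : w (t.1.1 (Sum.inr β) (Sum.inr β)) = ∏ k, w (tv b K t k) ^ mc b k (Sum.inr β) := h2 β
    have h5 : ∀ k, w (tv b K t k) ≠ 0 := fun k => (InfinitePlace.pos_iff.2 (tk_ne ht _)).ne'
    rw [e, Real.log_prod (fun k _ => zpow_ne_zero _ (h5 k))]
    refine (Finset.abs_sum_le_sum_abs _ _).trans ?_
    calc ∑ k, |Real.log (w (tv b K t k) ^ mc b k (Sum.inr β))| ≤ ∑ k, |(mc b k (Sum.inr β) : ℝ)| * R := by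
          refine Finset.sum_le_sum fun k _ => ?_
          rw [Real.log_zpow, abs_mul]
          exact mul_le_mul_of_nonneg_left (h k) (abs_nonneg _)
      _ = (∑ k, |(mc b k (Sum.inr β) : ℝ)|) * R := by rw [Finset.sum_mul]
      _ ≤ _ := by
          rcases isEmpty_or_nonempty b.support with he | ⟨⟨k⟩⟩
          · have : (∑ k : b.support, |(mc b k (Sum.inr β) : ℝ)|) = 0 := by rw [Finset.univ_eq_empty, Finset.sum_empty]
            rw [this, zero_mul]
            exact hR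
          · refine mul_le_mul_of_nonneg_right ?_ ((abs_nonneg _).trans (h k))
            exact Finset.single_le_sum (f := fun r : I b => ∑ k, |(mc b k r : ℝ)|) (fun r _ => Finset.sum_nonneg fun _ _ => abs_nonneg _) (Finset.mem_univ (Sum.inr β))

/-- **(C6), applied.** The torus elements with given finite absolute values of the root values and heights `H_w(t y)` in a box. -/
theorem tau_count (b : P.Base) (K : Type) [Field K] [NumberField K] : ∃ C : ℝ, 0 < C ∧ ∃ D : ℕ, ∀ (H : Subgroup (GK b K)) (a : HeightOneSpectrum (𝓞 K) → b.support → ℝ) (y : HRt H)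
    (c : InfinitePlace K → b.support → ℝ) (R : ℝ), 0 ≤ R →
    {t : H | t.1 ∈ TK b K ∧ (∀ v k, L8.FL.av v (tv b K t.1 k) = a v k) ∧ ∀ w j, |Hw w (embH H t * y) j - c w j| ≤ R}.Finite ∧
    ({t : H | t.1 ∈ TK b K ∧ (∀ v k, L8.FL.av v (tv b K t.1 k) = a v k) ∧ ∀ w j, |Hw w (embH H t * y) j - c w j| ≤ R}.ncard : ℝ) ≤ C * (1 + R) ^ D := by
  classical
  obtain ⟨C, hC, D, h⟩ := uR_card_pi K (I b)
  set c1 : ℝ := ∑ i : b.support, ∑ j : b.support, |(cA b i j : ℝ)| with hc1
  set c2 : ℝ := ∑ r : I b, ∑ k : b.support, |(mc b k r : ℝ)| with hc2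
  have hc1' : 0 ≤ c1 := Finset.sum_nonneg fun _ _ => Finset.sum_nonneg fun _ _ => abs_nonneg _
  have hc2' : 0 ≤ c2 := Finset.sum_nonneg fun _ _ => Finset.sum_nonneg fun _ _ => abs_nonneg _
  set c3 : ℝ := c2 * (c1 * 2) with hc3
  have hc3' : 0 ≤ c3 := by positivity
  refine ⟨C * (1 + c3) ^ D, by positivity, D, fun H a y c R hR => ?_⟩
  set T := {t : H | t.1 ∈ TK b K ∧ (∀ v k, L8.FL.av v (tv b K t.1 k) = a v k) ∧ ∀ w j, |Hw w (embH H t * y) j - c w j| ≤ R} with hT
  rcases T.eq_empty_or_nonempty with hE | ⟨t0, ht0⟩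
  · rw [hE, Set.ncard_empty, Nat.cast_zero]
    exact ⟨Set.finite_empty, by positivity⟩
  -- the quotient
  have hq : ∀ t ∈ T, (t * t0⁻¹).1 ∈ TK b K := fun t ht => mul_mem ht.1 (inv_mem ht0.1)
  have hent : ∀ t ∈ T, ∀ r, (t * t0⁻¹).1.1.1 r r = t.1.1.1 r r * (t0.1.1.1 r r)⁻¹ := by
    intro t ht r
    have h1 : (t * t0⁻¹).1.1.1 r r = t.1.1.1 r r * t0.1⁻¹.1.1 r r := by
      show (t.1.1.1 * t0.1⁻¹.1.1) r r = _
      rw [Matrix.mul_apply, Finset.sum_eq_single r]
      · intro k _ hk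
        rw [(ht.1 r k hk.symm).1, zero_mul]
      · intro h
        exact absurd (Finset.mem_univ r) h
    rw [h1, eq_inv_of_mul_eq_one_right (tk_inv ht0.1 r)]
  have htv : ∀ t ∈ T, ∀ k, tv b K (t * t0⁻¹).1 k = tv b K t.1 k * (tv b K t0.1 k)⁻¹ := fun t ht k => hent t ht _
  have hav : ∀ t ∈ T, ∀ v k, L8.FL.av v (tv b K (t * t0⁻¹).1 k) = 1 := by
    intro t ht v k
    have h0 : L8.FL.av v (tv b K t0.1 k) ≠ 0 := (L8.FL.av v).ne_zero_iff.2 (tk_ne ht0.1 _)
    rw [htv t ht k, map_mul, map_inv₀, ht.2.1 v k, ← ht0.2.1 v k, mul_inv_cancel₀ h0]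
  have hlog : ∀ t ∈ T, ∀ (w : InfinitePlace K) (k : b.support), |Real.log (w (tv b K (t * t0⁻¹).1 k))| ≤ c1 * 2 * R := by
    intro t ht w k
    have h0 : w (tv b K t0.1 k) ≠ 0 := (InfinitePlace.pos_iff.2 (tk_ne ht0.1 _)).ne'
    have h0' : w (tv b K t.1 k) ≠ 0 := (InfinitePlace.pos_iff.2 (tk_ne ht.1 _)).ne'
    have h1 := al_Hw w ht.1 y k
    have h2 := al_Hw w ht0.1 y k
    have h3 : Real.log (w (tv b K (t * t0⁻¹).1 k)) = al (cA b) k (Hw w (embH H t * y)) - al (cA b) k (Hw w (embH H t0 * y)) := by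
      rw [htv t ht k, map_mul, map_inv₀, Real.log_mul h0' (inv_ne_zero h0), Real.log_inv, h1, h2]
      ring
    rw [h3]
    unfold al
    rw [← Finset.sum_sub_distrib]
    refine (Finset.abs_sum_le_sum_abs _ _).trans ?_
    calc ∑ j, |(cA b k j : ℝ) * Hw w (embH H t * y) j - (cA b k j : ℝ) * Hw w (embH H t0 * y) j| ≤ ∑ j, |(cA b k j : ℝ)| * (2 * R) := by
          refine Finset.sum_le_sum fun j _ => ?_
          rw [← mul_sub, abs_mul]
          refine mul_le_mul_of_nonneg_left ?_ (abs_nonneg _)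
          have a1 := ht.2.2 w j
          have a2 := ht0.2.2 w j
          rw [abs_le] at a1 a2 ⊢
          constructor <;> linarith
      _ = (∑ j, |(cA b k j : ℝ)|) * (2 * R) := by rw [Finset.sum_mul]
      _ ≤ c1 * (2 * R) := by
          refine mul_le_mul_of_nonneg_right ?_ (by positivity)
          exact Finset.single_le_sum (f := fun i : b.support => ∑ j, |(cA b i j : ℝ)|) (fun i _ => Finset.sum_nonneg fun _ _ => abs_nonneg _) (Finset.mem_univ k)
      _ = _ := by ring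
  choose! u hu using fun (t : H) (ht : t ∈ T) (r : I b) => tk_unit (hq t ht) (hav t ht) r
  have hmaps : Set.MapsTo u T {u : I b → (𝓞 K)ˣ | ∀ i, ∀ v : InfinitePlace K, |Real.log (v ((u i : 𝓞 K) : K))| ≤ c3 * R} := by
    intro t ht i v
    rw [hu t ht i]
    refine (tk_log (hq t ht) v (hlog t ht v) i).trans (le_of_eq ?_)
    rw [hc3]
    ring
  have hinj : Set.InjOn u T := by
    intro t ht t' ht' e
    have h1 : t * t0⁻¹ = t' * t0⁻¹ := by
      apply Subtype.ext
      apply Subtype.ext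
      apply Units.ext
      rw [tk_diag (hq t ht), tk_diag (hq t' ht')]
      congr 1
      funext r
      rw [← hu t ht r, ← hu t' ht' r, e]
    exact mul_right_cancel h1
  obtain ⟨hf, hcard⟩ := h (c3 * R) (by positivity)
  refine ⟨Set.Finite.of_finite_image (hf.subset hmaps.image_subset) hinj, ?_⟩
  have h1 : (T.ncard : ℝ) ≤ ({u : I b → (𝓞 K)ˣ | ∀ i, ∀ v : InfinitePlace K, |Real.log (v ((u i : 𝓞 K) : K))| ≤ c3 * R}.ncard : ℝ) := by
    exact_mod_cast Set.ncard_le_ncard_of_injOn u hmaps hinj hf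
  refine h1.trans (hcard.trans ?_)
  clear_value c3
  rw [mul_assoc, ← mul_pow]
  refine mul_le_mul_of_nonneg_left ?_ hC.le
  refine pow_le_pow_left₀ (by positivity) ?_ _
  nlinarith [mul_nonneg hc3' hR]

end

end Pool.Agent.Lib.H29F
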