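import Pool.Agent.Lib.H29F.FC1
import Pool.Agent.Lib.L1S.B1
import Pool.Agent.Lib.L1S.R9B

/-!
# GD0: the groups of `L8/FL/Defs.lean` (copies of its definitions, with light imports; the definitions are literally the same)
-/

namespace Pool.Agent.Lib.H29F.Gk

set_option linter.unusedSectionVars false

open MeasureTheory Matrix NumberField IsDedekindDomain Pool.Agent.Lib.H89N Pool.Agent.Lib.H33W Pool.Agent.Lib.L1S
open scoped ENNReal

noncomputable section

variable {ι M N : Type} [Fintype ι] [DecidableEq ι] [AddCommGroup M] [Module ℚ M] [AddCommGroup N] [Module ℚ N]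
  {P : RootPairing ι ℚ M N} [P.IsCrystallographic] [P.IsReduced] [P.IsIrreducible] [P.IsRootSystem]

section words

variable (b : P.Base)

/-- The permutation of the roots of a word. -/
def wW : List b.support → Equiv.Perm ι
  | [] => 1
  | i :: L => wW L * P.reflectionPerm i

/-- Reduced words. -/
def RedW : List b.support → Prop
  | [] => True
  | i :: L => b.IsPos (wW b L i) ∧ RedW L

end words

section groups

variable (b : P.Base) (K : Type) [Field K] [NumberField K]

/-- The representative of a word. -/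
def nW : List b.support → GK b K
  | [] => 1
  | i :: L => nW L * b1m b K i 1

/-- The elements `g` for which `g - 1` and `g⁻¹ - 1` raise the degree `h`. -/
def UG (h : I b → ℤ) : Subgroup (GK b K) where
  carrier := {g | ∀ r c, h r ≤ h c → g.1.1 r c = (1 : Matrix (I b) (I b) K) r c ∧ g⁻¹.1.1 r c = (1 : Matrix (I b) (I b) K) r c}
  one_mem' := fun r c _ => by simp
  mul_mem' := by
    intro g g' hg hg' r c hrc
    have key : ∀ X Y : Matrix (I b) (I b) K, (∀ r c, h r ≤ h c → X r c = (1 : Matrix (I b) (I b) K) r c) →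
        (∀ r c, h r ≤ h c → Y r c = (1 : Matrix (I b) (I b) K) r c) → ∀ r c, h r ≤ h c → (X * Y) r c = (1 : Matrix (I b) (I b) K) r c := by
      intro X Y hX hY r c hrc
      rw [Matrix.mul_apply, Finset.sum_eq_single r]
      · rw [hX r r le_rfl, hY r c hrc, Matrix.one_apply_eq, one_mul]
      · intro k _ hk
        by_cases h1 : h r ≤ h k
        · rw [hX r k h1, Matrix.one_apply_ne hk.symm, zero_mul]
        · have h2 : h k ≤ h c := (not_le.1 h1).le.trans hrc
          by_cases h3 : k = c
          · subst h3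
            exact absurd hrc h1
          · rw [hY k c h2, Matrix.one_apply_ne h3, mul_zero]
      · intro h
        exact absurd (Finset.mem_univ r) h
    refine ⟨key _ _ (fun r c h => (hg r c h).1) (fun r c h => (hg' r c h).1) r c hrc, ?_⟩
    have e : (g * g')⁻¹.1.1 = g'⁻¹.1.1 * g⁻¹.1.1 := by
      rw [_root_.mul_inv_rev]
      rfl
    rw [e]
    exact key _ _ (fun r c h => (hg' r c h).2) (fun r c h => (hg r c h).2) r c hrc
  inv_mem' := by
    intro g hg r c hrc
    refine ⟨(hg r c hrc).2, ?_⟩
    rw [inv_inv]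
    exact (hg r c hrc).1

/-- The opposite unipotent group. -/
def HV : Subgroup (GK b K) := UG b K fun r => -ht b r

/-- `U_w = {u ∈ U(K) : n_w u n_w⁻¹ ∈ V(K)}`. -/
def Uw (L : List b.support) : Subgroup (GK b K) := HU b K ⊓ (HV b K).comap (MulAut.conj (nW b K L)).toMonoidHom

variable {K}

/-- The principal congruence group. -/
def G1 (𝔫 : Ideal (𝓞 K)) : Subgroup (GK b K) where
  carrier := {g | ∀ r c, L1S.InI 𝔫 ((g.1.1 - 1) r c) ∧ L1S.InI 𝔫 ((g⁻¹.1.1 - 1) r c)}
  one_mem' := fun r c => by simp [L1S.InI.zero]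
  mul_mem' := by
    intro g g' hg hg' r c
    have key : ∀ X Y : Matrix (I b) (I b) K, (∀ r c, L1S.InI 𝔫 ((X - 1) r c)) → (∀ r c, L1S.InI 𝔫 ((Y - 1) r c)) → ∀ r c, L1S.InI 𝔫 ((X * Y - 1) r c) := by
      intro X Y hX hY r c
      have e : X * Y - 1 = (X - 1) * (Y - 1) + (X - 1) + (Y - 1) := by
        rw [sub_mul, one_mul, mul_sub, mul_one]
        abel
      rw [e, Matrix.add_apply, Matrix.add_apply, Matrix.mul_apply]
      refine ((L1S.InI.sum _ _ fun k _ => ?_).add (hX r c)).add (hY r c)
      exact (hX r k).mul (hY k c).top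
    refine ⟨key _ _ (fun r c => (hg r c).1) (fun r c => (hg' r c).1) r c, ?_⟩
    have e : (g * g')⁻¹.1.1 = g'⁻¹.1.1 * g⁻¹.1.1 := by
      rw [_root_.mul_inv_rev]
      rfl
    rw [e]
    exact key _ _ (fun r c => (hg' r c).2) (fun r c => (hg r c).2) r c
  inv_mem' := by
    intro g hg r c
    refine ⟨(hg r c).2, ?_⟩
    rw [inv_inv]
    exact (hg r c).1

end groups

end

end Pool.Agent.Lib.H29F.Gk
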