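import Mathlib

/-!
# Units: the number of the units (and of the tuples of units) of a number field in a range
-/

namespace Pool.Agent.Lib.H29F

open NumberField

noncomputable section

variable (K : Type) [Field K]

theorem un_pos (u : (𝓞 K)ˣ) (v : InfinitePlace K) : 0 < v ((u : 𝓞 K) : K) := by
  rw [v.pos_iff]
  exact fun h => u.ne_zero (by exact_mod_cast h)

variable [NumberField K]

/-- The units `u` with `|log |u|_v| ≤ R` at all infinite places. -/
def uR (R : ℝ) : Set (𝓞 K)ˣ := {u | ∀ v : InfinitePlace K, |Real.log (v ((u : 𝓞 K) : K))| ≤ R}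

theorem uR_fin (R : ℝ) : (uR K R).Finite := by
  have h := Embeddings.finite_of_norm_le K ℂ (Real.exp R)
  have h2 : Set.InjOn (fun u : (𝓞 K)ˣ => ((u : 𝓞 K) : K)) (uR K R) := by
    intro a _ b _ hab
    exact Units.ext (RingOfIntegers.ext hab)
  refine Set.Finite.of_finite_image (h.subset ?_) h2
  rintro _ ⟨u, hu, rfl⟩
  refine ⟨(u : 𝓞 K).isIntegral_coe, fun φ => ?_⟩
  have h3 := hu (InfinitePlace.mk φ)
  have h4 : (InfinitePlace.mk φ) ((u : 𝓞 K) : K) = ‖φ ((u : 𝓞 K) : K)‖ := InfinitePlace.apply φ _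
  rw [← h4]
  have h5 := un_pos K u (InfinitePlace.mk φ)
  calc (InfinitePlace.mk φ) ((u : 𝓞 K) : K) = Real.exp (Real.log ((InfinitePlace.mk φ) ((u : 𝓞 K) : K))) := (Real.exp_log h5).symm
    _ ≤ Real.exp R := Real.exp_le_exp.2 ((le_abs_self _).trans h3)

/-- **The number of the units in a range**: at most `C (1 + R)^D`. -/
theorem uR_card : ∃ C : ℕ, 0 < C ∧ ∀ R : ℝ, 0 ≤ R → ((uR K R).ncard : ℝ) ≤ C * (2 * R + 3) ^ Fintype.card (InfinitePlace K) := by
  classical
  refine ⟨(uR K 1).ncard, ?_, fun R hR => ?_⟩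
  · rw [Set.ncard_pos (uR_fin K 1)]
    exact ⟨1, fun v => by simp⟩
  · set m : ℕ := ⌊2 * R + 3⌋₊ with hm
    set f : (𝓞 K)ˣ → (InfinitePlace K → ℤ) := fun u v => ⌊Real.log (v ((u : 𝓞 K) : K))⌋ with hf
    set T : Finset (InfinitePlace K → ℤ) := Fintype.piFinset fun _ => Finset.Icc (⌊-R⌋) (⌊R⌋) with hT
    have hmap : ∀ u ∈ (uR_fin K R).toFinset, f u ∈ T := by
      intro u hu
      rw [Set.Finite.mem_toFinset] at hu
      rw [hT, Fintype.mem_piFinset]
      intro v
      have h1 := abs_le.1 (hu v)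
      rw [Finset.mem_Icc]
      exact ⟨Int.floor_le_floor h1.1, Int.floor_le_floor h1.2⟩
    have hfib : ∀ t ∈ T, ((uR_fin K R).toFinset.filter fun u => f u = t).card ≤ (uR K 1).ncard := by
      intro t _
      rcases ((uR_fin K R).toFinset.filter fun u => f u = t).eq_empty_or_nonempty with h | ⟨u0, h0⟩
      · rw [h]
        simp
      · rw [Finset.mem_filter] at h0
        rw [Set.ncard_eq_toFinset_card _ (uR_fin K 1)]
        refine Finset.card_le_card_of_injOn (fun u => u * u0⁻¹) ?_ ?_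
        · intro u hu
          have hu' := (Finset.mem_filter.1 hu).2
          rw [Finset.mem_coe, Set.Finite.mem_toFinset]
          intro v
          have e1 : Real.log (v (((u * u0⁻¹ : (𝓞 K)ˣ) : 𝓞 K) : K)) = Real.log (v ((u : 𝓞 K) : K)) - Real.log (v ((u0 : 𝓞 K) : K)) := by
            have h5 := un_pos K u v
            have h6 := un_pos K u0 v
            have h7 := un_pos K (u0⁻¹) v
            have h8 : v (((u0⁻¹ : (𝓞 K)ˣ) : 𝓞 K) : K) = (v ((u0 : 𝓞 K) : K))⁻¹ := by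
              have : (((u0⁻¹ : (𝓞 K)ˣ) : 𝓞 K) : K) * ((u0 : 𝓞 K) : K) = 1 := by
                have h9 : ((u0⁻¹ : (𝓞 K)ˣ) : 𝓞 K) * (u0 : 𝓞 K) = 1 := Units.inv_mul u0
                exact_mod_cast congrArg (fun x : 𝓞 K => (x : K)) h9
              refine eq_inv_of_mul_eq_one_left ?_
              rw [← map_mul, this, map_one]
            have e2 : (((u * u0⁻¹ : (𝓞 K)ˣ) : 𝓞 K) : K) = ((u : 𝓞 K) : K) * (((u0⁻¹ : (𝓞 K)ˣ) : 𝓞 K) : K) := by
              simp
            rw [e2, map_mul, h8, Real.log_mul h5.ne' (inv_ne_zero h6.ne'), Real.log_inv]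
            ring
          rw [e1]
          have h10 : f u v = f u0 v := by rw [hu', h0.2]
          simp only [hf] at h10
          exact (Int.abs_sub_lt_one_of_floor_eq_floor h10).le
        · intro a _ b _ hab
          exact mul_right_cancel hab
    have h1 := Finset.card_le_mul_card_image_of_maps_to hmap (uR K 1).ncard hfib
    have h2 : T.card ≤ m ^ Fintype.card (InfinitePlace K) := by
      rw [hT, Fintype.card_piFinset, Finset.prod_const, Finset.card_univ]
      refine Nat.pow_le_pow_left ?_ _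
      rw [Int.card_Icc, hm]
      refine Nat.le_floor ?_
      have h3 : (0 : ℤ) ≤ ⌊R⌋ + 1 - ⌊-R⌋ := by
        have a1 := Int.lt_floor_add_one R
        have a2 := Int.floor_le (-R)
        have : ((⌊-R⌋ : ℤ) : ℝ) < ((⌊R⌋ + 1 : ℤ) : ℝ) := by push_cast; linarith
        have := Int.cast_lt.1 this
        omega
      have h4 : (((⌊R⌋ + 1 - ⌊-R⌋).toNat : ℕ) : ℝ) = ((⌊R⌋ + 1 - ⌊-R⌋ : ℤ) : ℝ) := by
        exact_mod_cast congrArg (fun z : ℤ => (z : ℝ)) (Int.toNat_of_nonneg h3)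
      rw [h4]
      push_cast
      have a1 := Int.floor_le R
      have a2 := Int.lt_floor_add_one (-R)
      linarith
    rw [Set.ncard_eq_toFinset_card _ (uR_fin K R)]
    have h3 : ((uR_fin K R).toFinset.card : ℝ) ≤ (uR K 1).ncard * (m : ℝ) ^ Fintype.card (InfinitePlace K) := by
      exact_mod_cast h1.trans (Nat.mul_le_mul_left _ h2)
    refine h3.trans (mul_le_mul_of_nonneg_left (pow_le_pow_left₀ (Nat.cast_nonneg _) ?_ _) (Nat.cast_nonneg _))
    exact Nat.floor_le (by linarith)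

/-- The number of the `ι`-tuples of units in a range. -/
theorem uR_card_pi (ι : Type) [Fintype ι] : ∃ C : ℝ, 0 < C ∧ ∃ D : ℕ, ∀ R : ℝ, 0 ≤ R →
    {u : ι → (𝓞 K)ˣ | ∀ i, ∀ v : InfinitePlace K, |Real.log (v ((u i : 𝓞 K) : K))| ≤ R}.Finite ∧
    (({u : ι → (𝓞 K)ˣ | ∀ i, ∀ v : InfinitePlace K, |Real.log (v ((u i : 𝓞 K) : K))| ≤ R}.ncard : ℝ)) ≤ C * (1 + R) ^ D := by
  classical
  obtain ⟨C, hC, h⟩ := uR_card K
  have hC' : (0 : ℝ) < C := Nat.cast_pos.2 hC
  refine ⟨(C * 3 ^ Fintype.card (InfinitePlace K)) ^ Fintype.card ι, by positivity, Fintype.card (InfinitePlace K) * Fintype.card ι, fun R hR => ?_⟩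
  have e : {u : ι → (𝓞 K)ˣ | ∀ i, ∀ v : InfinitePlace K, |Real.log (v ((u i : 𝓞 K) : K))| ≤ R} = ↑(Fintype.piFinset fun _ : ι => (uR_fin K R).toFinset) := by
    ext u
    simp only [Fintype.coe_piFinset, Set.Finite.coe_toFinset, Set.mem_ofPred_eq, Set.mem_pi, Set.mem_univ, forall_true_left]
    rfl
  rw [e]
  refine ⟨Finset.finite_toSet _, ?_⟩
  rw [Set.ncard_coe_finset, Fintype.card_piFinset, Finset.prod_const, Finset.card_univ, ← Set.ncard_eq_toFinset_card _ (uR_fin K R), Nat.cast_pow,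
    pow_mul, ← mul_pow]
  refine pow_le_pow_left₀ (Nat.cast_nonneg _) ((h R hR).trans ?_) _
  rw [mul_assoc, ← mul_pow]
  refine mul_le_mul_of_nonneg_left (pow_le_pow_left₀ (by linarith) (by linarith) _) hC'.le

end

end Pool.Agent.Lib.H29F
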